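import Pool.Agent.Helper597_torsymp.Basic

/-!
# Families of local diffeomorphisms of a torus

A smooth family `Φ t` of local diffeomorphisms of `ℝ^ι` which are equivariant for the lattice, and
one of which is injective, consists of diffeomorphisms, and the inverses form a smooth family.
-/

set_option autoImplicit false
set_option linter.unusedSectionVars false

open Set Filter Topology
open scoped ContDiff

noncomputable section

namespace Pool.Agent.Helper597_torsymp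

variable {ι : Type} [Fintype ι] [DecidableEq ι]

/-- integer vectors as real vectors -/
def ilat (k : ι → ℤ) : ι → ℝ := fun i => (k i : ℝ)

theorem ilat_mulVec (A : Matrix ι ι ℤ) (k : ι → ℤ) :
    ilat (A.mulVec k) = (A.map (Int.cast : ℤ → ℝ)).mulVec (ilat k) := by
  funext i
  simp [ilat, Matrix.mulVec, dotProduct, Matrix.map_apply]

/-- equivariance of a map of `ℝ^ι` for the lattice, with linear part `A` -/
def Equi (A : Matrix ι ι ℤ) (f : (ι → ℝ) → (ι → ℝ)) : Prop :=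
  ∀ (x : ι → ℝ) (k : ι → ℤ), f (x + ilat k) = f x + ilat (A.mulVec k)

/-- the linear part is invertible if the map is injective -/
theorem Equi.det_ne_zero {A : Matrix ι ι ℤ} {f : (ι → ℝ) → (ι → ℝ)} (hf : Equi A f)
    (hi : Function.Injective f) : A.det ≠ 0 := by
  intro h
  obtain ⟨v, hv, hv0⟩ := Matrix.exists_mulVec_eq_zero_iff.2 h
  apply hv
  have h1 := hf 0 v
  rw [hv0] at h1
  have h2 : ilat (0 : ι → ℤ) = 0 := by funext i; simp [ilat]
  rw [h2, add_zero] at h1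
  have h3 := hi h1
  rw [zero_add] at h3
  funext i
  have := congrFun h3 i
  simpa [ilat] using this

/-- the fractional part of a vector -/
theorem exists_frac (x : ι → ℝ) : ∃ (k : ι → ℤ), x + ilat k ∈ Icc (0 : ι → ℝ) 1 := by
  refine ⟨fun i => -⌊x i⌋, ?_, ?_⟩
  · intro i
    simp only [Pi.zero_apply, Pi.add_apply, ilat, Int.cast_neg]
    have := Int.floor_le (x i)
    linarith
  · intro i
    simp only [Pi.one_apply, Pi.add_apply, ilat, Int.cast_neg]
    have := Int.lt_floor_add_one (x i)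
    linarith

/-- a continuous family of periodic functions is bounded, locally uniformly in the parameter -/
theorem bdd_periodic {E : Type} [NormedAddCommGroup E] {f : ℝ × (ι → ℝ) → E}
    (hf : Continuous f) (hp : ∀ t x (k : ι → ℤ), f (t, x + ilat k) = f (t, x)) (a b : ℝ) :
    ∃ C : ℝ, ∀ t ∈ Icc a b, ∀ x, ‖f (t, x)‖ ≤ C := by
  have hc : IsCompact (Icc a b ×ˢ Icc (0 : ι → ℝ) 1) := isCompact_Icc.prod isCompact_Icc
  obtain ⟨C, hC⟩ := hc.exists_bound_of_continuousOn hf.continuousOn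
  refine ⟨C, fun t ht x => ?_⟩
  obtain ⟨k, hk⟩ := exists_frac x
  rw [← hp t x k]
  exact hC (t, x + ilat k) ⟨ht, hk⟩

/-- the family is a proper perturbation of its linear part -/
theorem fam_bound {A : Matrix ι ι ℤ} (hA : A.det ≠ 0) {Φ : ℝ × (ι → ℝ) → (ι → ℝ)}
    (hΦ : Continuous Φ) (he : ∀ t, Equi A fun x => Φ (t, x)) (a b : ℝ) :
    ∃ R : ℝ, ∀ t ∈ Icc a b, ∀ x x' : ι → ℝ, ‖x - x'‖ ≤ R * (1 + ‖Φ (t, x) - Φ (t, x')‖) := by
  set B : Matrix ι ι ℝ := A.map (Int.cast : ℤ → ℝ) with hB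
  have hBdet : IsUnit B.det := by
    have : B.det = ((A.det : ℤ) : ℝ) := by
      rw [hB]
      exact ((Int.castRingHom ℝ).map_det A).symm
    rw [this, isUnit_iff_ne_zero]
    exact_mod_cast hA
  have hcont : Continuous fun p : ℝ × (ι → ℝ) => Φ p - B.mulVec p.2 := by
    refine hΦ.sub ?_
    exact (Continuous.matrix_mulVec continuous_const continuous_snd)
  obtain ⟨C, hC⟩ := bdd_periodic (f := fun p : ℝ × (ι → ℝ) => Φ p - B.mulVec p.2) hcont (by
    intro t x k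
    have h1 := he t x k
    simp only at h1
    show Φ (t, x + ilat k) - B.mulVec (x + ilat k) = Φ (t, x) - B.mulVec x
    rw [h1, ilat_mulVec, Matrix.mulVec_add]
    abel) a b
  obtain ⟨M, hM⟩ : ∃ M : ℝ, 0 ≤ M ∧ ∀ v : ι → ℝ, ‖v‖ ≤ M * ‖B.mulVec v‖ := by
    let L : (ι → ℝ) →L[ℝ] (ι → ℝ) := LinearMap.toContinuousLinearMap (Matrix.mulVecLin B⁻¹)
    refine ⟨‖L‖, norm_nonneg _, fun v => ?_⟩
    have h1 : L (B.mulVec v) = v := by
      show B⁻¹.mulVec (B.mulVec v) = v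
      rw [Matrix.mulVec_mulVec, Matrix.nonsing_inv_mul _ hBdet, Matrix.one_mulVec]
    calc ‖v‖ = ‖L (B.mulVec v)‖ := by rw [h1]
      _ ≤ ‖L‖ * ‖B.mulVec v‖ := L.le_opNorm _
  refine ⟨M * (2 * |C| + 1), fun t ht x x' => ?_⟩
  have h1 := hC t ht x
  have h2 := hC t ht x'
  have h3 : ‖B.mulVec (x - x')‖ ≤ 2 * |C| + ‖Φ (t, x) - Φ (t, x')‖ := by
    have h4 : B.mulVec (x - x') = (Φ (t, x) - Φ (t, x')) - (Φ (t, x) - B.mulVec x) +
        (Φ (t, x') - B.mulVec x') := by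
      rw [Matrix.mulVec_sub]
      abel
    rw [h4]
    have h5 := norm_add_le ((Φ (t, x) - Φ (t, x')) - (Φ (t, x) - B.mulVec x))
      (Φ (t, x') - B.mulVec x')
    have h6 := norm_sub_le (Φ (t, x) - Φ (t, x')) (Φ (t, x) - B.mulVec x)
    have h7 := le_abs_self C
    simp only at h1 h2
    linarith
  have h8 := hM.2 (x - x')
  have h9 : 0 ≤ ‖Φ (t, x) - Φ (t, x')‖ := norm_nonneg _
  have h10 : 0 ≤ |C| := abs_nonneg C
  calc ‖x - x'‖ ≤ M * ‖B.mulVec (x - x')‖ := h8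
    _ ≤ M * (2 * |C| + ‖Φ (t, x) - Φ (t, x')‖) := mul_le_mul_of_nonneg_left h3 hM.1
    _ ≤ M * ((2 * |C| + 1) * (1 + ‖Φ (t, x) - Φ (t, x')‖)) :=
        mul_le_mul_of_nonneg_left (by nlinarith) hM.1
    _ = M * (2 * |C| + 1) * (1 + ‖Φ (t, x) - Φ (t, x')‖) := by ring

/-- the total map of a family -/
def tot (Φ : ℝ × (ι → ℝ) → (ι → ℝ)) (p : ℝ × (ι → ℝ)) : ℝ × (ι → ℝ) := (p.1, Φ p)

/-- a family of local diffeomorphisms -/
structure IsFam (Φ : ℝ × (ι → ℝ) → (ι → ℝ)) : Prop where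
  smooth : ContDiff ℝ ∞ Φ
  inj : ∀ (t : ℝ) (x v : ι → ℝ), fderiv ℝ (fun x => Φ (t, x)) x v = 0 → v = 0

variable {Φ : ℝ × (ι → ℝ) → (ι → ℝ)}

theorem IsFam.fderiv_slice (h : IsFam Φ) (t : ℝ) (x v : ι → ℝ) :
    fderiv ℝ (fun x => Φ (t, x)) x v = fderiv ℝ Φ (t, x) (0, v) := by
  have h1 : HasFDerivAt (fun x : ι → ℝ => ((t, x) : ℝ × (ι → ℝ)))
      ((0 : (ι → ℝ) →L[ℝ] ℝ).prod (ContinuousLinearMap.id ℝ _)) x :=
    (hasFDerivAt_const t x).prodMk (hasFDerivAt_id x)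
  have h2 : HasFDerivAt Φ (fderiv ℝ Φ (t, x)) (t, x) :=
    (h.smooth.differentiable (by simp) (t, x)).hasFDerivAt
  have h3 := h2.comp x h1
  have h4 : fderiv ℝ (fun x => Φ (t, x)) x = (fderiv ℝ Φ (t, x)).comp
      ((0 : (ι → ℝ) →L[ℝ] ℝ).prod (ContinuousLinearMap.id ℝ _)) := h3.fderiv
  rw [h4]
  simp

theorem IsFam.tot_smooth (h : IsFam Φ) : ContDiff ℝ ∞ (tot Φ) :=
  contDiff_fst.prodMk h.smooth

theorem IsFam.hasFDerivAt_tot (h : IsFam Φ) (p : ℝ × (ι → ℝ)) :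
    HasFDerivAt (tot Φ) ((ContinuousLinearMap.fst ℝ ℝ (ι → ℝ)).prod (fderiv ℝ Φ p)) p :=
  hasFDerivAt_fst.prodMk (h.smooth.differentiable (by simp) p).hasFDerivAt

theorem IsFam.exists_equiv (h : IsFam Φ) (p : ℝ × (ι → ℝ)) :
    ∃ e : (ℝ × (ι → ℝ)) ≃L[ℝ] (ℝ × (ι → ℝ)),
      HasFDerivAt (tot Φ) (e : (ℝ × (ι → ℝ)) →L[ℝ] (ℝ × (ι → ℝ))) p := by
  set D : (ℝ × (ι → ℝ)) →L[ℝ] (ℝ × (ι → ℝ)) :=
    (ContinuousLinearMap.fst ℝ ℝ (ι → ℝ)).prod (fderiv ℝ Φ p) with hD
  have hinj : Function.Injective (D : (ℝ × (ι → ℝ)) →ₗ[ℝ] (ℝ × (ι → ℝ))) := by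
    rw [injective_iff_map_eq_zero]
    rintro ⟨a, v⟩ hv
    have hv' : D (a, v) = 0 := hv
    have h1 : a = 0 := by
      have := congrArg Prod.fst hv'
      simpa [hD] using this
    subst h1
    have h2 : fderiv ℝ Φ p (0, v) = 0 := by
      have := congrArg Prod.snd hv'
      simpa [hD] using this
    have h3 := h.inj p.1 p.2 v (by rw [h.fderiv_slice]; exact h2)
    rw [h3]
    rfl
  refine ⟨(LinearEquiv.ofInjectiveEndo _ hinj).toContinuousLinearEquiv, ?_⟩
  have : ((LinearEquiv.ofInjectiveEndo _ hinj).toContinuousLinearEquiv :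
      (ℝ × (ι → ℝ)) →L[ℝ] (ℝ × (ι → ℝ))) = D :=
    ContinuousLinearMap.ext fun v => rfl
  rw [this]
  exact h.hasFDerivAt_tot p

theorem IsFam.exists_strict (h : IsFam Φ) (p : ℝ × (ι → ℝ)) :
    ∃ e : (ℝ × (ι → ℝ)) ≃L[ℝ] (ℝ × (ι → ℝ)),
      HasStrictFDerivAt (tot Φ) (e : (ℝ × (ι → ℝ)) →L[ℝ] (ℝ × (ι → ℝ))) p := by
  obtain ⟨e, he⟩ := h.exists_equiv p
  refine ⟨e, ?_⟩
  have h1 : fderiv ℝ (tot Φ) p = e := he.fderiv
  rw [← h1]
  exact h.tot_smooth.contDiffAt.hasStrictFDerivAt (by simp)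

theorem IsFam.isOpenMap (h : IsFam Φ) : IsOpenMap (tot Φ) := by
  rw [isOpenMap_iff_nhds_le]
  intro x
  obtain ⟨e, he⟩ := h.exists_strict x
  exact he.map_nhds_eq_of_equiv.ge

/-- the set of parameters with a double point is open -/
theorem IsFam.isOpen_double (h : IsFam Φ) :
    IsOpen {t : ℝ | ¬ Function.Injective fun x => Φ (t, x)} := by
  rw [isOpen_iff_mem_nhds]
  intro t ht
  have ht' : ∃ x x', Φ (t, x) = Φ (t, x') ∧ x ≠ x' := by
    by_contra hcon
    push Not at hcon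
    exact ht fun x x' hx => hcon x x' hx
  obtain ⟨x, x', he, hne⟩ := ht'
  have hne' : ((t, x) : ℝ × (ι → ℝ)) ≠ (t, x') := fun h => hne (congrArg Prod.snd h)
  obtain ⟨U, U', hU, hU', hxU, hxU', hd⟩ := t2_separation hne'
  have h1 : tot Φ '' U ∈ 𝓝 (t, Φ (t, x)) := (h.isOpenMap U hU).mem_nhds (mem_image_of_mem _ hxU)
  have h2 : tot Φ '' U' ∈ 𝓝 (t, Φ (t, x)) := by
    rw [he]
    exact (h.isOpenMap U' hU').mem_nhds (mem_image_of_mem _ hxU')
  have h3 : ContinuousAt (fun s : ℝ => ((s, Φ (t, x)) : ℝ × (ι → ℝ))) t := by fun_prop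
  filter_upwards [h3.preimage_mem_nhds h1, h3.preimage_mem_nhds h2] with s hs1 hs2
  obtain ⟨⟨a, u⟩, hu, hue⟩ := hs1
  obtain ⟨⟨b, u'⟩, hu', hue'⟩ := hs2
  simp only [tot, Prod.mk.injEq] at hue hue'
  obtain ⟨rfl, hue⟩ := hue
  obtain ⟨rfl, hue'⟩ := hue'
  intro hinj
  have h4 : u = u' := hinj (by simp only; rw [hue, hue'])
  subst h4
  exact Set.disjoint_left.1 hd hu hu'

/-- the set of parameters without a double point is open -/
theorem IsFam.isOpen_single (h : IsFam Φ) {A : Matrix ι ι ℤ} (hA : A.det ≠ 0)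
    (he : ∀ t, Equi A fun x => Φ (t, x)) :
    IsOpen {t : ℝ | Function.Injective fun x => Φ (t, x)} := by
  rw [isOpen_iff_mem_nhds]
  intro t ht
  obtain ⟨R, hR⟩ := fam_bound hA h.smooth.continuous he (t - 1) (t + 1)
  set K : Set ((ι → ℝ) × (ι → ℝ)) := Icc (0 : ι → ℝ) 1 ×ˢ
    Metric.closedBall (0 : ι → ℝ) (1 + |R|) with hK
  have hKc : IsCompact K := isCompact_Icc.prod (isCompact_closedBall _ _)
  have h1 : ∀ᶠ s in 𝓝 t, ∀ q ∈ K, Φ (s, q.1) = Φ (s, q.2) → q.1 = q.2 := by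
    refine hKc.eventually_forall_of_forall_eventually
      (P := fun (s : ℝ) (q : (ι → ℝ) × (ι → ℝ)) => Φ (s, q.1) = Φ (s, q.2) → q.1 = q.2) ?_
    rintro ⟨x, x'⟩ -
    by_cases hx : x = x'
    · subst hx
      obtain ⟨e, he'⟩ := h.exists_strict (t, x)
      have hinj := (he'.toOpenPartialHomeomorph (tot Φ)).injOn
      have hmem : (he'.toOpenPartialHomeomorph (tot Φ)).source ∈ 𝓝 (t, x) :=
        (he'.toOpenPartialHomeomorph (tot Φ)).open_source.mem_nhds
          he'.mem_toOpenPartialHomeomorph_source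
      have hc1 : ContinuousAt (fun z : ℝ × ((ι → ℝ) × (ι → ℝ)) => ((z.1, z.2.1) : ℝ × (ι → ℝ)))
          (t, (x, x)) := by fun_prop
      have hc2 : ContinuousAt (fun z : ℝ × ((ι → ℝ) × (ι → ℝ)) => ((z.1, z.2.2) : ℝ × (ι → ℝ)))
          (t, (x, x)) := by fun_prop
      filter_upwards [hc1.preimage_mem_nhds hmem, hc2.preimage_mem_nhds hmem] with z hz1 hz2 hz
      have := hinj hz1 hz2 (by
        show tot Φ (z.1, z.2.1) = tot Φ (z.1, z.2.2)
        simp only [tot]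
        rw [hz])
      exact congrArg Prod.snd this
    · have hne : Φ (t, x) ≠ Φ (t, x') := fun hh => hx (ht hh)
      have hc : ContinuousAt (fun z : ℝ × ((ι → ℝ) × (ι → ℝ)) =>
          (Φ (z.1, z.2.1), Φ (z.1, z.2.2))) (t, (x, x')) := by
        have hcont := h.smooth.continuous
        fun_prop
      have ho : IsOpen {q : (ι → ℝ) × (ι → ℝ) | q.1 ≠ q.2} :=
        isOpen_ne_fun continuous_fst continuous_snd
      filter_upwards [hc.preimage_mem_nhds (ho.mem_nhds hne)] with z hz hz'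
      exact absurd hz' hz
  have h2 : ∀ᶠ s in 𝓝 t, s ∈ Icc (t - 1) (t + 1) :=
    Icc_mem_nhds (by linarith) (by linarith)
  filter_upwards [h1, h2] with s hs1 hs2
  intro x x' hx
  simp only at hx
  obtain ⟨k, hk⟩ := exists_frac x
  have h3 := hR s hs2 (x' + ilat k) (x + ilat k)
  have e1 : Φ (s, x + ilat k) = Φ (s, x) + ilat (A.mulVec k) := he s x k
  have e2 : Φ (s, x' + ilat k) = Φ (s, x') + ilat (A.mulVec k) := he s x' k
  have e3 : Φ (s, x + ilat k) = Φ (s, x' + ilat k) := by rw [e1, e2, hx]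
  rw [e3, sub_self, norm_zero, add_zero, mul_one] at h3
  have h4 : ‖x' + ilat k‖ ≤ 1 + |R| := by
    have h5 : ‖x + ilat k‖ ≤ 1 := by
      rw [pi_norm_le_iff_of_nonneg zero_le_one]
      intro i
      rw [Real.norm_eq_abs, abs_le]
      have := hk.1 i
      have := hk.2 i
      simp only [Pi.zero_apply, Pi.one_apply] at *
      constructor <;> linarith
    have h6 := norm_add_le (x' + ilat k - (x + ilat k)) (x + ilat k)
    rw [sub_add_cancel] at h6
    have := le_abs_self R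
    linarith
  have h7 := hs1 (x + ilat k, x' + ilat k) ⟨hk, by simpa using h4⟩ e3
  simpa using h7

/-- if one member is injective then all are -/
theorem IsFam.injective (h : IsFam Φ) {A : Matrix ι ι ℤ}
    (he : ∀ t, Equi A fun x => Φ (t, x)) {t₀ : ℝ} (h0 : Function.Injective fun x => Φ (t₀, x))
    (t : ℝ) : Function.Injective fun x => Φ (t, x) := by
  have hA := (he t₀).det_ne_zero h0
  have hcl : IsClopen {t : ℝ | Function.Injective fun x => Φ (t, x)} := by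
    refine ⟨?_, h.isOpen_single hA he⟩
    rw [← isOpen_compl_iff]
    exact h.isOpen_double
  rcases isClopen_iff.1 hcl with h1 | h1
  · have : t₀ ∈ {t : ℝ | Function.Injective fun x => Φ (t, x)} := h0
    rw [h1] at this
    exact this.elim
  · have : t ∈ (univ : Set ℝ) := mem_univ t
    rw [← h1] at this
    exact this

theorem IsFam.tot_injective (h : IsFam Φ) {A : Matrix ι ι ℤ}
    (he : ∀ t, Equi A fun x => Φ (t, x)) {t₀ : ℝ} (h0 : Function.Injective fun x => Φ (t₀, x)) :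
    Function.Injective (tot Φ) := by
  rintro ⟨t, x⟩ ⟨t', x'⟩ hx
  simp only [tot, Prod.mk.injEq] at hx
  obtain ⟨rfl, hx⟩ := hx
  rw [h.injective he h0 t hx]

/-- each member is surjective -/
theorem IsFam.tot_surjective (h : IsFam Φ) {A : Matrix ι ι ℤ} (hA : A.det ≠ 0)
    (he : ∀ t, Equi A fun x => Φ (t, x)) : Function.Surjective (tot Φ) := by
  have hclosed : IsClosed (range (tot Φ)) := by
    rw [← isSeqClosed_iff_isClosed]
    intro u p hu hp
    choose w hw using hu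
    -- the sequence `w` is bounded
    have hp1 : Tendsto (fun j => (u j).1) atTop (𝓝 p.1) := (continuous_fst.tendsto p).comp hp
    have hp2 : Tendsto (fun j => (u j).2) atTop (𝓝 p.2) := (continuous_snd.tendsto p).comp hp
    obtain ⟨R, hR⟩ := fam_bound hA h.smooth.continuous he (p.1 - 1) (p.1 + 1)
    have hw1 : ∀ j, (w j).1 = (u j).1 := fun j => by rw [← hw j]; rfl
    have hw2 : ∀ j, Φ (w j) = (u j).2 := fun j => by rw [← hw j]; rfl
    obtain ⟨C, hC⟩ : ∃ C, ∀ s ∈ Icc (p.1 - 1) (p.1 + 1), ‖Φ (s, 0)‖ ≤ C := by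
      have hcp : IsCompact (Icc (p.1 - 1) (p.1 + 1)) := isCompact_Icc
      have hcc : Continuous fun s : ℝ => Φ (s, 0) := by
        have := h.smooth.continuous
        fun_prop
      exact hcp.exists_bound_of_continuousOn hcc.continuousOn
    have hev1 : ∀ᶠ j in atTop, (u j).1 ∈ Icc (p.1 - 1) (p.1 + 1) :=
      hp1.eventually (Icc_mem_nhds (by linarith) (by linarith))
    have hev2 : ∀ᶠ j in atTop, ‖(u j).2‖ ≤ ‖p.2‖ + 1 := by
      have := (continuous_norm.tendsto p.2).comp hp2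
      filter_upwards [this.eventually (Iio_mem_nhds (show ‖p.2‖ < ‖p.2‖ + 1 by linarith))] with j hj
      exact hj.le
    have hbd : ∀ᶠ j in atTop, w j ∈ Icc (p.1 - 1) (p.1 + 1) ×ˢ
        Metric.closedBall (0 : ι → ℝ) (|R| * (1 + (‖p.2‖ + 1 + C))) := by
      filter_upwards [hev1, hev2] with j hj1 hj2
      refine ⟨by rw [hw1]; exact hj1, ?_⟩
      rw [mem_closedBall_zero_iff]
      have h3 := hR (w j).1 (by rw [hw1]; exact hj1) (w j).2 0
      rw [sub_zero] at h3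
      have h4 : Φ ((w j).1, (w j).2) = (u j).2 := hw2 j
      rw [h4] at h3
      have h5 := norm_sub_le (u j).2 (Φ ((w j).1, 0))
      have h6 := hC (w j).1 (by rw [hw1]; exact hj1)
      have h7 : 0 ≤ 1 + ‖(u j).2 - Φ ((w j).1, 0)‖ := by positivity
      calc ‖(w j).2‖ ≤ R * (1 + ‖(u j).2 - Φ ((w j).1, 0)‖) := h3
        _ ≤ |R| * (1 + ‖(u j).2 - Φ ((w j).1, 0)‖) :=
          mul_le_mul_of_nonneg_right (le_abs_self R) h7
        _ ≤ |R| * (1 + (‖p.2‖ + 1 + C)) := by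
          refine mul_le_mul_of_nonneg_left ?_ (abs_nonneg R)
          linarith
    have hcp : IsCompact (Icc (p.1 - 1) (p.1 + 1) ×ˢ
        Metric.closedBall (0 : ι → ℝ) (|R| * (1 + (‖p.2‖ + 1 + C)))) :=
      isCompact_Icc.prod (isCompact_closedBall _ _)
    obtain ⟨q, -, φ, hφ, hq⟩ := hcp.tendsto_subseq' hbd.frequently
    have h8 : Tendsto (fun j => tot Φ (w (φ j))) atTop (𝓝 (tot Φ q)) :=
      (h.tot_smooth.continuous.tendsto q).comp hq
    have h9 : Tendsto (fun j => tot Φ (w (φ j))) atTop (𝓝 p) := by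
      have : (fun j => tot Φ (w (φ j))) = fun j => u (φ j) := by
        funext j
        exact hw (φ j)
      rw [this]
      exact hp.comp hφ.tendsto_atTop
    exact ⟨q, tendsto_nhds_unique h8 h9⟩
  rcases isClopen_iff.1 ⟨hclosed, h.isOpenMap.isOpen_range⟩ with h1 | h1
  · exact absurd (mem_range_self (f := tot Φ) (0, 0)) (by rw [h1]; exact fun h => h)
  · exact range_eq_univ.1 h1

/-- **Inverse families.** A family of local diffeomorphisms one of which is injective has a smooth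
family of inverses. -/
theorem IsFam.exists_inverse (h : IsFam Φ) {A : Matrix ι ι ℤ}
    (he : ∀ t, Equi A fun x => Φ (t, x)) {t₀ : ℝ} (h0 : Function.Injective fun x => Φ (t₀, x)) :
    ∃ Ψ : ℝ × (ι → ℝ) → (ι → ℝ), ContDiff ℝ ∞ Ψ ∧ (∀ t x, Ψ (t, Φ (t, x)) = x) ∧
      ∀ t x, Φ (t, Ψ (t, x)) = x := by
  have hA := (he t₀).det_ne_zero h0
  have hb : Function.Bijective (tot Φ) := ⟨h.tot_injective he h0, h.tot_surjective hA he⟩
  choose L hL using h.exists_equiv
  set e : (ℝ × (ι → ℝ)) ≃ₜ (ℝ × (ι → ℝ)) :=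
    (Equiv.ofBijective (tot Φ) hb).toHomeomorphOfContinuousOpen h.tot_smooth.continuous
      h.isOpenMap with he'
  have hef : ∀ x, e x = tot Φ x := fun x => rfl
  have hsm : ContDiff ℝ ∞ e.symm := e.contDiff_symm (f₀' := L) (fun x => hL x) h.tot_smooth
  have hfst : ∀ p, (e.symm p).1 = p.1 := fun p => by
    have h1 : tot Φ (e.symm p) = p := by rw [← hef]; exact e.apply_symm_apply p
    calc (e.symm p).1 = (tot Φ (e.symm p)).1 := rfl
      _ = p.1 := by rw [h1]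
  refine ⟨fun p => (e.symm p).2, contDiff_snd.comp hsm, fun t x => ?_, fun t x => ?_⟩
  · have h1 : e.symm (t, Φ (t, x)) = (t, x) := by
      rw [e.symm_apply_eq]
      rfl
    show (e.symm (t, Φ (t, x))).2 = x
    rw [h1]
  · have h1 : tot Φ (e.symm (t, x)) = (t, x) := by rw [← hef]; exact e.apply_symm_apply _
    have h2 : e.symm (t, x) = (t, (e.symm (t, x)).2) := Prod.ext (hfst (t, x)) rfl
    rw [h2] at h1
    exact congrArg Prod.snd h1

end Pool.Agent.Helper597_torsymp
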