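import Pool.Agent.Helper597_torsymp.Fam

/-!
# Symplectic isotopies of the torus: equivalence relation, and the interpolation by generating
functions
-/

set_option autoImplicit false
set_option linter.unusedSectionVars false

open Set Filter Topology
open scoped ContDiff

noncomputable section

namespace Pool.Agent.Helper597_torsymp

variable {n : ℕ} {A : Matrix (Fin n ⊕ Fin n) (Fin n ⊕ Fin n) ℤ}

/-! ### The symplectic form -/

theorem om_add_left (u v w : V n) : om (u + v) w = om u w + om v w := by
  simp only [om, Pi.add_apply]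
  rw [← Finset.sum_add_distrib]
  exact Finset.sum_congr rfl fun i _ => by ring

theorem om_add_right (u v w : V n) : om u (v + w) = om u v + om u w := by
  simp only [om, Pi.add_apply]
  rw [← Finset.sum_add_distrib]
  exact Finset.sum_congr rfl fun i _ => by ring

theorem om_smul_left (c : ℝ) (u v : V n) : om (c • u) v = c * om u v := by
  simp only [om, Pi.smul_apply, smul_eq_mul]
  rw [Finset.mul_sum]
  exact Finset.sum_congr rfl fun i _ => by ring

theorem om_smul_right (c : ℝ) (u v : V n) : om u (c • v) = c * om u v := by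
  simp only [om, Pi.smul_apply, smul_eq_mul]
  rw [Finset.mul_sum]
  exact Finset.sum_congr rfl fun i _ => by ring

theorem om_neg_left (u v : V n) : om (-u) v = -om u v := by
  have := om_smul_left (-1) u v
  simpa using this

theorem om_neg_right (u v : V n) : om u (-v) = -om u v := by
  have := om_smul_right (-1) u v
  simpa using this

theorem om_sub_left (u v w : V n) : om (u - v) w = om u w - om v w := by
  rw [sub_eq_add_neg, om_add_left, om_neg_left]; ring

theorem om_sub_right (u v w : V n) : om u (v - w) = om u v - om u w := by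
  rw [sub_eq_add_neg, om_add_right, om_neg_right]; ring

theorem om_zero_left (v : V n) : om 0 v = 0 := by simp [om]

theorem om_nondeg (v : V n) (h : ∀ w, om v w = 0) : v = 0 := by
  funext i
  rcases i with i | i
  · have := h (Pi.single (Sum.inr i) 1)
    simpa [om, Pi.single_apply] using this
  · have := h (Pi.single (Sum.inl i) 1)
    simpa [om, Pi.single_apply] using this

/-! ### Families of symplectomorphisms -/

theorem lat_eq_ilat (k : Fin n ⊕ Fin n → ℤ) : (lat k : V n) = ilat k := rfl

theorem IsTorusSymp.injective {F : V n → V n} (h : IsTorusSymp A F) : Function.Injective F := by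
  obtain ⟨H, -, hl, -⟩ := h.inverse
  exact hl.injective

theorem IsTorusSymp.diff {F : V n → V n} (h : IsTorusSymp A F) : Differentiable ℝ F :=
  h.smooth.differentiable (by simp)

theorem IsTorusSymp.fderiv_inj {F : V n → V n} (h : IsTorusSymp A F) (x v : V n)
    (hv : fderiv ℝ F x v = 0) : v = 0 :=
  om_nondeg v fun w => by rw [← h.symplectic x v w, hv, om_zero_left]

theorem IsTorusSymp.fderiv_bij {F : V n → V n} (h : IsTorusSymp A F) (x : V n) :
    Function.Bijective (fderiv ℝ F x) := by
  have hi : Function.Injective ((fderiv ℝ F x : V n →L[ℝ] V n) : V n →ₗ[ℝ] V n) := by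
    rw [injective_iff_map_eq_zero]
    exact fun v hv => h.fderiv_inj x v hv
  exact ⟨hi, LinearMap.surjective_of_injective hi⟩

/-- A smooth family of equivariant maps with symplectic derivatives, one of which is injective,
consists of symplectomorphisms. -/
theorem isTorusSymp_of_family {G : ℝ → V n → V n}
    (hG : ContDiff ℝ ∞ fun p : ℝ × V n => G p.1 p.2)
    (he : ∀ t x k, G t (x + lat k) = G t x + lat (A.mulVec k))
    (hs : ∀ t x u v, om (fderiv ℝ (G t) x u) (fderiv ℝ (G t) x v) = om u v)
    {t₀ : ℝ} (h0 : Function.Injective (G t₀)) (t : ℝ) : IsTorusSymp A (G t) := by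
  have hfam : IsFam (fun p : ℝ × V n => G p.1 p.2) := by
    refine ⟨hG, fun t x v hv => ?_⟩
    refine om_nondeg v fun w => ?_
    rw [← hs t x v w]
    have : fderiv ℝ (G t) x v = 0 := hv
    rw [this, om_zero_left]
  obtain ⟨Ψ, hΨ, h1, h2⟩ := hfam.exists_inverse (A := A) (fun t x k => he t x k) (t₀ := t₀) h0
  have hslice : ∀ t : ℝ, ContDiff ℝ ∞ fun x : V n => ((t, x) : ℝ × V n) := fun t =>
    contDiff_const.prodMk contDiff_id
  exact ⟨hG.comp (hslice t), ⟨fun x => Ψ (t, x), hΨ.comp (hslice t), fun x => h1 t x,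
    fun x => h2 t x⟩, he t, hs t⟩

/-! ### Isotopy is an equivalence relation -/

theorem SymplecticallyIsotopic.refl {F : V n → V n} (h : IsTorusSymp A F) :
    SymplecticallyIsotopic A F F :=
  ⟨fun _ => F, h.smooth.comp contDiff_snd, rfl, rfl, fun _ _ => h⟩

theorem SymplecticallyIsotopic.symm {F₀ F₁ : V n → V n} (h : SymplecticallyIsotopic A F₀ F₁) :
    SymplecticallyIsotopic A F₁ F₀ := by
  obtain ⟨G, hG, h0, h1, hs⟩ := h
  refine ⟨fun t => G (1 - t), ?_, by simpa using h1, by simpa using h0, fun t ht => hs _ ⟨by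
    linarith [ht.2], by linarith [ht.1]⟩⟩
  have : ContDiff ℝ ∞ fun p : ℝ × V n => ((1 - p.1, p.2) : ℝ × V n) :=
    (contDiff_const.sub contDiff_fst).prodMk contDiff_snd
  exact hG.comp this

theorem SymplecticallyIsotopic.left {F₀ F₁ : V n → V n} (h : SymplecticallyIsotopic A F₀ F₁) :
    IsTorusSymp A F₀ := by
  obtain ⟨G, hG, h0, h1, hs⟩ := h
  rw [← h0]
  exact hs 0 ⟨le_refl _, zero_le_one⟩

theorem SymplecticallyIsotopic.right {F₀ F₁ : V n → V n} (h : SymplecticallyIsotopic A F₀ F₁) :
    IsTorusSymp A F₁ := h.symm.left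

/-- an isotopy, reparametrised to be constant near the ends and defined for all times -/
theorem SymplecticallyIsotopic.exists_flat {F₀ F₁ : V n → V n}
    (h : SymplecticallyIsotopic A F₀ F₁) :
    ∃ G : ℝ → V n → V n, ContDiff ℝ ∞ (fun p : ℝ × V n => G p.1 p.2) ∧
      (∀ t ≤ 0, G t = F₀) ∧ (∀ t, 1 ≤ t → G t = F₁) ∧ ∀ t, IsTorusSymp A (G t) := by
  obtain ⟨G, hG, h0, h1, hs⟩ := h
  refine ⟨fun t => G (Real.smoothTransition t), ?_, fun t ht => ?_, fun t ht => ?_, fun t => ?_⟩
  · have : ContDiff ℝ ∞ fun p : ℝ × V n => ((Real.smoothTransition p.1, p.2) : ℝ × V n) :=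
      (Real.smoothTransition.contDiff.comp contDiff_fst).prodMk contDiff_snd
    exact hG.comp this
  · show G (Real.smoothTransition t) = F₀
    rw [Real.smoothTransition.zero_of_nonpos ht, h0]
  · show G (Real.smoothTransition t) = F₁
    rw [Real.smoothTransition.one_of_one_le ht, h1]
  · exact hs _ ⟨Real.smoothTransition.nonneg t, Real.smoothTransition.le_one t⟩

theorem SymplecticallyIsotopic.trans {F₀ F₁ F₂ : V n → V n}
    (h : SymplecticallyIsotopic A F₀ F₁) (h' : SymplecticallyIsotopic A F₁ F₂) :
    SymplecticallyIsotopic A F₀ F₂ := by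
  obtain ⟨G, hG, hG0, hG1, hGs⟩ := h.exists_flat
  obtain ⟨G', hG', hG'0, hG'1, hG's⟩ := h'.exists_flat
  refine ⟨fun t => if t < 1 / 2 then G (3 * t) else G' (3 * t - 2), ?_, ?_, ?_, ?_⟩
  · rw [contDiff_iff_contDiffAt]
    rintro ⟨t, x⟩
    have hc1 : ContDiff ℝ ∞ fun p : ℝ × V n => G (3 * p.1) p.2 := by
      have : ContDiff ℝ ∞ fun p : ℝ × V n => ((3 * p.1, p.2) : ℝ × V n) :=
        (contDiff_const.mul contDiff_fst).prodMk contDiff_snd
      exact hG.comp this
    have hc2 : ContDiff ℝ ∞ fun p : ℝ × V n => G' (3 * p.1 - 2) p.2 := by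
      have : ContDiff ℝ ∞ fun p : ℝ × V n => ((3 * p.1 - 2, p.2) : ℝ × V n) :=
        ((contDiff_const.mul contDiff_fst).sub contDiff_const).prodMk contDiff_snd
      exact hG'.comp this
    rcases lt_or_ge t (2 / 3) with ht | ht
    · refine hc1.contDiffAt.congr_of_eventuallyEq ?_
      have hev : ∀ᶠ p : ℝ × V n in 𝓝 (t, x), p.1 < 2 / 3 :=
        continuous_fst.continuousAt.eventually (Iio_mem_nhds ht)
      filter_upwards [hev] with p hp
      by_cases hp2 : p.1 < 1 / 2
      · simp only [hp2, if_true]
      · simp only [hp2, if_false]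
        rw [hG1 (3 * p.1) (by linarith), hG'0 (3 * p.1 - 2) (by linarith)]
    · refine hc2.contDiffAt.congr_of_eventuallyEq ?_
      have hev : ∀ᶠ p : ℝ × V n in 𝓝 (t, x), 1 / 2 < p.1 :=
        continuous_fst.continuousAt.eventually (Ioi_mem_nhds (by simp only; linarith))
      filter_upwards [hev] with p hp
      have hp2 : ¬ p.1 < 1 / 2 := not_lt.2 hp.le
      simp only [hp2, if_false]
  · simp only [show (0 : ℝ) < 1 / 2 by norm_num, if_true]
    exact hG0 _ (by norm_num)
  · simp only [show ¬ (1 : ℝ) < 1 / 2 by norm_num, if_false]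
    exact hG'1 _ (by norm_num)
  · intro t _
    by_cases ht : t < 1 / 2
    · simp only [ht, if_true]
      exact hGs _
    · simp only [ht, if_false]
      exact hG's _

end Pool.Agent.Helper597_torsymp
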