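import Pool.Agent.Helper597_torsymp.Orth

/-!
# The decomposition of a symplectomorphism which preserves a linear foliation
-/

set_option autoImplicit false
set_option linter.unusedSectionVars false

open Set Filter Topology MeasureTheory
open scoped ContDiff

noncomputable section

namespace Pool.Agent.Helper597_torsymp

open Pool.Agent.Helper597_fou Pool.Agent.Helper597_fou.PS

variable {n : ℕ}

theorem om_zero_right (v : V n) : om v 0 = 0 := by rw [om_swap, om_zero_left, neg_zero]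

/-- if the directional derivative of `x ↦ ω(k, H x - x)` vanishes then the function is constant -/
theorem const_of_om {H : V n → V n} (hH : Differentiable ℝ H) {k : V n}
    (h : ∀ x u, om k (fderiv ℝ H x u - u) = 0) (x : V n) : om k (H x - x - H 0) = 0 := by
  have h1 : ∀ y : V n, HasFDerivAt (fun y => om k (H y - y))
      ((LinearMap.toContinuousLinearMap (omB k)).comp (fderiv ℝ H y -
        ContinuousLinearMap.id ℝ _)) y := fun y =>
    (LinearMap.toContinuousLinearMap (omB k)).hasFDerivAt.comp y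
      ((hH y).hasFDerivAt.sub (hasFDerivAt_id y))
  have h2 := const_dir (f := fun y => om k (H y - y)) (fun y => (h1 y).differentiableAt) (v := x)
    (fun y => by
      rw [(h1 y).fderiv]
      exact h y x) 0
  simp only [zero_add, sub_zero] at h2
  rw [om_sub_right, h2, sub_self]

/-- **The pieces of the decomposition.** -/
theorem exists_piece {H : V n → V n} (hH : IsTorusSymp 1 H) {P : Submodule ℝ (V n)}
    (hP : ∀ x, ∀ p ∈ P, fderiv ℝ H x p ∈ P) :
    ∃ g : PV n, (∀ x u v, om (fderiv ℝ (fam g 0) x u) (fderiv ℝ (fam g 0) x v) = om u v) ∧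
      (∀ x u, fderiv ℝ (fam g 0) x u - u ∈ P) ∧
      (∀ x, ∀ q ∈ orth P, fderiv ℝ (fam g 0) x q = q) ∧
      ∀ x, ∀ p ∈ P, fderiv ℝ (fam g 0) x p = fderiv ℝ H x p := by
  have hQ : ∀ x, ∀ q ∈ orth P, fderiv ℝ H x q ∈ orth P := fun x q hq => orth_invariant hH hP x q hq
  obtain ⟨a, a1, a2, a3⟩ := exists_a P
  set Q := orth P with hQdef
  have hQo : orth Q = P := orth_orth P
  have hPQ : ∀ p ∈ P, ∀ q ∈ Q, om p q = 0 := fun p hp q hq => (mem_orth P q).1 hq p hp
  have hQP : ∀ q ∈ Q, ∀ p ∈ P, om q p = 0 := fun q hq p hp => by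
    rw [om_swap, hPQ p hp q hq, neg_zero]
  -- the displacement has values in `P ⊔ Q` up to a constant
  have hK : ∀ k ∈ P ⊓ Q, ∀ x, fderiv ℝ H x k = k := fun k hk x =>
    fix_of_isotropic hH (L := P ⊓ Q) (fun y k hk => ⟨hP y k hk.1, hQ y k hk.2⟩)
      (fun k hk k' hk' => hPQ k hk.1 k' hk'.2) x k hk
  have hD : ∀ x u, fderiv ℝ H x u - u ∈ P ⊔ Q := by
    intro x u
    rw [hQdef, ← orth_rad, mem_orth]
    intro k hk
    have h1 := hH.symplectic x k u
    rw [hK k hk] at h1
    rw [om_sub_right, h1, sub_self]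
  have hval : ∀ x, H x - x - H 0 ∈ P ⊔ Q := by
    intro x
    rw [hQdef, ← orth_rad, mem_orth]
    intro k hk
    refine const_of_om hH.diff (fun y u => ?_) x
    have h1 := hH.symplectic y k u
    rw [hK k hk] at h1
    rw [om_sub_right, h1, sub_self]
  -- the displacements
  set h : PV n := perp 1 H hH.smooth hH.equivariant - cV (H 0) with hh
  set w : PV n := mV a h with hw
  set h2 : PV n := h - w with hh2
  have ev1 : ∀ t x, vv t h x = H x - x - H 0 := fun t x => by
    rw [hh, vv_sub, vv_perp hH, vv_cV]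
  have ev2 : ∀ t x u, vv t (dV u h) x = fderiv ℝ H x u - u := fun t x u => by
    rw [hh, dV_sub, dV_cV, vv_sub, vv_dV_perp hH, vv_zero, sub_zero]
  have ev3 : ∀ t x, vv t w x = a (H x - x - H 0) := fun t x => by rw [hw, vv_mV, ev1]
  have ev4 : ∀ t x u, vv t (dV u w) x = a (fderiv ℝ H x u - u) := fun t x u => by
    rw [hw, dV_mV, vv_mV, ev2]
  have ev5 : ∀ t x, vv t h2 x ∈ Q := fun t x => by
    rw [hh2, vv_sub, ev1, ev3]
    exact a3 _ (hval x)
  have ev6 : ∀ t x u, vv t (dV u h2) x = (fderiv ℝ H x u - u) - a (fderiv ℝ H x u - u) :=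
    fun t x u => by rw [hh2, dV_sub, vv_sub, ev2, ev4]
  have ev7 : ∀ t x u, vv t (dV u h2) x ∈ Q := fun t x u => by
    rw [ev6]
    exact a3 _ (hD x u)
  have ev8 : ∀ t x u, vv t (dV u w) x ∈ P := fun t x u => by
    rw [ev4]
    exact a1 _
  have ev9 : ∀ q ∈ Q, dV q w = 0 := fun q hq => ext_vv fun t x => by
    rw [ev4, vv_zero]
    exact a2 _ (Q.sub_mem (hQ x q hq) hq)
  have ev10 : ∀ t x, ∀ p ∈ P, vv t (dV p h2) x ∈ P := fun t x p hp => by
    rw [ev6]
    exact P.sub_mem (P.sub_mem (hP x p hp) hp) (a1 _)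
  have ev11 : ∀ t x u, u + vv t (dV u w) x + vv t (dV u h2) x = fderiv ℝ H x u := fun t x u => by
    rw [ev6, ev4]
    abel
  -- the two contributions to the pullback of the symplectic form
  have sum0 : ∀ t x u v,
      om (vv t (dV u h2) x) v + om u (vv t (dV v h2) x) +
        om (vv t (dV u h2) x) (vv t (dV v h2) x) =
      -(om (vv t (dV u w) x) v + om u (vv t (dV v w) x) +
        om (vv t (dV u w) x) (vv t (dV v w) x)) := by
    intro t x u v
    have h1 := hH.symplectic x u v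
    rw [← ev11 t x u, ← ev11 t x v] at h1
    have c1 := hPQ _ (ev8 t x u) _ (ev7 t x v)
    have c2 := hQP _ (ev7 t x u) _ (ev8 t x v)
    simp only [om_add_left, om_add_right] at h1
    linarith
  -- the primitive
  set θ : V n → PS (n + n) := fun v => oP h2 (cV v) + (1 / 2 : ℝ) • oP h2 (dV v h2) with hθ
  have evθ : ∀ t x v, ev t (θ v) x = om (vv t h2 x) v + 1 / 2 * om (vv t h2 x) (vv t (dV v h2) x) :=
    fun t x v => by
      rw [hθ]
      simp only
      rw [ev_add, ev_smul, ev_oP, ev_oP, vv_cV]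
  have evdθ : ∀ t x u v, ev t (dirs u (θ v) - dirs v (θ u)) x =
      om (vv t (dV u h2) x) v + om u (vv t (dV v h2) x) +
        om (vv t (dV u h2) x) (vv t (dV v h2) x) := by
    intro t x u v
    have h1 : dirs u (θ v) - dirs v (θ u) = oP (dV u h2) (cV v) - oP (dV v h2) (cV u) +
        (1 / 2 : ℝ) • (oP (dV u h2) (dV v h2) - oP (dV v h2) (dV u h2)) := by
      rw [hθ]
      simp only
      rw [dirs_add, dirs_add, dirs_smul, dirs_smul, dirs_oP, dirs_oP, dirs_oP, dirs_oP, dV_cV,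
        dV_cV, oP_zero_right, dV_comm v u, smul_sub, smul_add, smul_add]
      abel
    rw [h1, ev_add, ev_smul, ev_sub, ev_sub, ev_oP, ev_oP, ev_oP, ev_oP, vv_cV, vv_cV,
      om_swap (vv t (dV v h2) x) u, om_swap (vv t (dV v h2) x) (vv t (dV u h2) x)]
    ring
  have dθw : ∀ u v, dirs u (θ v) - dirs v (θ u) =
      -(oP (dV u w) (cV v) + oP (cV u) (dV v w) + oP (dV u w) (dV v w)) := by
    intro u v
    refine ext_ev fun t x => ?_
    rw [evdθ, sum0, ev_neg, ev_add, ev_add, ev_oP, ev_oP, ev_oP, vv_cV, vv_cV]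
  have θP : ∀ p ∈ P, θ p = 0 := by
    intro p hp
    refine ext_ev fun t x => ?_
    rw [evθ, hQP _ (ev5 t x) p hp, hQP _ (ev5 t x) _ (ev10 t x p hp), ev_zero]
    ring
  have dθinv : ∀ u v, ∀ q ∈ Q, dirs q (dirs u (θ v) - dirs v (θ u)) = 0 := by
    intro u v q hq
    have e1 : ∀ u, dV q (dV u w) = 0 := fun u => by rw [dV_comm, ev9 q hq, dV_zero]
    rw [dθw, dirs_neg, dirs_add, dirs_add, dirs_oP, dirs_oP, dirs_oP, e1, e1, dV_cV, dV_cV,
      oP_zero_left, oP_zero_left, oP_zero_right, oP_zero_right]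
    simp
  -- the average of the primitive
  set Θ : V n → PS (n + n) := fun v => cut Q (θ v) with hΘ
  have dΘ : ∀ u v, dirs u (Θ v) - dirs v (Θ u) = dirs u (θ v) - dirs v (θ u) := by
    intro u v
    rw [hΘ]
    simp only
    rw [dirs_cut, dirs_cut, ← cut_sub, cut_of_inv Q (dθinv u v)]
  have ΘP : ∀ p ∈ P, Θ p = 0 := fun p hp => by
    rw [hΘ]
    simp only
    rw [θP p hp, cut_zero]
  have Θinv : ∀ q ∈ Q, ∀ v, dirs q (Θ v) = 0 := fun q hq v => dirs_cut_self Q hq _
  have ΘQ : ∀ q ∈ Q, ∀ u, dirs u (Θ q) = 0 := by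
    intro q hq u
    have e1 := dΘ u q
    rw [Θinv q hq u, sub_zero] at e1
    rw [e1]
    refine ext_ev fun t x => ?_
    rw [evdθ, sum0, ev9 q hq, vv_zero, om_zero_right, om_zero_right, hPQ _ (ev8 t x u) q hq,
      ev_zero]
    ring
  -- linearity
  have θadd : ∀ u v, θ (u + v) = θ u + θ v := by
    intro u v
    refine ext_ev fun t x => ?_
    rw [evθ, ev_add, evθ, evθ, ev6, ev6, ev6, map_add, om_add_right]
    have e1 : fderiv ℝ H x u + fderiv ℝ H x v - (u + v) - a (fderiv ℝ H x u + fderiv ℝ H x v -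
        (u + v)) = (fderiv ℝ H x u - u - a (fderiv ℝ H x u - u)) +
        (fderiv ℝ H x v - v - a (fderiv ℝ H x v - v)) := by
      simp only [map_sub, map_add]
      abel
    rw [e1, om_add_right]
    ring
  have θsmul : ∀ (c : ℝ) v, θ (c • v) = c • θ v := by
    intro c v
    refine ext_ev fun t x => ?_
    rw [evθ, ev_smul, evθ, ev6, ev6, map_smul, om_smul_right, ← smul_sub, map_smul, ← smul_sub,
      om_smul_right]
    ring
  have Θadd : ∀ u v, Θ (u + v) = Θ u + Θ v := fun u v => by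
    rw [hΘ]
    simp only
    rw [θadd, cut_add]
  have Θsmul : ∀ (c : ℝ) v, Θ (c • v) = c • Θ v := fun c v => by
    rw [hΘ]
    simp only
    rw [θsmul, cut_smul]
  have Θ0 : Θ 0 = 0 := ΘP 0 P.zero_mem
  have Θsum : ∀ (s : Finset (Fin n ⊕ Fin n)) (v : V n),
      Θ (∑ α ∈ s, v α • bv α) = ∑ α ∈ s, v α • Θ (bv α) := by
    intro s v
    induction s using Finset.induction_on with
    | empty => simpa using Θ0
    | insert b s hb ih => rw [Finset.sum_insert hb, Finset.sum_insert hb, Θadd, Θsmul, ih]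
  -- the correction
  set κ : PV n := Sum.elim (fun i => Θ (bv (Sum.inr i))) (fun i => -Θ (bv (Sum.inl i))) with hκ
  have oκ : ∀ v, oP κ (cV v) = Θ v := by
    intro v
    refine ext_ev fun t x => ?_
    conv_rhs => rw [vec_eq_sum v, Θsum, ev_sum]
    rw [ev_oP, vv_cV, Fintype.sum_sum_type, ← Finset.sum_add_distrib]
    unfold om
    refine Finset.sum_congr rfl fun i _ => ?_
    have e1 : vv t κ x (Sum.inl i) = ev t (Θ (bv (Sum.inr i))) x := rfl
    have e2 : vv t κ x (Sum.inr i) = -ev t (Θ (bv (Sum.inl i))) x := rfl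
    rw [e1, e2, ev_smul, ev_smul]
    ring
  have dκ : ∀ t x u v, om (vv t (dV u κ) x) v = ev t (dirs u (Θ v)) x := by
    intro t x u v
    rw [← oκ v, dirs_oP, dV_cV, oP_zero_right, add_zero, ev_oP, vv_cV]
  have κQ : ∀ t x u, vv t (dV u κ) x ∈ Q := by
    intro t x u
    rw [hQdef, mem_orth_iff_left]
    intro p hp
    rw [dκ, ΘP p hp, dirs_zero, ev_zero]
  have κP : ∀ t x u, vv t (dV u κ) x ∈ P := by
    intro t x u
    rw [← hQo, mem_orth_iff_left]
    intro q hq
    rw [dκ, ΘQ q hq, ev_zero]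
  have hfd : ∀ x u, fderiv ℝ (fam (w + κ) 0) x u = u + vv 0 (dV u w) x + vv 0 (dV u κ) x := by
    intro x u
    rw [fderiv_fam, dV_add, vv_add, add_assoc]
  refine ⟨w + κ, fun x u v => ?_, fun x u => ?_, fun x q hq => ?_, fun x p hp => ?_⟩
  · rw [hfd, hfd]
    have c1 := hPQ _ (ev8 0 x u) _ (κQ 0 x v)
    have c2 := hQP _ (κQ 0 x u) _ (ev8 0 x v)
    have c3 := hPQ _ (κP 0 x u) _ (κQ 0 x v)
    have c4 := dκ 0 x u v
    have c5 := dκ 0 x v u
    have c6 := congrArg (fun f => ev 0 f x) (dΘ u v)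
    rw [evdθ, sum0, ev_sub] at c6
    rw [om_swap] at c5
    simp only [om_add_left, om_add_right]
    linarith
  · rw [hfd]
    have : u + vv 0 (dV u w) x + vv 0 (dV u κ) x - u = vv 0 (dV u w) x + vv 0 (dV u κ) x := by abel
    rw [this]
    exact P.add_mem (ev8 0 x u) (κP 0 x u)
  · rw [hfd, ev9 q hq, vv_zero]
    have : vv 0 (dV q κ) x = 0 := by
      refine om_nondeg _ fun v => ?_
      rw [dκ, Θinv q hq, ev_zero]
    rw [this, add_zero, add_zero]
  · rw [hfd, ← ev11 0 x p]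
    congr 1
    rw [← sub_eq_zero]
    refine om_nondeg _ fun v => ?_
    rw [om_sub_left, dκ]
    have c6 := congrArg (fun f => ev 0 f x) (dΘ p v)
    rw [evdθ, ev_sub, ΘP p hp, dirs_zero, ev_zero, sub_zero, hPQ p hp _ (ev7 0 x v),
      hPQ _ (ev10 0 x p hp) _ (ev7 0 x v)] at c6
    rw [c6]
    ring

end Pool.Agent.Helper597_torsymp
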