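import Pool.Agent.Helper597_torsymp.Gen

/-!
# Symplectomorphisms which conjugate an affine automorphism of infinite order to an affine one
-/

set_option autoImplicit false
set_option linter.unusedSectionVars false

open Set Filter Topology MeasureTheory
open scoped ContDiff

noncomputable section

namespace Pool.Agent.Helper597_torsymp

open Pool.Agent.Helper597_fou Pool.Agent.Helper597_fou.PS

/-! ### Linear algebra -/

/-- a vector whose forward and backward iterates tend to zero is zero -/
theorem eq_zero_of_tendsto {ι : Type} [Fintype ι] [DecidableEq ι] {N N' : Matrix ι ι ℂ}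
    (h1 : N * N' = 1) (h2 : N' * N = 1) {c : ι → ℂ}
    (hf : Tendsto (fun j : ℕ => (N ^ j).mulVec c) atTop (𝓝 0))
    (hb : Tendsto (fun j : ℕ => (N' ^ j).mulVec c) atTop (𝓝 0)) : c = 0 := by
  by_contra hc
  have hcont : ∀ M : Matrix ι ι ℂ, Continuous fun w : ι → ℂ => M.mulVec w := fun M =>
    Continuous.matrix_mulVec continuous_const continuous_id
  set W : Submodule ℂ (ι → ℂ) :=
    { carrier := {w | Tendsto (fun j : ℕ => (N ^ j).mulVec w) atTop (𝓝 0) ∧
        Tendsto (fun j : ℕ => (N' ^ j).mulVec w) atTop (𝓝 0)}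
      add_mem' := fun {a b} ha hb => by
        constructor
        · have := ha.1.add hb.1
          rw [add_zero] at this
          simpa only [Matrix.mulVec_add] using this
        · have := ha.2.add hb.2
          rw [add_zero] at this
          simpa only [Matrix.mulVec_add] using this
      zero_mem' := by
        constructor <;> simp
      smul_mem' := fun r a ha => by
        constructor
        · have := ha.1.const_smul r
          rw [smul_zero] at this
          simpa only [Matrix.mulVec_smul] using this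
        · have := ha.2.const_smul r
          rw [smul_zero] at this
          simpa only [Matrix.mulVec_smul] using this } with hW
  have hcW : c ∈ W := ⟨hf, hb⟩
  have hmap : ∀ w ∈ W, (Matrix.mulVecLin N) w ∈ W := by
    intro w hw
    constructor
    · have h3 := (tendsto_add_atTop_iff_nat 1).2 hw.1
      refine h3.congr fun j => ?_
      rw [Matrix.mulVecLin_apply, Matrix.mulVec_mulVec, ← pow_succ]
    · have h3 := ((hcont N).tendsto 0).comp hw.2
      rw [Matrix.mulVec_zero] at h3
      refine h3.congr fun j => ?_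
      simp only [Function.comp_apply]
      rw [Matrix.mulVecLin_apply, Matrix.mulVec_mulVec, Matrix.mulVec_mulVec]
      congr 1
      have hcomm : Commute N N' := by
        show N * N' = N' * N
        rw [h1, h2]
      exact (hcomm.pow_right j).eq
  have : Nontrivial W := ⟨⟨⟨c, hcW⟩, 0, fun h => hc (congrArg Subtype.val h)⟩⟩
  obtain ⟨lam, hlam⟩ := Module.End.exists_eigenvalue ((Matrix.mulVecLin N).restrict hmap)
  obtain ⟨⟨w, hwW⟩, hw⟩ := hlam.exists_hasEigenvector
  have hw0 : w ≠ 0 := fun h => hw.2 (Subtype.ext h)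
  have hNw : N.mulVec w = lam • w := congrArg Subtype.val hw.apply_eq_smul
  have hpow : ∀ j : ℕ, (N ^ j).mulVec w = lam ^ j • w := by
    intro j
    induction j with
    | zero => simp
    | succ j ih =>
      rw [pow_succ, ← Matrix.mulVec_mulVec, hNw, Matrix.mulVec_smul, ih, smul_smul, pow_succ,
        mul_comm]
  have hN'w : w = lam • N'.mulVec w := by
    have := congrArg (fun z => N'.mulVec z) hNw
    simp only [Matrix.mulVec_mulVec, h2, Matrix.one_mulVec, Matrix.mulVec_smul] at this
    exact this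
  have hlam0 : lam ≠ 0 := by
    intro h
    rw [h, zero_smul] at hN'w
    exact hw0 hN'w
  have hN'w' : N'.mulVec w = lam⁻¹ • w := by
    conv_rhs => rw [hN'w]
    rw [smul_smul, inv_mul_cancel₀ hlam0, one_smul]
  have hpow' : ∀ j : ℕ, (N' ^ j).mulVec w = lam⁻¹ ^ j • w := by
    intro j
    induction j with
    | zero => simp
    | succ j ih =>
      rw [pow_succ, ← Matrix.mulVec_mulVec, hN'w', Matrix.mulVec_smul, ih, smul_smul, pow_succ,
        mul_comm]
  have hwn : 0 < ‖w‖ := norm_pos_iff.2 hw0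
  have key : ∀ μ : ℂ, Tendsto (fun j : ℕ => μ ^ j • w) atTop (𝓝 0) → ‖μ‖ < 1 := by
    intro μ h
    have h3 := h.norm
    rw [norm_zero] at h3
    simp only [norm_smul, norm_pow] at h3
    have h4 := h3.mul_const ‖w‖⁻¹
    rw [zero_mul] at h4
    have h5 : Tendsto (fun j : ℕ => ‖μ‖ ^ j) atTop (𝓝 0) := by
      refine h4.congr fun j => ?_
      rw [mul_assoc, mul_inv_cancel₀ hwn.ne', mul_one]
    have h6 := tendsto_pow_atTop_nhds_zero_iff.1 h5
    rwa [abs_norm] at h6
  have k1 := key lam (hwW.1.congr hpow)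
  have k2 := key lam⁻¹ (hwW.2.congr hpow')
  rw [norm_inv] at k2
  have h0 : 0 < ‖lam‖ := norm_pos_iff.2 hlam0
  have := (inv_lt_one₀ h0).1 k2
  linarith

variable {n : ℕ} {A : Matrix (Fin n ⊕ Fin n) (Fin n ⊕ Fin n) ℤ}

/-! ### Composition with affine maps -/

/-- the frequencies of the composition with the linear map `M` -/
def eM (M : Matrix (Fin n ⊕ Fin n) (Fin n ⊕ Fin n) ℤ) (k : K (n + n)) : K (n + n) :=
  Fin.cons (k 0) fun i => ∑ α, M α (finSumFinEquiv.symm i) * k (ix α)

theorem eM_zero (M : Matrix (Fin n ⊕ Fin n) (Fin n ⊕ Fin n) ℤ) (k : K (n + n)) :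
    eM M k 0 = k 0 := rfl

theorem eM_ix (M : Matrix (Fin n ⊕ Fin n) (Fin n ⊕ Fin n) ℤ) (k : K (n + n))
    (β : Fin n ⊕ Fin n) : eM M k (ix β) = ∑ α, M α β * k (ix α) := by
  simp [eM, ix]

theorem ext_K {k l : K (n + n)} (h0 : k 0 = l 0) (h : ∀ α, k (ix α) = l (ix α)) : k = l := by
  funext i
  by_cases hi : i = 0
  · rw [hi, h0]
  · obtain ⟨α, rfl⟩ := ix_surj i hi
    exact h α

theorem eM_mul (M N : Matrix (Fin n ⊕ Fin n) (Fin n ⊕ Fin n) ℤ) (k : K (n + n)) :
    eM N (eM M k) = eM (M * N) k := by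
  refine ext_K rfl fun β => ?_
  rw [eM_ix, eM_ix]
  simp only [eM_ix, Matrix.mul_apply, Finset.mul_sum, Finset.sum_mul]
  rw [Finset.sum_comm]
  exact Finset.sum_congr rfl fun α _ => Finset.sum_congr rfl fun γ _ => by ring

theorem eM_one (k : K (n + n)) : eM 1 k = k := by
  refine ext_K rfl fun β => ?_
  rw [eM_ix, Finset.sum_eq_single β]
  · simp
  · intro γ _ hγ
    simp [hγ]
  · intro h; exact absurd (Finset.mem_univ β) h

/-- the equivalence of frequencies -/
def eqM {M M' : Matrix (Fin n ⊕ Fin n) (Fin n ⊕ Fin n) ℤ} (h1 : M * M' = 1) (h2 : M' * M = 1) :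
    K (n + n) ≃ K (n + n) where
  toFun := eM M
  invFun := eM M'
  left_inv := fun k => by rw [eM_mul, h1, eM_one]
  right_inv := fun k => by rw [eM_mul, h2, eM_one]

theorem ph_sum (k : K (n + n)) (x : E (n + n)) :
    ph k x = (k 0 : ℝ) * x 0 + ∑ α, (k (ix α) : ℝ) * x (ix α) := by
  unfold ph
  rw [Fin.sum_univ_succ]
  congr 1
  have := finSumFinEquiv.sum_comp fun i : Fin (n + n) => (k i.succ : ℝ) * x i.succ
  rw [← this]
  rfl

/-- the affine map on the extended space -/
def affE (M : Matrix (Fin n ⊕ Fin n) (Fin n ⊕ Fin n) ℤ) (v : V n) (x : E (n + n)) : E (n + n) :=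
  jn (x 0) (lin M (pr x) + v)

theorem ph_affE (M : Matrix (Fin n ⊕ Fin n) (Fin n ⊕ Fin n) ℤ) (v : V n) (k : K (n + n))
    (x : E (n + n)) : ph k (affE M v x) = ph (eM M k) x + ph k (jn 0 v) := by
  rw [ph_sum, ph_sum, ph_sum]
  unfold affE
  simp only [jn_zero, jn_ix, eM_zero, eM_ix, Pi.add_apply, mul_zero, zero_add]
  have e : ∀ α, lin M (pr x) α = ∑ β, (M α β : ℝ) * x (ix β) := fun α => rfl
  simp only [e, mul_add, Finset.sum_add_distrib]
  have e2 : ∑ α, (k (ix α) : ℝ) * ∑ β, (M α β : ℝ) * x (ix β) =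
      ∑ β, ((∑ α, M α β * k (ix α) : ℤ) : ℝ) * x (ix β) := by
    simp only [Finset.mul_sum]
    rw [Finset.sum_comm]
    refine Finset.sum_congr rfl fun β _ => ?_
    push_cast
    rw [Finset.sum_mul]
    exact Finset.sum_congr rfl fun α _ => by ring
  rw [e2]
  ring

theorem ee_affE (M : Matrix (Fin n ⊕ Fin n) (Fin n ⊕ Fin n) ℤ) (v : V n) (k : K (n + n))
    (x : E (n + n)) : ee k (affE M v x) = ee (eM M k) x * ee k (jn 0 v) := by
  rw [ee, ee, ee, ← Complex.exp_add, ph_affE]
  congr 1
  push_cast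
  ring

theorem affE_per (M : Matrix (Fin n ⊕ Fin n) (Fin n ⊕ Fin n) ℤ) (v : V n) (x : E (n + n))
    (k : K (n + n)) : ∃ l : K (n + n), affE M v (x + il k) = affE M v x + il l := by
  refine ⟨Fin.cons (k 0) fun i => (M.mulVec fun β => k (ix β)) (finSumFinEquiv.symm i), ?_⟩
  refine ext_ix ?_ fun α => ?_
  · simp [affE, il]
  · unfold affE
    simp only [Pi.add_apply, jn_ix, pr_il, map_add, lin_lat]
    simp only [il, lat, ix, Fin.cons_succ, Equiv.symm_apply_apply]
    ring

/-- the composition with an affine map -/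
def cL (M : Matrix (Fin n ⊕ Fin n) (Fin n ⊕ Fin n) ℤ) (v : V n) (f : PS (n + n)) : PS (n + n) :=
  ⟨fun x => f.1 (affE M v x), f.smooth.comp (jn_contDiff.comp
    ((contDiff_apply ℝ ℝ 0).prodMk (((lin M).contDiff.comp pr_contDiff).add contDiff_const))),
    fun x k => by
      obtain ⟨l, hl⟩ := affE_per M v x k
      simp only
      rw [hl, f.per]⟩

theorem ev_cL (M : Matrix (Fin n ⊕ Fin n) (Fin n ⊕ Fin n) ℤ) (v : V n) (f : PS (n + n)) (t : ℝ)
    (x : V n) : ev t (cL M v f) x = ev t f (lin M x + v) := by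
  change f.1 (affE M v (jn t x)) = f.1 (jn t (lin M x + v))
  unfold affE
  rw [pr_jn, jn_zero]

/-- the Fourier coefficients of the composition -/
theorem hat_cL {M M' : Matrix (Fin n ⊕ Fin n) (Fin n ⊕ Fin n) ℤ} (h1 : M * M' = 1)
    (h2 : M' * M = 1) (v : V n) (f : PS (n + n)) (k : K (n + n)) :
    hat (cL M v f) (eM M k) = ee k (jn 0 v) * hat f k := by
  set e := eqM h1 h2 with he
  set b : K (n + n) → ℂ := fun l => hat f (e.symm l) * ee (e.symm l) (jn 0 v) with hb
  have hfs : Summable (hat f) := f.sp.rd.summable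
  have hbs : Summable b := by
    refine Summable.of_norm ?_
    have : (fun l => ‖b l‖) = (fun k => ‖hat f k‖) ∘ e.symm := by
      funext l
      rw [hb]
      simp only [Function.comp_apply]
      rw [norm_mul, norm_ee, mul_one]
    rw [this]
    exact e.symm.summable_iff.2 hfs.norm
  have hS : cc (cL M v f) = S b := by
    funext x
    have e1 : cc (cL M v f) x = cc f (affE M v x) := rfl
    rw [e1]
    conv_lhs => rw [← f.sp.S_fc]
    rw [show S b x = ∑' k, b (e k) * ee (e k) x from
      (e.tsum_eq (fun l => b l * ee l x)).symm]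
    unfold S
    refine tsum_congr fun k => ?_
    rw [ee_affE, hb]
    simp only [Equiv.symm_apply_apply]
    have e2 : e k = eM M k := rfl
    rw [e2]
    change hat f k * (ee (eM M k) x * ee k (jn 0 v)) = hat f k * ee k (jn 0 v) * ee (eM M k) x
    ring
  unfold hat
  rw [hS, fc_S hbs, hb]
  simp only
  have e3 : e.symm (eM M k) = k := e.symm_apply_apply k
  rw [e3, mul_comm]
  rfl

end Pool.Agent.Helper597_torsymp
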