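import Pool.Agent.Helper597_torsymp.Aff

/-!
# The affine conjugacy theorem
-/

set_option autoImplicit false
set_option linter.unusedSectionVars false

open Set Filter Topology MeasureTheory
open scoped ContDiff

noncomputable section

namespace Pool.Agent.Helper597_torsymp

open Pool.Agent.Helper597_fou Pool.Agent.Helper597_fou.PS

variable {n : ℕ} {A : Matrix (Fin n ⊕ Fin n) (Fin n ⊕ Fin n) ℤ}

theorem lat_injective {k l : Fin n ⊕ Fin n → ℤ} (h : (lat k : V n) = lat l) : k = l := by
  funext i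
  have := congrFun h i
  simpa [lat] using this

theorem eM_eq_zero {M M' : Matrix (Fin n ⊕ Fin n) (Fin n ⊕ Fin n) ℤ} (h : M * M' = 1)
    {k : K (n + n)} (hk : eM M k = 0) : k = 0 := by
  have h0 : eM M' (0 : K (n + n)) = 0 := ext_K rfl fun β => by
    rw [eM_ix]
    simp
  have := congrArg (eM M') hk
  rwa [eM_mul, h, eM_one, h0] at this

theorem eM_iter (M : Matrix (Fin n ⊕ Fin n) (Fin n ⊕ Fin n) ℤ) (i : ℕ) (k : K (n + n)) :
    (eM M)^[i] k = eM (M ^ i) k := by
  induction i with
  | zero => rw [Function.iterate_zero_apply, pow_zero, eM_one]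
  | succ i ih => rw [Function.iterate_succ_apply', ih, eM_mul, pow_succ]

theorem eM_ix' (M : Matrix (Fin n ⊕ Fin n) (Fin n ⊕ Fin n) ℤ) (k : K (n + n))
    (β : Fin n ⊕ Fin n) : eM M k (ix β) = (M.transpose.mulVec fun α => k (ix α)) β := by
  rw [eM_ix]
  rfl

/-- the vector of Fourier coefficients -/
def hv (U : Fin n ⊕ Fin n → PS (n + n)) (k : K (n + n)) : Fin n ⊕ Fin n → ℂ := fun α => hat (U α) k

/-- coefficients along an injective orbit -/
theorem tendsto_orbit (U : Fin n ⊕ Fin n → PS (n + n)) {g : K (n + n) → K (n + n)}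
    {N : Matrix (Fin n ⊕ Fin n) (Fin n ⊕ Fin n) ℂ} {θ : K (n + n) → ℂ}
    (hθ : ∀ k, ‖θ k‖ = 1) (hg0 : ∀ k, k ≠ 0 → g k ≠ 0)
    (h : ∀ k, k ≠ 0 → hv U (g k) = θ k • N.mulVec (hv U k)) {k : K (n + n)} (hk : k ≠ 0)
    (hinj : Function.Injective fun j : ℕ => g^[j] k) :
    Tendsto (fun j : ℕ => (N ^ j).mulVec (hv U k)) atTop (𝓝 0) := by
  have h1 : ∀ j : ℕ, g^[j] k ≠ 0 ∧ ∃ ϑ : ℂ, ‖ϑ‖ = 1 ∧ hv U (g^[j] k) =
      ϑ • (N ^ j).mulVec (hv U k) := by
    intro j
    induction j with
    | zero => exact ⟨hk, 1, norm_one, by simp⟩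
    | succ j ih =>
      obtain ⟨hne, ϑ, hϑ, e⟩ := ih
      refine ⟨by rw [Function.iterate_succ_apply']; exact hg0 _ hne, θ (g^[j] k) * ϑ,
        by rw [norm_mul, hθ, hϑ, one_mul], ?_⟩
      rw [Function.iterate_succ_apply', h _ hne, e, Matrix.mulVec_smul, Matrix.mulVec_mulVec,
        smul_smul, ← pow_succ']
  have h2 : Tendsto (fun j : ℕ => hv U (g^[j] k)) atTop (𝓝 0) := by
    rw [tendsto_pi_nhds]
    intro α
    have h3 : Tendsto (hat (U α)) cofinite (𝓝 0) :=
      (U α).sp.rd.summable.tendsto_cofinite_zero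
    have h4 : Tendsto (fun j : ℕ => g^[j] k) atTop cofinite := by
      rw [← Nat.cofinite_eq_atTop]
      exact hinj.tendsto_cofinite
    exact h3.comp h4
  rw [tendsto_zero_iff_norm_tendsto_zero] at h2 ⊢
  refine h2.congr fun j => ?_
  obtain ⟨-, ϑ, hϑ, e⟩ := h1 j
  rw [e, norm_smul, hϑ, one_mul]

/-- an orbit of a bijection without periodic point is injective -/
theorem injective_orbit {α : Type} {g g' : α → α} (h : ∀ x, g' (g x) = x) {x : α}
    (hx : ∀ i : ℕ, 0 < i → g^[i] x ≠ x) : Function.Injective fun j : ℕ => g^[j] x := by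
  have hinj : Function.Injective g := Function.LeftInverse.injective h
  intro i j hij
  simp only at hij
  by_contra hne
  rcases lt_or_gt_of_ne hne with hlt | hlt
  · obtain ⟨d, rfl⟩ := Nat.exists_eq_add_of_lt hlt
    rw [show i + d + 1 = i + (d + 1) by ring, Function.iterate_add_apply] at hij
    exact hx (d + 1) (Nat.succ_pos d) ((hinj.iterate i) hij).symm
  · obtain ⟨d, rfl⟩ := Nat.exists_eq_add_of_lt hlt
    rw [show j + d + 1 = j + (d + 1) by ring, Function.iterate_add_apply] at hij
    exact hx (d + 1) (Nat.succ_pos d) ((hinj.iterate j) hij)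

section main

variable {F : V n → V n} (hF : IsTorusSymp A F)
  {M M₁ M' : Matrix (Fin n ⊕ Fin n) (Fin n ⊕ Fin n) ℤ} (hM1 : M * M₁ = 1) (hM2 : M₁ * M = 1)
  {v v' : V n} (h : ∀ x, F (lin M x + v) = lin M' (F x) + v')

include hF h

/-- the linear parts are conjugate -/
theorem linear_parts : A * M = M' * A := by
  have key : ∀ k, (A * M).mulVec k = (M' * A).mulVec k := by
    intro k
    apply lat_injective
    have h1 := h (lat k)
    have h2 := h 0
    have h3 := hF.equivariant (lin M 0 + v) (M.mulVec k)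
    have h4 := hF.equivariant 0 k
    rw [zero_add] at h4
    have e1 : lin M (lat k) + v = lin M 0 + v + lat (M.mulVec k) := by
      rw [lin_lat, map_zero]
      abel
    rw [h4, e1, h3, h2, map_add, lin_lat] at h1
    rw [← Matrix.mulVec_mulVec, ← Matrix.mulVec_mulVec]
    have e2 : lin M' (F 0) + v' + lat (A.mulVec (M.mulVec k)) =
        lin M' (F 0) + v' + lat (M'.mulVec (A.mulVec k)) := by
      rw [h1]
      abel
    exact add_left_cancel e2
  ext i j
  have := congrFun (key (Pi.single j 1)) i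
  simpa using this

theorem cL_perp (α : Fin n ⊕ Fin n) : cL M v (perp A F hF.smooth hF.equivariant α) =
    ∑ β, (M' α β : ℝ) • perp A F hF.smooth hF.equivariant β + cst ((v' - lin A v) α) := by
  have hlp := linear_parts hF h
  refine ext_ev fun t x => ?_
  rw [ev_cL, ev_perp, ev_add, ev_cst, ev_sum, h]
  have e1 : ∀ β, ev t ((M' α β : ℝ) • perp A F hF.smooth hF.equivariant β) x =
      (M' α β : ℝ) * (F x β - lin A x β) := fun β => by
    rw [← ev_perp hF.smooth hF.equivariant t]
    rfl
  rw [Finset.sum_congr rfl fun β _ => e1 β]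
  have e2 : ∑ β, (M' α β : ℝ) * (F x β - lin A x β) = lin M' (F x - lin A x) α := rfl
  rw [e2, map_add, map_sub, lin_lin, lin_lin, hlp]
  simp only [Pi.add_apply, Pi.sub_apply]
  ring

theorem hv_eM (hM1 : M * M₁ = 1) (hM2 : M₁ * M = 1) {k : K (n + n)} (hk : k ≠ 0) :
    (M'.map (Int.cast : ℤ → ℂ)).mulVec
      (hv (perp A F hF.smooth hF.equivariant) (eM M k)) =
      ee k (jn 0 v) • hv (perp A F hF.smooth hF.equivariant) k := by
  funext α
  have h1 := congrArg (fun f => hat f (eM M k)) (cL_perp hF h α)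
  rw [hat_cL hM1 hM2, hat_add, hat_sum] at h1
  have hk' : eM M k ≠ 0 := fun h' => hk (eM_eq_zero hM1 h')
  have e1 : hat (cst ((v' - lin A v) α) : PS (n + n)) (eM M k) = 0 := by
    unfold cst
    rw [hat_smul]
    unfold hat
    rw [cc_one, fc_const, if_neg hk', mul_zero]
  rw [e1, add_zero] at h1
  show ∑ β, ((M' α β : ℤ) : ℂ) * hat (perp A F hF.smooth hF.equivariant β) (eM M k) =
    ee k (jn 0 v) * hat (perp A F hF.smooth hF.equivariant α) k
  rw [h1]
  refine Finset.sum_congr rfl fun β _ => ?_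
  rw [hat_smul]
  push_cast
  rfl

/-- the coefficients vanish at the frequencies with infinite orbit -/
theorem hv_eq_zero (hM1 : M * M₁ = 1) (hM2 : M₁ * M = 1) {k : K (n + n)} (hk : k ≠ 0)
    (hinf : ∀ i : ℕ, 0 < i → (eM M)^[i] k ≠ k) :
    hv (perp A F hF.smooth hF.equivariant) k = 0 := by
  obtain ⟨B, hAB, hBA⟩ := exists_inv_matrix hF.mem
  have hlp := linear_parts hF h
  set N : Matrix (Fin n ⊕ Fin n) (Fin n ⊕ Fin n) ℂ := M'.map (Int.cast : ℤ → ℂ) with hN
  set N' : Matrix (Fin n ⊕ Fin n) (Fin n ⊕ Fin n) ℂ :=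
    (A * M₁ * B).map (Int.cast : ℤ → ℂ) with hN'
  have hmul : ∀ X Y : Matrix (Fin n ⊕ Fin n) (Fin n ⊕ Fin n) ℤ,
      (X * Y).map (Int.cast : ℤ → ℂ) = X.map Int.cast * Y.map Int.cast := fun X Y =>
    Matrix.map_mul (f := Int.castRingHom ℂ)
  have hone : (1 : Matrix (Fin n ⊕ Fin n) (Fin n ⊕ Fin n) ℤ).map (Int.cast : ℤ → ℂ) = 1 :=
    Matrix.map_one (f := (Int.cast : ℤ → ℂ)) Int.cast_zero Int.cast_one
  have hNN' : N * N' = 1 := by
    rw [hN, hN', ← hmul, ← Matrix.mul_assoc, ← Matrix.mul_assoc, ← hlp, Matrix.mul_assoc A M,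
      hM1, Matrix.mul_one, hAB, hone]
  have hN'N : N' * N = 1 := by
    rw [hN, hN', ← hmul]
    have e : A * M₁ * B * M' = 1 := by
      have e1 : B * M' = M * B := by
        have e2 : B * M' * A * B = M * B := by
          rw [Matrix.mul_assoc B, ← hlp, ← Matrix.mul_assoc B, hBA, Matrix.one_mul]
        rwa [Matrix.mul_assoc (B * M'), hAB, Matrix.mul_one] at e2
      rw [Matrix.mul_assoc, e1, Matrix.mul_assoc, ← Matrix.mul_assoc M₁, hM2, Matrix.one_mul, hAB]
    rw [e, hone]
  set U := perp A F hF.smooth hF.equivariant with hU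
  have hee : ∀ k : K (n + n), ee k (jn 0 v) ≠ 0 := fun k => by
    rw [← norm_ne_zero_iff, norm_ee]
    exact one_ne_zero
  -- forward
  have hfw : ∀ k, k ≠ 0 → hv U (eM M k) = ee k (jn 0 v) • N'.mulVec (hv U k) := by
    intro k hk
    have h1 := hv_eM hF h hM1 hM2 hk
    have h2 := congrArg (fun w => N'.mulVec w) h1
    simp only [Matrix.mulVec_mulVec, Matrix.mulVec_smul] at h2
    rw [← hN, hN'N, Matrix.one_mulVec] at h2
    exact h2
  have hbw : ∀ k, k ≠ 0 → hv U (eM M₁ k) =
      (ee (eM M₁ k) (jn 0 v))⁻¹ • N.mulVec (hv U k) := by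
    intro k hk
    have hk' : eM M₁ k ≠ 0 := fun h' => hk (eM_eq_zero hM2 h')
    have h1 := hv_eM hF h hM1 hM2 hk'
    rw [eM_mul, hM2, eM_one, ← hN] at h1
    rw [h1, smul_smul, inv_mul_cancel₀ (hee _), one_smul]
  have hinj1 : Function.Injective fun j : ℕ => (eM M)^[j] k :=
    injective_orbit (g' := eM M₁) (fun x => by rw [eM_mul, hM1, eM_one]) hinf
  have hinj2 : Function.Injective fun j : ℕ => (eM M₁)^[j] k := by
    refine injective_orbit (g' := eM M) (fun x => by rw [eM_mul, hM2, eM_one]) fun i hi hcon => ?_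
    apply hinf i hi
    have hl : Function.LeftInverse (eM M) (eM M₁ : K (n + n) → K (n + n)) := fun x => by
      rw [eM_mul, hM2, eM_one]
    have := hl.iterate i k
    rwa [hcon] at this
  have t1 := tendsto_orbit U (θ := fun k => ee k (jn 0 v)) (fun k => norm_ee _ _)
    (fun k hk h' => hk (eM_eq_zero hM1 h')) hfw hk hinj1
  have t2 := tendsto_orbit U (θ := fun k => (ee (eM M₁ k) (jn 0 v))⁻¹)
    (fun k => by rw [norm_inv, norm_ee, inv_one])
    (fun k hk h' => hk (eM_eq_zero hM2 h')) hbw hk hinj2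
  exact eq_zero_of_tendsto hNN' hN'N t2 t1

/-- either there is an invariant direction, or the linear part of the affine map has finite
order -/
theorem line_or_finite (hM1 : M * M₁ = 1) (hM2 : M₁ * M = 1) :
    (∃ w : Fin n ⊕ Fin n → ℤ, w ≠ 0 ∧ ∀ x, fderiv ℝ F x (lat w) = lin A (lat w)) ∨
      ∃ I : ℕ, 0 < I ∧ M ^ I = 1 := by
  set T := M.transpose with hT
  have hpow : ∀ {i j : ℕ} {k : Fin n ⊕ Fin n → ℤ}, (T ^ i).mulVec k = k →
      (T ^ (i * j)).mulVec k = k := by
    intro i j k hk
    induction j with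
    | zero => simp
    | succ j ih => rw [Nat.mul_succ, pow_add, ← Matrix.mulVec_mulVec, hk, ih]
  set Λ : AddSubgroup (Fin n ⊕ Fin n → ℤ) :=
    { carrier := {k | ∃ i : ℕ, 0 < i ∧ (T ^ i).mulVec k = k}
      add_mem' := by
        rintro a b ⟨i, hi, ha⟩ ⟨j, hj, hb⟩
        refine ⟨i * j, Nat.mul_pos hi hj, ?_⟩
        rw [Matrix.mulVec_add, hpow ha, mul_comm, hpow hb]
      zero_mem' := ⟨1, one_pos, by simp⟩
      neg_mem' := by
        rintro a ⟨i, hi, ha⟩
        exact ⟨i, hi, by rw [Matrix.mulVec_neg, ha]⟩ } with hΛ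
  have hsupp : ∀ α k, hat (perp A F hF.smooth hF.equivariant α) k ≠ 0 →
      (fun β => k (ix β)) ∈ Λ := by
    intro α k hk
    by_cases hk0 : k = 0
    · subst hk0
      exact Λ.zero_mem
    · by_contra hcon
      apply hk
      have h1 := hv_eq_zero hF h hM1 hM2 hk0 (fun i hi hi' => hcon ⟨i, hi, by
        funext β
        have h2 := congrFun hi' (ix β)
        rw [eM_iter, eM_ix', Matrix.transpose_pow] at h2
        exact h2⟩)
      exact congrFun h1 α
  rcases support_dichotomy hF Λ hsupp with h1 | ⟨N, hN, h2⟩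
  · exact Or.inl h1
  · right
    choose i hi hiT using h2
    have hbas : ∀ β, (T ^ (∏ γ, i (Pi.single γ 1))).mulVec (Pi.single β 1) =
        (Pi.single β 1 : Fin n ⊕ Fin n → ℤ) := by
      intro β
      have h3 := hiT (Pi.single β 1)
      have h4 : (T ^ i (Pi.single β 1)).mulVec (Pi.single β 1) =
          (Pi.single β 1 : Fin n ⊕ Fin n → ℤ) := by
        rw [Matrix.mulVec_smul] at h3
        exact smul_right_injective _ hN h3
      rw [← Finset.mul_prod_erase _ _ (Finset.mem_univ β)]
      exact hpow h4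
    refine ⟨∏ γ, i (Pi.single γ 1), Finset.prod_pos fun γ _ => hi _, ?_⟩
    have h5 : T ^ (∏ γ, i (Pi.single γ 1)) = 1 := by
      ext a b
      have := congrFun (hbas b) a
      rw [Matrix.mulVec_single_one] at this
      rw [Matrix.one_apply]
      simpa [Pi.single_apply] using this
    have h6 := congrArg Matrix.transpose h5
    rw [Matrix.transpose_pow, hT, Matrix.transpose_transpose, Matrix.transpose_one] at h6
    exact h6

end main

/-- iterates of affine maps -/
theorem affine_iter (M : Matrix (Fin n ⊕ Fin n) (Fin n ⊕ Fin n) ℤ) (v : V n) (j : ℕ) :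
    ∃ u : V n, ∀ x, (fun y => lin M y + v)^[j] x = lin (M ^ j) x + u := by
  induction j with
  | zero => exact ⟨0, fun x => by rw [Function.iterate_zero_apply, pow_zero, lin_one, add_zero]⟩
  | succ j ih =>
    obtain ⟨u, hu⟩ := ih
    refine ⟨lin M u + v, fun x => ?_⟩
    rw [Function.iterate_succ_apply', hu, map_add, lin_lin, ← pow_succ']
    abel

/-- **The affine conjugacy theorem.** If `F` conjugates an affine automorphism of infinite order of
the torus to an affine map, then there is a nonzero integer vector `w` with `DF(x) w = A w` for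
all `x`. -/
theorem exists_line_of_affine {F : V n → V n} (hF : IsTorusSymp A F)
    {M M' : Matrix (Fin n ⊕ Fin n) (Fin n ⊕ Fin n) ℤ} (hM : IsUnit M.det) {v v' : V n}
    (h : ∀ x, F (lin M x + v) = lin M' (F x) + v')
    (hinf : ∀ j : ℕ, 0 < j → ¬ ∃ k : Fin n ⊕ Fin n → ℤ, ∀ x,
      (fun y => lin M y + v)^[j] x = x + lat k) :
    ∃ w : Fin n ⊕ Fin n → ℤ, w ≠ 0 ∧ ∀ x, fderiv ℝ F x (lat w) = lin A (lat w) := by
  have hM1 := Matrix.mul_nonsing_inv _ hM
  have hM2 := Matrix.nonsing_inv_mul _ hM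
  rcases line_or_finite hF h hM1 hM2 with h1 | ⟨I, hI, hMI⟩
  · exact h1
  · obtain ⟨B, hAB, hBA⟩ := exists_inv_matrix hF.mem
    have hlp := linear_parts hF h
    have hlpI : ∀ j : ℕ, A * M ^ j = M' ^ j * A := by
      intro j
      induction j with
      | zero => simp
      | succ j ih =>
        rw [pow_succ, ← Matrix.mul_assoc, ih, Matrix.mul_assoc, hlp, ← Matrix.mul_assoc, ← pow_succ]
    have hM'I : M' ^ I = 1 := by
      have h1 := hlpI I
      rw [hMI, Matrix.mul_one] at h1
      have h2 : A * B = M' ^ I * A * B := by rw [← h1]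
      rw [Matrix.mul_assoc, hAB, Matrix.mul_one] at h2
      exact h2.symm
    obtain ⟨u, hu⟩ := affine_iter M v I
    obtain ⟨u', hu'⟩ := affine_iter M' v' I
    have hFI : ∀ j : ℕ, ∀ x, F ((fun y => lin M y + v)^[j] x) =
        (fun y => lin M' y + v')^[j] (F x) := by
      intro j
      induction j with
      | zero => intro x; rfl
      | succ j ih =>
        intro x
        rw [Function.iterate_succ_apply', Function.iterate_succ_apply', h, ih]
    have htr : ∀ x, F (lin (1 : Matrix (Fin n ⊕ Fin n) (Fin n ⊕ Fin n) ℤ) x + u) =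
        lin 1 (F x) + u' := by
      intro x
      have h1 := hFI I x
      rw [hu, hu', hMI, hM'I] at h1
      exact h1
    set Λ : AddSubgroup (Fin n ⊕ Fin n → ℤ) :=
      { carrier := {k | ∃ m : ℤ, ∑ β, (k β : ℝ) * u β = m}
        add_mem' := by
          rintro a b ⟨m, hm⟩ ⟨m', hm'⟩
          refine ⟨m + m', ?_⟩
          simp only [Pi.add_apply]
          push_cast
          simp only [add_mul, Finset.sum_add_distrib, hm, hm']
        zero_mem' := ⟨0, by simp⟩
        neg_mem' := by
          rintro a ⟨m, hm⟩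
          refine ⟨-m, ?_⟩
          simp only [Pi.neg_apply]
          push_cast
          simp only [neg_mul, Finset.sum_neg_distrib, hm] } with hΛ
    have hsupp : ∀ α k, hat (perp A F hF.smooth hF.equivariant α) k ≠ 0 →
        (fun β => k (ix β)) ∈ Λ := by
      intro α k hk
      by_cases hk0 : k = 0
      · subst hk0
        exact Λ.zero_mem
      · have h1 := congrFun (hv_eM hF htr (Matrix.one_mul 1) (Matrix.one_mul 1) hk0) α
        have hone : (1 : Matrix (Fin n ⊕ Fin n) (Fin n ⊕ Fin n) ℤ).map (Int.cast : ℤ → ℂ) = 1 :=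
          Matrix.map_one (f := (Int.cast : ℤ → ℂ)) Int.cast_zero Int.cast_one
        rw [hone, Matrix.one_mulVec, eM_one, Pi.smul_apply, smul_eq_mul] at h1
        have h2 : ee k (jn 0 u) = 1 := by
          have h3 : (ee k (jn 0 u) - 1) * hv (perp A F hF.smooth hF.equivariant) k α = 0 := by
            rw [sub_mul, one_mul, ← h1, sub_self]
          exact sub_eq_zero.1 ((mul_eq_zero.1 h3).resolve_right hk)
        rw [ee, Complex.exp_eq_one_iff] at h2
        obtain ⟨m, hm⟩ := h2
        refine ⟨m, ?_⟩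
        have h3 : ((ph k (jn 0 u) : ℝ) : ℂ) = (m : ℂ) := by
          have h4 : (2 * Real.pi * Complex.I : ℂ) ≠ 0 := Complex.two_pi_I_ne_zero
          have h5 : (2 * Real.pi * Complex.I : ℂ) * ((ph k (jn 0 u) : ℝ) : ℂ) =
              (2 * Real.pi * Complex.I) * (m : ℂ) := by
            rw [hm]; ring
          exact mul_left_cancel₀ h4 h5
        have h6 : ph k (jn 0 u) = (m : ℝ) := by exact_mod_cast h3
        rw [ph_sum] at h6
        simpa using h6
    rcases support_dichotomy hF Λ hsupp with h1 | ⟨N, hN, h2⟩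
    · exact h1
    · exfalso
      have hbas : ∀ β, ∃ m : ℤ, (N : ℝ) * u β = m := by
        intro β
        obtain ⟨m, hm⟩ := h2 (Pi.single β 1)
        refine ⟨m, ?_⟩
        rw [Finset.sum_eq_single β] at hm
        · simpa using hm
        · intro γ _ hγ
          simp [hγ]
        · intro h'; exact absurd (Finset.mem_univ β) h'
      choose m hm using hbas
      have hN' : 0 < N.natAbs := Int.natAbs_pos.2 hN
      obtain ⟨k, hk⟩ : ∃ k : Fin n ⊕ Fin n → ℤ, ((N.natAbs : ℕ) : ℝ) • u = lat k := by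
        rcases le_total 0 N with hs | hs
        · refine ⟨m, ?_⟩
          funext β
          have e1 : ((N.natAbs : ℕ) : ℝ) = (N : ℝ) := by
            rw [Nat.cast_natAbs, abs_of_nonneg hs]
          rw [e1]
          exact hm β
        · refine ⟨-m, ?_⟩
          funext β
          have e1 : ((N.natAbs : ℕ) : ℝ) = -(N : ℝ) := by
            rw [Nat.cast_natAbs, abs_of_nonpos hs, Int.cast_neg]
          rw [e1]
          simp only [Pi.smul_apply, smul_eq_mul, lat, Pi.neg_apply, Int.cast_neg]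
          rw [neg_mul, hm]
      refine hinf (I * N.natAbs) (Nat.mul_pos hI hN') ⟨k, fun x => ?_⟩
      rw [Function.iterate_mul]
      have hLI : (fun y => lin M y + v)^[I] = fun y => y + u := by
        funext y
        rw [hu, hMI, lin_one]
      rw [hLI]
      have hit : ∀ j : ℕ, (fun y : V n => y + u)^[j] x = x + (j : ℝ) • u := by
        intro j
        induction j with
        | zero => simp
        | succ j ih =>
          rw [Function.iterate_succ_apply', ih]
          push_cast
          rw [add_smul, one_smul]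
          abel
      rw [hit, hk]

end Pool.Agent.Helper597_torsymp
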