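import Pool.Agent.Helper597_torsymp.Aff2

/-!
# Symplectomorphisms of the torus with infinitely many affine symmetries
-/

set_option autoImplicit false
set_option linter.unusedSectionVars false

open Set Filter Topology MeasureTheory
open scoped ContDiff

noncomputable section

namespace Pool.Agent.Helper597_torsymp

open Pool.Agent.Helper597_fou Pool.Agent.Helper597_fou.PS

/-! ### Minkowski's lemma -/

section minkowski

variable {ι : Type} [Fintype ι] [DecidableEq ι]

theorem eq_one_of_mul {M e : Matrix ι ι ℤ} (he : e.det ≠ 0) (h : (M - 1) * e = 0) : M = 1 := by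
  have h1 : (M - 1) * e * e.adjugate = 0 := by rw [h, Matrix.zero_mul]
  rw [Matrix.mul_assoc, Matrix.mul_adjugate, Matrix.mul_smul, Matrix.mul_one] at h1
  have h2 : M - 1 = 0 := by
    ext i j
    have h3 := congrFun (congrFun h1 i) j
    simp only [Matrix.smul_apply, smul_eq_mul, Matrix.zero_apply] at h3
    exact (mul_eq_zero.1 h3).resolve_left he
  exact sub_eq_zero.1 h2

/-- reduction modulo 3 -/
def red : Matrix ι ι ℤ →+* Matrix ι ι (ZMod 3) := (Int.castRingHom (ZMod 3)).mapMatrix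

theorem red_det (M : Matrix ι ι ℤ) : ((M.det : ℤ) : ZMod 3) = (red M).det :=
  (Int.castRingHom (ZMod 3)).map_det M

theorem det_ne_zero_of_red {e : Matrix ι ι ℤ} (h : (red e).det ≠ 0) : e.det ≠ 0 := by
  intro h0
  apply h
  rw [← red_det, h0, Int.cast_zero]

theorem cube_case {M : Matrix ι ι ℤ} (h3 : red M = 1) (h : M ^ 3 = 1) : M = 1 := by
  have : Fact (Nat.Prime 3) := ⟨Nat.prime_three⟩
  -- `M = 1 + 3 N`
  have hdiv : ∀ i j, ∃ c : ℤ, (M - 1) i j = 3 * c := by
    intro i j
    have h1 : (((M - 1) i j : ℤ) : ZMod 3) = 0 := by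
      have h2 : red (M - 1) = 0 := by rw [map_sub, h3, map_one, sub_self]
      exact congrFun (congrFun h2 i) j
    exact (ZMod.intCast_zmod_eq_zero_iff_dvd _ 3).1 h1
  choose N hN using hdiv
  set N' : Matrix ι ι ℤ := Matrix.of N with hN'
  have hM : M = 1 + 3 • N' := by
    ext i j
    have h1 := hN i j
    rw [Matrix.sub_apply] at h1
    rw [Matrix.add_apply, Matrix.smul_apply, hN', Matrix.of_apply]
    simp only [nsmul_eq_mul]
    push_cast
    linarith
  set e : Matrix ι ι ℤ := 1 + 3 • (N' + N' * N') with he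
  have h1 : 3 • ((M - 1) * e) = 0 := by
    have h2 : (M - 1) * (3 • e) = M ^ 3 - 1 := by
      rw [he, hM]
      noncomm_ring
    rw [h, sub_self] at h2
    rw [← h2]
    noncomm_ring
  have h4 : (M - 1) * e = 0 := by
    ext i j
    have h5 := congrFun (congrFun h1 i) j
    simp only [Matrix.smul_apply, nsmul_eq_mul, Matrix.zero_apply] at h5
    push_cast at h5
    simp only [Matrix.zero_apply]
    linarith
  refine eq_one_of_mul (det_ne_zero_of_red ?_) h4
  have h6 : red e = 1 := by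
    rw [he, map_add, map_one, map_nsmul]
    have : (3 : ℕ) • red (N' + N' * N') = 0 := by
      ext i j
      simp only [Matrix.smul_apply, nsmul_eq_mul, Matrix.zero_apply]
      have : ((3 : ℕ) : ZMod 3) = 0 := ZMod.natCast_self 3
      rw [this, zero_mul]
    rw [this, add_zero]
  rw [h6, Matrix.det_one]
  exact one_ne_zero

theorem minkowski (j : ℕ) : ∀ {M : Matrix ι ι ℤ}, red M = 1 → 0 < j → M ^ j = 1 → M = 1 := by
  have : Fact (Nat.Prime 3) := ⟨Nat.prime_three⟩
  induction j using Nat.strong_induction_on with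
  | _ j ih =>
    intro M h3 hj h
    by_cases hd : 3 ∣ j
    · obtain ⟨m, rfl⟩ := hd
      have hm : 0 < m := by omega
      have h1 : (M ^ m) ^ 3 = 1 := by rw [← pow_mul, mul_comm, h]
      have h2 : red (M ^ m) = 1 := by rw [map_pow, h3, one_pow]
      exact ih m (by omega) h3 hm (cube_case h2 h1)
    · refine eq_one_of_mul (e := ∑ i ∈ Finset.range j, M ^ i) (det_ne_zero_of_red ?_) ?_
      · have h1 : red (∑ i ∈ Finset.range j, M ^ i) = (j : ZMod 3) • 1 := by
          rw [map_sum]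
          simp only [map_pow, h3, one_pow, Finset.sum_const, Finset.card_range]
          rw [Nat.cast_smul_eq_nsmul]
        rw [h1, Matrix.det_smul, Matrix.det_one, mul_one]
        refine pow_ne_zero _ fun h0 => hd ?_
        exact (ZMod.natCast_eq_zero_iff _ _).1 h0
      · rw [mul_geom_sum, h, sub_self]

end minkowski

variable {n : ℕ} {A : Matrix (Fin n ⊕ Fin n) (Fin n ⊕ Fin n) ℤ}

/-- the support of the displacement is orthogonal to the translations conjugated to translations -/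
theorem supp_of_translation {F : V n → V n} (hF : IsTorusSymp A F) {u u' : V n}
    (htr : ∀ x, F (lin (1 : Matrix (Fin n ⊕ Fin n) (Fin n ⊕ Fin n) ℤ) x + u) =
      lin 1 (F x) + u') (α : Fin n ⊕ Fin n) (k : K (n + n))
    (hk : hat (perp A F hF.smooth hF.equivariant α) k ≠ 0) :
    ∃ m : ℤ, ∑ β, (k (ix β) : ℝ) * u β = m := by
  by_cases hk0 : k = 0
  · subst hk0
    exact ⟨0, by simp⟩
  · have h1 := congrFun (hv_eM hF htr (Matrix.one_mul 1) (Matrix.one_mul 1) hk0) α
    have hone : (1 : Matrix (Fin n ⊕ Fin n) (Fin n ⊕ Fin n) ℤ).map (Int.cast : ℤ → ℂ) = 1 :=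
      Matrix.map_one (f := (Int.cast : ℤ → ℂ)) Int.cast_zero Int.cast_one
    rw [hone, Matrix.one_mulVec, eM_one, Pi.smul_apply, smul_eq_mul] at h1
    have h2 : ee k (jn 0 u) = 1 := by
      have h3 : (ee k (jn 0 u) - 1) * hv (perp A F hF.smooth hF.equivariant) k α = 0 := by
        rw [sub_mul, one_mul, ← h1, sub_self]
      exact sub_eq_zero.1 ((mul_eq_zero.1 h3).resolve_right hk)
    rw [ee, Complex.exp_eq_one_iff] at h2
    obtain ⟨m, hm⟩ := h2
    refine ⟨m, ?_⟩
    have h3 : ((ph k (jn 0 u) : ℝ) : ℂ) = (m : ℂ) := by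
      have h4 : (2 * Real.pi * Complex.I : ℂ) ≠ 0 := Complex.two_pi_I_ne_zero
      have h5 : (2 * Real.pi * Complex.I : ℂ) * ((ph k (jn 0 u) : ℝ) : ℂ) =
          (2 * Real.pi * Complex.I) * (m : ℂ) := by
        rw [hm]; ring
      exact mul_left_cancel₀ h4 h5
    have h6 : ph k (jn 0 u) = (m : ℝ) := by exact_mod_cast h3
    rw [ph_sum] at h6
    simpa using h6

/-- the quotient of two affine symmetries -/
theorem affine_quotient {F : V n → V n} (hF : IsTorusSymp A F)
    {M₁ M₂ M₁' M₂' : Matrix (Fin n ⊕ Fin n) (Fin n ⊕ Fin n) ℤ} {v₁ v₂ v₁' v₂' : V n}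
    (hM₂ : IsUnit M₂.det) (h₁ : ∀ x, F (lin M₁ x + v₁) = lin M₁' (F x) + v₁')
    (h₂ : ∀ x, F (lin M₂ x + v₂) = lin M₂' (F x) + v₂') :
    ∃ (M' : Matrix (Fin n ⊕ Fin n) (Fin n ⊕ Fin n) ℤ) (v' : V n), ∀ x,
      F (lin (M₁ * M₂⁻¹) x + (v₁ - lin (M₁ * M₂⁻¹) v₂)) = lin M' (F x) + v' := by
  have hN1 := Matrix.mul_nonsing_inv _ hM₂
  have hN2 := Matrix.nonsing_inv_mul _ hM₂
  obtain ⟨B, hAB, hBA⟩ := exists_inv_matrix hF.mem
  set N := M₂⁻¹ with hN
  set N' := A * N * B with hN'
  have hlp := linear_parts hF h₂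
  have hNM' : N' * M₂' = 1 := by
    have h1 : M₂' = A * M₂ * B := by
      rw [hlp, Matrix.mul_assoc, hAB, Matrix.mul_one]
    calc N' * M₂' = A * N * (B * A) * M₂ * B := by
          rw [h1, hN']
          simp only [Matrix.mul_assoc]
      _ = A * (N * M₂) * B := by
          rw [hBA, Matrix.mul_one]
          simp only [Matrix.mul_assoc]
      _ = 1 := by rw [hN2, Matrix.mul_one, hAB]
  -- the inverse of the second symmetry
  have hinv : ∀ x, F (lin N (x - v₂)) = lin N' (F x - v₂') := by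
    intro x
    have h1 := h₂ (lin N (x - v₂))
    rw [lin_lin, hN1, lin_one, sub_add_cancel] at h1
    rw [h1, add_sub_cancel_right, lin_lin, hNM', lin_one]
  refine ⟨M₁' * N', v₁' - lin (M₁' * N') v₂', fun x => ?_⟩
  have h1 := h₁ (lin N (x - v₂))
  rw [hinv, lin_lin, lin_lin, map_sub, map_sub] at h1
  have e1 : lin (M₁ * N) x + (v₁ - lin (M₁ * N) v₂) = lin (M₁ * N) x - lin (M₁ * N) v₂ + v₁ := by
    abel
  rw [e1, h1]
  abel

/-- **The theorem on infinitely many affine symmetries.** If `F` conjugates infinitely many affine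
automorphisms of the torus to affine maps, then there is a nonzero integer vector `w` with
`DF(x) w = A w` for all `x`. -/
theorem exists_line_of_infinite {F : V n → V n} (hF : IsTorusSymp A F)
    (hinf : Set.Infinite {g : Matrix (Fin n ⊕ Fin n) (Fin n ⊕ Fin n) ℤ × V n |
      IsUnit g.1.det ∧ (∀ β, g.2 β ∈ Set.Ico (0 : ℝ) 1) ∧
        ∃ (M' : Matrix (Fin n ⊕ Fin n) (Fin n ⊕ Fin n) ℤ) (v' : V n),
          ∀ x, F (lin g.1 x + g.2) = lin M' (F x) + v'}) :
    ∃ w : Fin n ⊕ Fin n → ℤ, w ≠ 0 ∧ ∀ x, fderiv ℝ F x (lat w) = lin A (lat w) := by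
  classical
  set S : Set (Matrix (Fin n ⊕ Fin n) (Fin n ⊕ Fin n) ℤ × V n) :=
    {g | IsUnit g.1.det ∧ (∀ β, g.2 β ∈ Set.Ico (0 : ℝ) 1) ∧
        ∃ (M' : Matrix (Fin n ⊕ Fin n) (Fin n ⊕ Fin n) ℤ) (v' : V n),
          ∀ x, F (lin g.1 x + g.2) = lin M' (F x) + v'} with hS
  have : Infinite S := hinf.to_subtype
  obtain ⟨c, hc⟩ := Finite.exists_infinite_fiber fun g : S => red g.1.1
  -- symmetries with the same reduction modulo 3
  by_cases hex : ∃ g₁ g₂ : S, red g₁.1.1 = c ∧ red g₂.1.1 = c ∧ g₁.1.1 ≠ g₂.1.1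
  · obtain ⟨⟨⟨M₁, v₁⟩, hu₁, hw₁, M₁', v₁', h₁⟩, ⟨⟨M₂, v₂⟩, hu₂, hw₂, M₂', v₂', h₂⟩, hc1, hc2, hne⟩ :=
      hex
    simp only at hu₁ hu₂ h₁ h₂ hc1 hc2 hne
    obtain ⟨M', v', h⟩ := affine_quotient hF hu₂ h₁ h₂
    have hN1 := Matrix.mul_nonsing_inv _ hu₂
    have hN2 := Matrix.nonsing_inv_mul _ hu₂
    set M := M₁ * M₂⁻¹ with hM
    have hMne : M ≠ 1 := by
      intro h1
      apply hne
      have : M * M₂ = M₁ := by rw [hM, Matrix.mul_assoc, hN2, Matrix.mul_one]
      rw [← this, h1, Matrix.one_mul]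
    have hMred : red M = 1 := by
      rw [hM, map_mul, hc1, ← hc2, ← map_mul, hN1, map_one]
    have hMu : IsUnit M.det := by
      rw [hM, Matrix.det_mul]
      exact hu₁.mul (Matrix.isUnit_nonsing_inv_det _ hu₂)
    refine exists_line_of_affine hF hMu h fun j hj => ?_
    rintro ⟨k, hk⟩
    obtain ⟨u, hu⟩ := affine_iter M (v₁ - lin M v₂) j
    apply hMne
    refine minkowski j hMred hj ?_
    have h1 : ∀ x, lin (M ^ j) x + u = x + lat k := fun x => by rw [← hu, hk]
    have h2 : u = lat k := by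
      have := h1 0
      rwa [map_zero, zero_add, zero_add] at this
    have h3 : ∀ x, lin (M ^ j) x = x := fun x => by
      have := h1 x
      rw [h2] at this
      exact add_right_cancel this
    ext α β
    have h4 := congrFun (h3 (bv β)) α
    rw [lin_bv] at h4
    have h5 : (bv β : V n) α = ((1 : Matrix (Fin n ⊕ Fin n) (Fin n ⊕ Fin n) ℤ) α β : ℝ) := by
      rw [bv, Matrix.one_apply, Pi.single_apply]
      split_ifs <;> simp
    rw [h5] at h4
    exact_mod_cast h4
  · -- infinitely many translations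
    push Not at hex
    obtain ⟨g₀, hg₀⟩ := hc.nonempty
    have hg₀' : red g₀.1.1 = c := hg₀
    obtain ⟨⟨M₀, v₀⟩, hu₀, hv₀, M₀', v₀', h₀⟩ := g₀
    simp only at hu₀ hv₀ h₀ hg₀'
    have hN1 := Matrix.mul_nonsing_inv _ hu₀
    -- the differences
    have htr : ∀ g : S, red g.1.1 = c → ∃ u' : V n, ∀ x,
        F (lin (1 : Matrix (Fin n ⊕ Fin n) (Fin n ⊕ Fin n) ℤ) x + (g.1.2 - v₀)) =
          lin 1 (F x) + u' := by
      intro g hg
      have e1 := hex g ⟨⟨M₀, v₀⟩, hu₀, hv₀, M₀', v₀', h₀⟩ hg hg₀'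
      obtain ⟨⟨M₁, v₁⟩, hu₁, hv₁, M₁', v₁', h₁⟩ := g
      simp only at e1 h₁ ⊢
      subst e1
      obtain ⟨M', v', h⟩ := affine_quotient hF hu₀ h₁ h₀
      rw [hN1, lin_one] at h
      have hlp := linear_parts hF h
      obtain ⟨B, hAB, hBA⟩ := exists_inv_matrix hF.mem
      rw [Matrix.mul_one] at hlp
      have hM' : M' = 1 := by
        have h2 : A * B = M' * A * B := by rw [← hlp]
        rw [Matrix.mul_assoc, hAB, Matrix.mul_one] at h2
        exact h2.symm
      rw [hM'] at h
      exact ⟨v', h⟩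
    set Λ : AddSubgroup (Fin n ⊕ Fin n → ℤ) :=
      { carrier := {k | ∀ g : S, red g.1.1 = c → ∃ m : ℤ, ∑ β, (k β : ℝ) * (g.1.2 - v₀) β = m}
        add_mem' := by
          intro a b ha hb g hg
          obtain ⟨m, hm⟩ := ha g hg
          obtain ⟨m', hm'⟩ := hb g hg
          refine ⟨m + m', ?_⟩
          simp only [Pi.add_apply]
          push_cast
          simp only [add_mul, Finset.sum_add_distrib, hm, hm']
        zero_mem' := fun g _ => ⟨0, by simp⟩
        neg_mem' := by
          intro a ha g hg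
          obtain ⟨m, hm⟩ := ha g hg
          refine ⟨-m, ?_⟩
          simp only [Pi.neg_apply]
          push_cast
          simp only [neg_mul, Finset.sum_neg_distrib, hm] } with hΛ
    have hsupp : ∀ α k, hat (perp A F hF.smooth hF.equivariant α) k ≠ 0 →
        (fun β => k (ix β)) ∈ Λ := by
      intro α k hk g hg
      obtain ⟨u', hu'⟩ := htr g hg
      exact supp_of_translation hF hu' α k hk
    rcases support_dichotomy hF Λ hsupp with h1 | ⟨N, hN, h2⟩
    · exact h1
    · exfalso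
      have hint : ∀ g : S, red g.1.1 = c → ∀ β, ∃ m : ℤ, (N : ℝ) * (g.1.2 - v₀) β = m := by
        intro g hg β
        obtain ⟨m, hm⟩ := h2 (Pi.single β 1) g hg
        refine ⟨m, ?_⟩
        rw [Finset.sum_eq_single β] at hm
        · simpa using hm
        · intro γ _ hγ
          simp [hγ]
        · intro h'; exact absurd (Finset.mem_univ β) h'
      have hNr : (N : ℝ) ≠ 0 := by exact_mod_cast hN
      -- the numerators
      have hfin : Set.Finite {m : Fin n ⊕ Fin n → ℤ | ∀ β, m β ∈ Set.Icc (-|N|) |N|} :=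
        Set.Finite.pi' fun _ => Set.finite_Icc _ _
      set num : ((fun g : S => red g.1.1) ⁻¹' {c}) → (Fin n ⊕ Fin n → ℤ) := fun g β =>
        (hint g.1 g.2 β).choose with hnum
      have hnumS : ∀ g β, (N : ℝ) * (g.1.1.2 - v₀) β = num g β := fun g β =>
        (hint g.1 g.2 β).choose_spec
      have hmem : ∀ g, num g ∈ {m : Fin n ⊕ Fin n → ℤ | ∀ β, m β ∈ Set.Icc (-|N|) |N|} := by
        intro g β
        have h3 := hnumS g β
        have h4 := g.1.2.2.1 β
        have h5 := hv₀ β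
        have h6 : |(g.1.1.2 - v₀) β| ≤ 1 := by
          rw [Pi.sub_apply, abs_le]
          constructor <;> linarith [h4.1, h4.2, h5.1, h5.2]
        have h7 : |((num g β : ℤ) : ℝ)| ≤ |(N : ℝ)| := by
          rw [← h3, abs_mul]
          calc |(N : ℝ)| * |(g.1.1.2 - v₀) β| ≤ |(N : ℝ)| * 1 :=
                mul_le_mul_of_nonneg_left h6 (abs_nonneg _)
            _ = |(N : ℝ)| := mul_one _
        have h8 : |num g β| ≤ |N| := by exact_mod_cast h7
        exact abs_le.1 h8
      have hinj : Function.Injective num := by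
        intro g₁ g₂ h3
        have e1 : g₁.1.1.1 = g₂.1.1.1 := hex g₁.1 g₂.1 g₁.2 g₂.2
        have e2 : g₁.1.1.2 = g₂.1.1.2 := by
          funext β
          have a1 := hnumS g₁ β
          have a2 := hnumS g₂ β
          rw [h3] at a1
          have a3 := mul_left_cancel₀ hNr (a1.trans a2.symm)
          simp only [Pi.sub_apply] at a3
          linarith
        exact Subtype.ext (Subtype.ext (Prod.ext e1 e2))
      have := hfin.to_subtype
      have : Infinite ((fun g : S => red g.1.1) ⁻¹' {c}) := hc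
      exact not_injective_infinite_finite (fun g : ((fun g : S => red g.1.1) ⁻¹' {c}) =>
        (⟨num g, hmem g⟩ : {m : Fin n ⊕ Fin n → ℤ | ∀ β, m β ∈ Set.Icc (-|N|) |N|}))
        fun g₁ g₂ h3 => hinj (congrArg Subtype.val h3)

end Pool.Agent.Helper597_torsymp
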