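import Mathlib

/-!
# Two lemmas on integer vectors
-/

set_option autoImplicit false

open Set

noncomputable section

namespace Pool.Agent.Helper597_torsymp

/-- A subgroup of `ℤ^ι` is either annihilated by a nonzero integer vector, or it has finite
index. -/
theorem subgroup_dichotomy {ι : Type} [Fintype ι] [DecidableEq ι] (Λ : AddSubgroup (ι → ℤ)) :
    (∃ w : ι → ℤ, w ≠ 0 ∧ ∀ k ∈ Λ, ∑ i, k i * w i = 0) ∨
      ∃ N : ℤ, N ≠ 0 ∧ ∀ k : ι → ℤ, N • k ∈ Λ := by
  set c : (ι → ℤ) → (ι → ℚ) := fun k i => (k i : ℚ) with hc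
  set U : Submodule ℚ (ι → ℚ) := Submodule.span ℚ (c '' (Λ : Set (ι → ℤ))) with hU
  by_cases h : U = ⊤
  · right
    have key : ∀ v ∈ U, ∃ N : ℤ, N ≠ 0 ∧ ∃ k ∈ Λ, (N : ℚ) • v = c k := by
      intro v hv
      rw [hU] at hv
      induction hv using Submodule.span_induction with
      | mem x hx =>
        obtain ⟨k, hk, rfl⟩ := hx
        exact ⟨1, one_ne_zero, k, hk, by simp⟩
      | zero => exact ⟨1, one_ne_zero, 0, Λ.zero_mem, by funext i; simp [hc]⟩
      | add x y hx hy ihx ihy =>
        obtain ⟨N, hN, k, hk, e1⟩ := ihx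
        obtain ⟨N', hN', k', hk', e2⟩ := ihy
        refine ⟨N * N', mul_ne_zero hN hN', N' • k + N • k', Λ.add_mem (Λ.zsmul_mem hk _)
          (Λ.zsmul_mem hk' _), ?_⟩
        funext i
        have f1 := congrFun e1 i
        have f2 := congrFun e2 i
        simp only [hc, Pi.smul_apply, smul_eq_mul, Pi.add_apply] at f1 f2 ⊢
        push_cast
        linear_combination (N' : ℚ) * f1 + (N : ℚ) * f2
      | smul a x hx ih =>
        obtain ⟨N, hN, k, hk, e1⟩ := ih
        refine ⟨N * a.den, mul_ne_zero hN (by exact_mod_cast a.den_nz), a.num • k,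
          Λ.zsmul_mem hk _, ?_⟩
        funext i
        have f1 := congrFun e1 i
        simp only [hc, Pi.smul_apply, smul_eq_mul] at f1 ⊢
        push_cast
        have f3 : a * (a.den : ℚ) = a.num := Rat.mul_den_eq_num a
        linear_combination (a.num : ℚ) * f1 + (N : ℚ) * x i * f3
    have h1 : ∀ i, ∃ N : ℤ, N ≠ 0 ∧ N • (Pi.single i 1 : ι → ℤ) ∈ Λ := by
      intro i
      obtain ⟨N, hN, k, hk, e⟩ := key (Pi.single i 1) (by rw [h]; trivial)
      refine ⟨N, hN, ?_⟩
      have : N • (Pi.single i 1 : ι → ℤ) = k := by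
        funext l
        have e' := congrFun e l
        simp only [hc, Pi.smul_apply, smul_eq_mul] at e' ⊢
        have e2 : ((N * (Pi.single i 1 : ι → ℤ) l : ℤ) : ℚ) = (k l : ℚ) := by
          rw [← e']
          push_cast
          congr 1
          by_cases hl : l = i
          · subst hl; simp
          · simp [hl]
        exact_mod_cast e2
      rw [this]
      exact hk
    choose N hN hNk using h1
    refine ⟨∏ i, N i, Finset.prod_ne_zero_iff.2 fun i _ => hN i, fun k => ?_⟩
    have e : (∏ i, N i) • k = ∑ i, (k i * ∏ j ∈ Finset.univ.erase i, N j) •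
        (N i • (Pi.single i 1 : ι → ℤ)) := by
      funext l
      rw [Finset.sum_apply, Finset.sum_eq_single l]
      · simp only [Pi.smul_apply, smul_eq_mul, Pi.single_eq_same, mul_one]
        rw [← Finset.mul_prod_erase _ _ (Finset.mem_univ l)]
        ring
      · intro i _ hi
        simp [Ne.symm hi]
      · intro h; exact absurd (Finset.mem_univ l) h
    rw [e]
    exact Λ.sum_mem fun i _ => Λ.zsmul_mem (hNk i) _
  · left
    obtain ⟨f, hf, hUf⟩ := Submodule.exists_le_ker_of_lt_top U (lt_top_iff_ne_top.2 h)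
    set w : ι → ℚ := fun i => f (Pi.single i 1) with hw
    have hfw : ∀ v : ι → ℚ, f v = ∑ i, v i * w i := by
      intro v
      have : v = ∑ i, v i • (Pi.single i 1 : ι → ℚ) := by
        funext l
        simp [Finset.sum_apply, Pi.single_apply]
      conv_lhs => rw [this]
      rw [map_sum]
      exact Finset.sum_congr rfl fun i _ => by rw [map_smul]; rfl
    have hw0 : ∃ i, w i ≠ 0 := by
      by_contra hcon
      push Not at hcon
      apply hf
      refine LinearMap.ext fun v => ?_
      rw [hfw]
      simp [hcon]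
    set D : ℤ := ∏ i, ((w i).den : ℤ) with hD
    have hD0 : D ≠ 0 := Finset.prod_ne_zero_iff.2 fun i _ => by exact_mod_cast (w i).den_nz
    have hint : ∀ i, ∃ m : ℤ, (m : ℚ) = D * w i := by
      intro i
      refine ⟨(w i).num * ∏ j ∈ Finset.univ.erase i, ((w j).den : ℤ), ?_⟩
      have f3 : w i * ((w i).den : ℚ) = (w i).num := Rat.mul_den_eq_num (w i)
      rw [hD, ← Finset.mul_prod_erase _ _ (Finset.mem_univ i)]
      push_cast
      rw [← f3]
      ring
    choose m hm using hint
    refine ⟨m, ?_, fun k hk => ?_⟩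
    · obtain ⟨i, hi⟩ := hw0
      intro h0
      have h1 := hm i
      rw [h0] at h1
      simp only [Pi.zero_apply, Int.cast_zero] at h1
      have := (mul_eq_zero.1 h1.symm).resolve_left (by exact_mod_cast hD0)
      exact hi this
    · have h1 : f (c k) = 0 := hUf (Submodule.subset_span ⟨k, hk, rfl⟩)
      rw [hfw] at h1
      have h2 : ((∑ i, k i * m i : ℤ) : ℚ) = D * ∑ i, c k i * w i := by
        push_cast
        rw [Finset.mul_sum]
        refine Finset.sum_congr rfl fun i _ => ?_
        rw [hm]
        simp only [hc]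
        ring
      rw [h1, mul_zero] at h2
      exact_mod_cast h2

/-- an integer matrix of determinant one which kills the first component of a vector -/
theorem exists_sl2 (a b : ℤ) : ∃ s t u v : ℤ, s * v - t * u = 1 ∧ s * a + t * b = 0 ∧
    (a ≠ 0 ∨ b ≠ 0 → u * a + v * b ≠ 0) := by
  by_cases h : a = 0 ∧ b = 0
  · exact ⟨1, 0, 0, 1, by ring, by rw [h.1, h.2]; ring, fun h' => by
      rcases h' with h' | h'
      · exact absurd h.1 h'
      · exact absurd h.2 h'⟩
  · have hg : Int.gcd a b ≠ 0 := by
      rw [Ne, Int.gcd_eq_zero_iff]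
      exact h
    have hg' : ((Int.gcd a b : ℕ) : ℤ) ≠ 0 := by exact_mod_cast hg
    obtain ⟨a', ha'⟩ := Int.gcd_dvd_left a b
    obtain ⟨b', hb'⟩ := Int.gcd_dvd_right a b
    have hbez := Int.gcd_eq_gcd_ab a b
    set g : ℤ := ((Int.gcd a b : ℕ) : ℤ) with hgdef
    set x := Int.gcdA a b
    set y := Int.gcdB a b
    have h1 : a' * x + b' * y = 1 := by
      have : g * (a' * x + b' * y) = g * 1 := by
        rw [mul_one]
        conv_rhs => rw [hbez]
        rw [mul_add, ← mul_assoc, ← mul_assoc, ← ha', ← hb']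
      exact mul_left_cancel₀ hg' this
    refine ⟨b', -a', x, y, by linear_combination h1, ?_, fun _ => ?_⟩
    · rw [ha', hb']; ring
    · have : x * a + y * b = g := by rw [hbez]; ring
      rw [this]
      exact hg'

end Pool.Agent.Helper597_torsymp
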