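import Mathlib

/-!
# Symplectomorphisms of the standard torus `ℝ^{2n} / ℤ^{2n}`

Lifts of symplectomorphisms to `ℝ^{2n}`, and symplectic isotopies.
-/

set_option autoImplicit false

open Set Filter Topology
open scoped ContDiff

noncomputable section

namespace Pool.Agent.Helper597_torsymp

/-- `ℝ^{2n}`, with coordinates `x_i = v (inl i)` and `y_i = v (inr i)` -/
abbrev V (n : ℕ) : Type := Fin n ⊕ Fin n → ℝ

/-- the standard symplectic form `∑ dx_i ∧ dy_i` of `ℝ^{2n}` -/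
def om {n : ℕ} (v w : V n) : ℝ :=
  ∑ i, (v (Sum.inl i) * w (Sum.inr i) - v (Sum.inr i) * w (Sum.inl i))

/-- the lattice vector `k ∈ ℤ^{2n}` as a vector of `ℝ^{2n}` -/
def lat {n : ℕ} (k : Fin n ⊕ Fin n → ℤ) : V n := fun i => (k i : ℝ)

/-- `F : ℝ^{2n} → ℝ^{2n}` is the lift of a symplectomorphism of the torus `ℝ^{2n} / ℤ^{2n}` which
acts on the lattice `ℤ^{2n}` by the integer matrix `A`: a diffeomorphism with
`F (x + k) = F x + A k` for all `k ∈ ℤ^{2n}` and with symplectic derivatives -/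
structure IsTorusSymp {n : ℕ} (A : Matrix (Fin n ⊕ Fin n) (Fin n ⊕ Fin n) ℤ)
    (F : V n → V n) : Prop where
  smooth : ContDiff ℝ ∞ F
  inverse : ∃ H : V n → V n, ContDiff ℝ ∞ H ∧ Function.LeftInverse H F ∧ Function.RightInverse H F
  equivariant : ∀ (x : V n) (k : Fin n ⊕ Fin n → ℤ), F (x + lat k) = F x + lat (A.mulVec k)
  symplectic : ∀ x u v, om (fderiv ℝ F x u) (fderiv ℝ F x v) = om u v

/-- the symplectomorphisms with lifts `F₀` and `F₁`, which act on the lattice by `A`, are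
symplectically isotopic: there is a smooth family of lifts of symplectomorphisms `G t`,
`t ∈ [0, 1]`, from `F₀` to `F₁` -/
def SymplecticallyIsotopic {n : ℕ} (A : Matrix (Fin n ⊕ Fin n) (Fin n ⊕ Fin n) ℤ)
    (F₀ F₁ : V n → V n) : Prop :=
  ∃ G : ℝ → V n → V n, ContDiff ℝ ∞ (fun p : ℝ × V n => G p.1 p.2) ∧ G 0 = F₀ ∧ G 1 = F₁ ∧
    ∀ t ∈ Icc (0 : ℝ) 1, IsTorusSymp A (G t)

end Pool.Agent.Helper597_torsymp
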