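import Pool.Agent.Helper597_torsymp.Basic

/-!
# Linked and unopposed symplectomorphisms
-/

set_option autoImplicit false

open Set Filter Topology
open scoped ContDiff

noncomputable section

namespace Pool.Agent.Helper597_torsymp

variable {n : ℕ}

/-- `F₀` and `F₁` are linked: there is a smooth path `Q s`, `0 ≤ s ≤ 1`, of linear maps with
`Q 0 = 0` and `ω(Q s u, v) + ω(u, Q s v) = c s ω(u, v)`, `c 0 = 0`, `c 1 = 1`, such that all linear
maps `DF₀(x) + Q s (DF₁(x) - DF₀(x))` are injective -/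
def Linked (F₀ F₁ : V n → V n) : Prop :=
  ∃ (Q : ℝ → V n →L[ℝ] V n) (c : ℝ → ℝ), ContDiff ℝ ∞ Q ∧ ContDiff ℝ ∞ c ∧ Q 0 = 0 ∧ c 0 = 0 ∧
    c 1 = 1 ∧
    ∀ s ∈ Icc (0 : ℝ) 1, (∀ u v, om (Q s u) v + om u (Q s v) = c s * om u v) ∧
      ∀ x v, fderiv ℝ F₀ x v + Q s (fderiv ℝ F₁ x v - fderiv ℝ F₀ x v) = 0 → v = 0

/-- no vector is mapped to opposite directions -/
def Unopposed (F₀ F₁ : V n → V n) : Prop :=
  ∀ x v, ∀ r : ℝ, 0 < r → fderiv ℝ F₁ x v = -r • fderiv ℝ F₀ x v → v = 0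

end Pool.Agent.Helper597_torsymp
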