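import Pool.Agent.Helper597_fou.Asm
import Pool.Agent.Helper597_torsymp.Iso

/-!
# Symplectomorphisms of the torus which preserve all but one of the coordinates `x_i`
-/

set_option autoImplicit false
set_option linter.unusedSectionVars false

open Set Filter Topology
open scoped ContDiff

noncomputable section

namespace Pool.Agent.Helper597_torsymp

open Pool.Agent.Helper597_fou Pool.Agent.Helper597_fou.PS

variable {n : ℕ}

/-! ### Bilinear algebra -/

/-- the symplectic form as a bilinear map -/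
def omB : V n →ₗ[ℝ] V n →ₗ[ℝ] ℝ :=
  LinearMap.mk₂ ℝ om om_add_left om_smul_left om_add_right om_smul_right

theorem omB_apply (v w : V n) : omB v w = om v w := rfl

/-- the basis vectors -/
def bv (α : Fin n ⊕ Fin n) : V n := Pi.single α 1

theorem symplectic_of_basis (L : V n →L[ℝ] V n)
    (h : ∀ β γ, om (L (bv β)) (L (bv γ)) = om (bv β) (bv γ)) (u v : V n) :
    om (L u) (L v) = om u v := by
  have h1 : (omB.compl₁₂ (L : V n →ₗ[ℝ] V n) (L : V n →ₗ[ℝ] V n)) = omB := by
    refine LinearMap.ext_basis (Pi.basisFun ℝ (Fin n ⊕ Fin n)) (Pi.basisFun ℝ (Fin n ⊕ Fin n))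
      fun β γ => ?_
    simp only [Pi.basisFun_apply, LinearMap.compl₁₂_apply, ContinuousLinearMap.coe_coe, omB_apply]
    exact h β γ
  have h2 := LinearMap.congr_fun (LinearMap.congr_fun h1 u) v
  simpa only [LinearMap.compl₁₂_apply, ContinuousLinearMap.coe_coe, omB_apply] using h2

theorem om_self (v : V n) : om v v = 0 := by
  unfold om
  exact Finset.sum_eq_zero fun i _ => by ring

theorem om_swap (v w : V n) : om v w = -om w v := by
  unfold om
  rw [← Finset.sum_neg_distrib]
  exact Finset.sum_congr rfl fun i _ => by ring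

theorem om_bv_inr (i : Fin n) (w : V n) : om (bv (Sum.inr i)) w = -w (Sum.inl i) := by
  simp [om, bv, Pi.single_apply]

theorem om_bv_inl (i : Fin n) (w : V n) : om (bv (Sum.inl i)) w = w (Sum.inr i) := by
  simp [om, bv, Pi.single_apply]

/-- the contribution of the coordinates `x_i`, `i ≠ a` -/
def cN (a : Fin n) (β : Fin n ⊕ Fin n) (w : V n) : ℝ :=
  Sum.elim (fun k => if k = a then 0 else w (Sum.inr k)) (fun _ => 0) β

/-- the symplectic form on vectors with elementary `x_i` components, `i ≠ a` -/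
theorem om_special (a : Fin n) {β γ : Fin n ⊕ Fin n} {v w : V n}
    (hv : ∀ i, i ≠ a → v (Sum.inl i) = if β = Sum.inl i then 1 else 0)
    (hw : ∀ i, i ≠ a → w (Sum.inl i) = if γ = Sum.inl i then 1 else 0) :
    om v w = v (Sum.inl a) * w (Sum.inr a) - v (Sum.inr a) * w (Sum.inl a) + cN a β w -
      cN a γ v := by
  have key : ∀ (β : Fin n ⊕ Fin n) (v w : V n),
      (∀ i, i ≠ a → v (Sum.inl i) = if β = Sum.inl i then 1 else 0) →
      ∑ i ∈ Finset.univ.erase a, v (Sum.inl i) * w (Sum.inr i) = cN a β w := by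
    intro β v w hv
    rcases β with k | k
    · by_cases hk : k = a
      · subst hk
        simp only [cN, Sum.elim_inl, if_true]
        refine Finset.sum_eq_zero fun i hi => ?_
        have hik : i ≠ k := (Finset.mem_erase.1 hi).1
        rw [hv i hik, if_neg (by simpa using hik.symm), zero_mul]
      · simp only [cN, Sum.elim_inl, hk, if_false]
        rw [Finset.sum_eq_single k]
        · rw [hv k hk, if_pos rfl, one_mul]
        · intro i hi hik
          rw [hv i (Finset.mem_erase.1 hi).1, if_neg (by simpa using hik.symm), zero_mul]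
        · intro h
          exact absurd (Finset.mem_erase.2 ⟨hk, Finset.mem_univ _⟩) h
    · simp only [cN, Sum.elim_inr]
      refine Finset.sum_eq_zero fun i hi => ?_
      rw [hv i (Finset.mem_erase.1 hi).1, if_neg (by simp), zero_mul]
  have h1 := key β v w hv
  have h2 := key γ w v hw
  unfold om
  rw [← Finset.add_sum_erase _ _ (Finset.mem_univ a), Finset.sum_sub_distrib, h1]
  have h3 : ∑ i ∈ Finset.univ.erase a, v (Sum.inr i) * w (Sum.inl i) = cN a γ v := by
    rw [← h2]
    exact Finset.sum_congr rfl fun i _ => mul_comm _ _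
  rw [h3]
  ring

/-! ### The embedding `ℝ × ℝ^{2n} = ℝ^{2n+1}` -/

/-- the point with time `t` and position `v` -/
def jn (t : ℝ) (v : V n) : E (n + n) := Fin.cons t fun i => v (finSumFinEquiv.symm i)

@[simp] theorem jn_zero (t : ℝ) (v : V n) : jn t v 0 = t := rfl

@[simp] theorem jn_ix (t : ℝ) (v : V n) (α : Fin n ⊕ Fin n) : jn t v (ix α) = v α := by
  simp [jn, ix]

theorem ix_surj (i : Fin (n + n + 1)) (hi : i ≠ 0) : ∃ α : Fin n ⊕ Fin n, ix α = i := by
  obtain ⟨j, rfl⟩ := Fin.exists_succ_eq.2 hi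
  exact ⟨finSumFinEquiv.symm j, by simp [ix]⟩

theorem ext_ix {x y : E (n + n)} (h0 : x 0 = y 0) (h : ∀ α, x (ix α) = y (ix α)) : x = y := by
  funext i
  by_cases hi : i = 0
  · rw [hi, h0]
  · obtain ⟨α, rfl⟩ := ix_surj i hi
    exact h α

theorem jn_contDiff : ContDiff ℝ ∞ fun p : ℝ × V n => jn p.1 p.2 := by
  rw [contDiff_pi]
  intro i
  by_cases hi : i = 0
  · subst hi
    exact contDiff_fst
  · obtain ⟨α, rfl⟩ := ix_surj i hi
    simp only [jn_ix]
    exact (contDiff_apply ℝ ℝ α).comp contDiff_snd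

theorem jn_add (t s : ℝ) (v w : V n) : jn (t + s) (v + w) = jn t v + jn s w :=
  ext_ix rfl fun α => by simp

/-- the lattice vector -/
def jk (k : Fin n ⊕ Fin n → ℤ) : K (n + n) := Fin.cons 0 fun i => k (finSumFinEquiv.symm i)

theorem jk_ix (k : Fin n ⊕ Fin n → ℤ) (α : Fin n ⊕ Fin n) : jk k (ix α) = k α := by
  simp [jk, ix]

theorem jn_lat (t : ℝ) (v : V n) (k : Fin n ⊕ Fin n → ℤ) :
    jn t (v + lat k) = jn t v + il (jk k) := by
  refine ext_ix (by simp [il, jk]) fun α => ?_
  rw [Pi.add_apply, jn_ix, jn_ix, il, jk_ix]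
  rfl

/-- the linear part -/
def jnL : V n →L[ℝ] E (n + n) := LinearMap.toContinuousLinearMap
  { toFun := jn 0
    map_add' := fun v w => by
      have := jn_add 0 0 v w
      rwa [add_zero] at this
    map_smul' := fun c v => ext_ix (by simp) fun α => by simp }

theorem jnL_apply (v : V n) : jnL v = jn 0 v := rfl

theorem jn_eq (t : ℝ) (v : V n) : jn t v = jn t 0 + jnL v := by
  rw [jnL_apply, ← jn_add, add_zero, zero_add]

theorem hasFDerivAt_jn (t : ℝ) (v : V n) : HasFDerivAt (jn t) (jnL : V n →L[ℝ] E (n + n)) v := by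
  have h : (jn t : V n → E (n + n)) = fun v => jn t 0 + jnL v := funext fun v => jn_eq t v
  rw [h]
  exact (jnL.hasFDerivAt (x := v)).const_add (jn t 0)

theorem jnL_bv (α : Fin n ⊕ Fin n) : jnL (bv α) = (Pi.single (ix α) 1 : E (n + n)) := by
  rw [jnL_apply]
  refine ext_ix ?_ fun β => ?_
  · simp [Ne.symm (ix_ne_zero α)]
  · rw [jn_ix, bv]
    by_cases h : β = α
    · subst h; simp
    · rw [Pi.single_eq_of_ne h, Pi.single_eq_of_ne (ix_ne h)]

/-- the function at time `t` -/
def ev (t : ℝ) (f : PS (n + n)) (v : V n) : ℝ := f.1 (jn t v)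

theorem hasFDerivAt_ev (t : ℝ) (f : PS (n + n)) (v : V n) :
    HasFDerivAt (ev t f) ((fderiv ℝ f.1 (jn t v)).comp jnL) v :=
  (f.diff (jn t v)).hasFDerivAt.comp v (hasFDerivAt_jn t v)

theorem fderiv_ev_bv (t : ℝ) (f : PS (n + n)) (v : V n) (α : Fin n ⊕ Fin n) :
    fderiv ℝ (ev t f) v (bv α) = ev t (dd (ix α) f) v := by
  rw [(hasFDerivAt_ev t f v).fderiv, ContinuousLinearMap.comp_apply, jnL_bv]
  rfl

theorem ev_add (t : ℝ) (f g : PS (n + n)) (v : V n) : ev t (f + g) v = ev t f v + ev t g v := rfl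
theorem ev_sub (t : ℝ) (f g : PS (n + n)) (v : V n) : ev t (f - g) v = ev t f v - ev t g v := rfl
theorem ev_mul (t : ℝ) (f g : PS (n + n)) (v : V n) : ev t (f * g) v = ev t f v * ev t g v := rfl
theorem ev_one (t : ℝ) (v : V n) : ev t (1 : PS (n + n)) v = 1 := rfl
theorem ev_zero (t : ℝ) (v : V n) : ev t (0 : PS (n + n)) v = 0 := rfl

theorem ev_sl (t c : ℝ) (f : PS (n + n)) (v : V n) : ev t (sl 0 c f) v = ev c f v := by
  unfold ev
  rw [sl_val]
  refine congrArg f.1 (ext_ix ?_ fun α => ?_)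
  · simp [rs]
  · simp [rs, ix_ne_zero]

/-! ### The family of maps -/

/-- the family of maps with displacement `U` -/
def fam (U : Fin n ⊕ Fin n → PS (n + n)) (t : ℝ) (v : V n) : V n := fun α => v α + ev t (U α) v

theorem fam_contDiff (U : Fin n ⊕ Fin n → PS (n + n)) :
    ContDiff ℝ ∞ fun p : ℝ × V n => fam U p.1 p.2 := by
  rw [contDiff_pi]
  intro α
  exact ((contDiff_apply ℝ ℝ α).comp contDiff_snd).add ((U α).smooth.comp jn_contDiff)

theorem fam_lat (U : Fin n ⊕ Fin n → PS (n + n)) (t : ℝ) (v : V n) (k : Fin n ⊕ Fin n → ℤ) :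
    fam U t (v + lat k) = fam U t v + lat k := by
  funext α
  unfold fam ev
  rw [jn_lat, (U α).per]
  simp only [Pi.add_apply]
  ring

theorem fderiv_fam_bv (U : Fin n ⊕ Fin n → PS (n + n)) (t : ℝ) (v : V n) (α β : Fin n ⊕ Fin n) :
    fderiv ℝ (fam U t) v (bv β) α = (if α = β then 1 else 0) + ev t (dd (ix β) (U α)) v := by
  have h : HasFDerivAt (fam U t) (ContinuousLinearMap.pi fun α =>
      (ContinuousLinearMap.proj (R := ℝ) (φ := fun _ : Fin n ⊕ Fin n => ℝ) α) +
        fderiv ℝ (ev t (U α)) v) v := by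
    rw [hasFDerivAt_pi]
    intro α
    exact ((ContinuousLinearMap.proj (R := ℝ) (φ := fun _ : Fin n ⊕ Fin n => ℝ)
      α).hasFDerivAt (x := v)).add (hasFDerivAt_ev t (U α) v).differentiableAt.hasFDerivAt
  rw [h.fderiv]
  simp only [ContinuousLinearMap.coe_pi', _root_.add_apply, ContinuousLinearMap.proj_apply]
  rw [fderiv_ev_bv]
  congr 1
  simp [bv, Pi.single_apply]

theorem ev_th1 (p k : Fin (n + n + 1)) (f g : PS (n + n)) (t : ℝ) (v : V n) :
    ev t (th1 p k f g) v = ev t (dd k g) v * (1 + ev t (dd p f) v) -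
      ev t (dd k f) v * ev t (dd p g) v := rfl

theorem ev_th2 (q k : Fin (n + n + 1)) (f g : PS (n + n)) (t : ℝ) (v : V n) :
    ev t (th2 q k f g) v = ev t (dd k g) v * ev t (dd q f) v -
      ev t (dd k f) v * (1 + ev t (dd q g) v) := rfl

theorem ev_J (p q : Fin (n + n + 1)) (f g : PS (n + n)) (t : ℝ) (v : V n) :
    ev t (J p q f g) v = (1 + ev t (dd p f) v) * (1 + ev t (dd q g) v) -
      ev t (dd q f) v * ev t (dd p g) v := rfl

/-- the members of the family are symplectic -/
theorem fam_symplectic {a : Fin n} {U : Fin n ⊕ Fin n → PS (n + n)} (h : Sd a U) (t : ℝ)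
    (x u v : V n) : om (fderiv ℝ (fam U t) x u) (fderiv ℝ (fam U t) x v) = om u v := by
  refine symplectic_of_basis (fderiv ℝ (fam U t) x) (fun β γ => ?_) u v
  -- the components
  have hm := fderiv_fam_bv U t x
  have hx : ∀ β i, i ≠ a → fderiv ℝ (fam U t) x (bv β) (Sum.inl i) =
      if β = Sum.inl i then 1 else 0 := by
    intro β i hi
    rw [hm, h.zero i hi, dd_zero, ev_zero, add_zero]
    by_cases h' : β = Sum.inl i
    · rw [if_pos h', if_pos h'.symm]
    · rw [if_neg h', if_neg (fun h'' => h' h''.symm)]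
  have hy : ∀ k, k ≠ a → fderiv ℝ (fam U t) x (bv (Sum.inr k)) = bv (Sum.inr k) := by
    intro k hk
    funext α
    rw [hm, h.indep k hk, ev_zero, add_zero, bv, Pi.single_apply]
  have hsym : ∀ β γ, om (fderiv ℝ (fam U t) x (bv β)) (fderiv ℝ (fam U t) x (bv γ)) =
      om (bv β) (bv γ) → om (fderiv ℝ (fam U t) x (bv γ)) (fderiv ℝ (fam U t) x (bv β)) =
      om (bv γ) (bv β) := by
    intro β γ h'
    rw [om_swap, h', ← om_swap]
  -- the vectors `e_{y_k}`
  have hyk : ∀ k, k ≠ a → ∀ γ, om (fderiv ℝ (fam U t) x (bv (Sum.inr k)))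
      (fderiv ℝ (fam U t) x (bv γ)) = om (bv (Sum.inr k)) (bv γ) := by
    intro k hk γ
    rw [hy k hk, om_bv_inr, om_bv_inr, hx γ k hk]
    congr 1
    rw [bv, Pi.single_apply]
    by_cases h' : γ = Sum.inl k
    · rw [if_pos h', if_pos h'.symm]
    · rw [if_neg h', if_neg (fun h'' => h' h''.symm)]
  -- the pair `e_{x_a}, e_{y_a}`
  have hab : om (fderiv ℝ (fam U t) x (bv (Sum.inl a))) (fderiv ℝ (fam U t) x (bv (Sum.inr a))) =
      om (bv (Sum.inl a)) (bv (Sum.inr a)) := by
    rw [om_special a (hx _) (hx _), om_bv_inl, hm, hm, hm, hm]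
    have e := congrFun (congrArg (ev t) h.jac) x
    rw [ev_J, ev_one] at e
    simp only [cN, Sum.elim_inl, Sum.elim_inr, if_true, bv, Pi.single_eq_same, reduceCtorEq,
      if_false]
    linear_combination e
  -- the pairs `e_{x_k}, e_{x_a}`
  have hka : ∀ k, k ≠ a → om (fderiv ℝ (fam U t) x (bv (Sum.inl k)))
      (fderiv ℝ (fam U t) x (bv (Sum.inl a))) = om (bv (Sum.inl k)) (bv (Sum.inl a)) := by
    intro k hk
    rw [om_special a (hx _) (hx _), om_bv_inl]
    simp only [cN, Sum.elim_inl, if_true, if_neg hk]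
    rw [hm, hm, hm, hm, hm]
    have e := congrFun (congrArg (ev t) (h.e1 k hk)) x
    rw [ev_th1] at e
    simp only [bv, Sum.inl.injEq, if_neg (Ne.symm hk), reduceCtorEq, if_false, if_true, ne_eq,
      not_false_eq_true, Pi.single_eq_of_ne]
    linear_combination e
  have hkb : ∀ k, k ≠ a → om (fderiv ℝ (fam U t) x (bv (Sum.inl k)))
      (fderiv ℝ (fam U t) x (bv (Sum.inr a))) = om (bv (Sum.inl k)) (bv (Sum.inr a)) := by
    intro k hk
    rw [om_special a (hx _) (hx _), om_bv_inl]
    simp only [cN, Sum.elim_inl, Sum.elim_inr, if_neg hk]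
    rw [hm, hm, hm, hm, hm]
    have e := congrFun (congrArg (ev t) (h.e2 k hk)) x
    rw [ev_th2] at e
    have e3 : (bv (Sum.inr a) : V n) (Sum.inr k) = 0 := by
      rw [bv, Pi.single_eq_of_ne (by simpa using hk)]
    rw [e3]
    simp only [Sum.inr.injEq, Sum.inl.injEq, if_neg hk, if_neg (Ne.symm hk), reduceCtorEq,
      if_false, if_true]
    linear_combination e
  have hkl : ∀ k l, k ≠ a → l ≠ a → om (fderiv ℝ (fam U t) x (bv (Sum.inl k)))
      (fderiv ℝ (fam U t) x (bv (Sum.inl l))) = om (bv (Sum.inl k)) (bv (Sum.inl l)) := by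
    intro k l hk hl
    rw [om_special a (hx _) (hx _), om_bv_inl]
    simp only [cN, Sum.elim_inl, if_neg hk, if_neg hl]
    rw [hm, hm, hm, hm, hm, hm]
    have e := congrFun (congrArg (ev t) (h.e3 k l hk hl)) x
    rw [ev_sub, ev_add, ev_sub, ev_mul, ev_mul, ev_zero] at e
    simp only [bv, Sum.inl.injEq, if_neg (Ne.symm hk), if_neg (Ne.symm hl), reduceCtorEq,
      if_false, ne_eq, not_false_eq_true, Pi.single_eq_of_ne]
    linear_combination e
  rcases β with k | k
  · by_cases hk : k = a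
    · subst hk
      rcases γ with l | l
      · by_cases hl : l = k
        · subst hl
          rw [om_self, om_self]
        · exact hsym _ _ (hka l hl)
      · by_cases hl : l = k
        · subst hl
          exact hab
        · exact hsym _ _ (hyk l hl _)
    · rcases γ with l | l
      · by_cases hl : l = a
        · subst hl
          exact hka k hk
        · exact hkl k l hk hl
      · by_cases hl : l = a
        · subst hl
          exact hkb k hk
        · exact hsym _ _ (hyk l hl _)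
  · by_cases hk : k = a
    · subst hk
      rcases γ with l | l
      · by_cases hl : l = k
        · subst hl
          exact hsym _ _ hab
        · exact hsym _ _ (hkb l hl)
      · by_cases hl : l = k
        · subst hl
          rw [om_self, om_self]
        · exact hsym _ _ (hyk l hl _)
    · exact hyk k hk γ

end Pool.Agent.Helper597_torsymp
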