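import Pool.Agent.Helper597_torsymp.Coord

/-!
# The coordinates theorem

Symplectomorphisms of the torus `T^{2n}` with the same action on the lattice which agree in all but
one of the coordinates `x_i` are symplectically isotopic.
-/

set_option autoImplicit false
set_option linter.unusedSectionVars false

open Set Filter Topology
open scoped ContDiff

noncomputable section

namespace Pool.Agent.Helper597_torsymp

open Pool.Agent.Helper597_fou Pool.Agent.Helper597_fou.PS

variable {n : ℕ}

/-- the position of a point of `ℝ × ℝ^{2n} = ℝ^{2n+1}` -/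
def pr (x : E (n + n)) : V n := fun α => x (ix α)

theorem pr_jn (t : ℝ) (v : V n) : pr (jn t v) = v := funext fun α => jn_ix t v α

theorem jn_pr (x : E (n + n)) : jn (x 0) (pr x) = x := ext_ix rfl fun α => jn_ix _ _ α

theorem ext_ev {f g : PS (n + n)} (h : ∀ t v, ev t f v = ev t g v) : f = g :=
  PS.ext' fun x => by
    rw [← jn_pr x]
    exact h _ _

theorem pr_contDiff : ContDiff ℝ ∞ (pr : E (n + n) → V n) :=
  contDiff_pi.2 fun α => contDiff_apply ℝ ℝ (ix α)

theorem pr_il (x : E (n + n)) (k : K (n + n)) :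
    pr (x + il k) = pr x + lat fun α => k (ix α) := rfl

/-- the displacement of an equivariant map -/
def disp (F : V n → V n) (hs : ContDiff ℝ ∞ F)
    (he : ∀ (x : V n) (k : Fin n ⊕ Fin n → ℤ), F (x + lat k) = F x + lat k) (α : Fin n ⊕ Fin n) :
    PS (n + n) :=
  ⟨fun x => F (pr x) α - pr x α,
    ((contDiff_apply ℝ ℝ α).comp (hs.comp pr_contDiff)).sub
      ((contDiff_apply ℝ ℝ α).comp pr_contDiff), fun x k => by
      simp only
      rw [pr_il, he]
      simp only [Pi.add_apply]
      ring⟩

section disp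

variable {F : V n → V n} (hs : ContDiff ℝ ∞ F)
  (he : ∀ (x : V n) (k : Fin n ⊕ Fin n → ℤ), F (x + lat k) = F x + lat k)

theorem ev_disp (t : ℝ) (α : Fin n ⊕ Fin n) (v : V n) : ev t (disp F hs he α) v = F v α - v α := by
  change F (pr (jn t v)) α - pr (jn t v) α = _
  rw [pr_jn]

theorem fam_disp (t : ℝ) : fam (disp F hs he) t = F := by
  funext v α
  unfold fam
  rw [ev_disp]
  ring

theorem dd_zero_disp (α : Fin n ⊕ Fin n) : dd 0 (disp F hs he α) = 0 := by
  have h : sl 0 0 (disp F hs he α) = disp F hs he α := ext_ev fun t v => by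
    rw [ev_sl, ev_disp, ev_disp]
  rw [← h, dd_sl_self]

theorem fderiv_disp (t : ℝ) (v : V n) (α β : Fin n ⊕ Fin n) :
    ev t (dd (ix β) (disp F hs he α)) v =
      fderiv ℝ F v (bv β) α - if α = β then 1 else 0 := by
  have h := fderiv_fam_bv (disp F hs he) t v α β
  rw [fam_disp] at h
  rw [h]
  ring

/-- the displacement of a symplectic map which preserves the coordinates `x_i`, `i ≠ a` -/
theorem sd_disp (hsy : ∀ x u v, om (fderiv ℝ F x u) (fderiv ℝ F x v) = om u v)
    (hbij : ∀ x, Function.Bijective (fderiv ℝ F x)) {a : Fin n}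
    (ha : ∀ i, i ≠ a → ∀ x, F x (Sum.inl i) = x (Sum.inl i)) : Sd a (disp F hs he) := by
  have hzero : ∀ i, i ≠ a → disp F hs he (Sum.inl i) = 0 := by
    intro i hi
    refine ext_ev fun t v => ?_
    rw [ev_disp, ha i hi, sub_self]
    rfl
  have hx : ∀ x β i, i ≠ a → fderiv ℝ F x (bv β) (Sum.inl i) = if β = Sum.inl i then 1 else 0 := by
    intro x β i hi
    have h := fderiv_disp hs he 0 x (Sum.inl i) β
    rw [hzero i hi, dd_zero, ev_zero] at h
    by_cases h' : β = Sum.inl i
    · rw [if_pos h'.symm] at h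
      rw [if_pos h']
      linarith
    · rw [if_neg (fun h'' => h' h''.symm)] at h
      rw [if_neg h']
      linarith
  have hxv : ∀ x w i, i ≠ a → fderiv ℝ F x w (Sum.inl i) = w (Sum.inl i) := by
    intro x w i hi
    have h1 : HasFDerivAt F (fderiv ℝ F x) x := (hs.differentiable (by simp) x).hasFDerivAt
    have h2 : HasFDerivAt (fun y => F y (Sum.inl i))
        ((ContinuousLinearMap.proj (R := ℝ) (φ := fun _ : Fin n ⊕ Fin n => ℝ) (Sum.inl i)).comp
          (fderiv ℝ F x)) x :=
      (ContinuousLinearMap.proj (R := ℝ) (φ := fun _ : Fin n ⊕ Fin n => ℝ)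
        (Sum.inl i)).hasFDerivAt.comp x h1
    have h3 : (fun y => F y (Sum.inl i)) = fun y : V n => y (Sum.inl i) := funext fun y => ha i hi y
    rw [h3] at h2
    have h4 : HasFDerivAt (fun y : V n => y (Sum.inl i))
        (ContinuousLinearMap.proj (R := ℝ) (φ := fun _ : Fin n ⊕ Fin n => ℝ) (Sum.inl i)) x :=
      (ContinuousLinearMap.proj (R := ℝ) (φ := fun _ : Fin n ⊕ Fin n => ℝ)
        (Sum.inl i)).hasFDerivAt
    have h5 := h2.unique h4
    have h6 := congrArg (fun L : V n →L[ℝ] ℝ => L w) h5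
    exact h6
  have hy : ∀ x k, k ≠ a → fderiv ℝ F x (bv (Sum.inr k)) = bv (Sum.inr k) := by
    intro x k hk
    rw [← sub_eq_zero]
    refine om_nondeg _ fun w => ?_
    obtain ⟨u, hu⟩ := (hbij x).2 w
    rw [← hu, om_sub_left, hsy, om_bv_inr, om_bv_inr, hxv x u k hk]
    ring
  have hd := fun (v : V n) (α β : Fin n ⊕ Fin n) => fderiv_disp hs he
  have hbas : ∀ x β γ, fderiv ℝ F x (bv β) (Sum.inl a) * fderiv ℝ F x (bv γ) (Sum.inr a) -
      fderiv ℝ F x (bv β) (Sum.inr a) * fderiv ℝ F x (bv γ) (Sum.inl a) +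
      cN a β (fderiv ℝ F x (bv γ)) - cN a γ (fderiv ℝ F x (bv β)) = om (bv β) (bv γ) := by
    intro x β γ
    rw [← hsy x (bv β) (bv γ), om_special a (hx x β) (hx x γ)]
  refine ⟨hzero, ?_, ?_, ?_, ?_, ?_⟩
  · intro i hi α
    refine ext_ev fun t v => ?_
    rw [fderiv_disp, hy v i hi, ev_zero, bv, Pi.single_apply]
    ring
  · refine ext_ev fun t v => ?_
    rw [ev_J, ev_one, fderiv_disp, fderiv_disp, fderiv_disp, fderiv_disp]
    have h := hbas v (Sum.inl a) (Sum.inr a)
    rw [om_bv_inl] at h
    simp only [cN, Sum.elim_inl, Sum.elim_inr, if_true, bv, Pi.single_eq_same] at h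
    simp only [reduceCtorEq, if_false, if_true, bv]
    linear_combination h
  · intro k hk
    refine ext_ev fun t v => ?_
    rw [ev_th1, fderiv_disp, fderiv_disp, fderiv_disp, fderiv_disp, fderiv_disp]
    have h := hbas v (Sum.inl k) (Sum.inl a)
    rw [om_bv_inl] at h
    simp only [cN, Sum.elim_inl, if_true, if_neg hk] at h
    simp only [bv, Sum.inl.injEq, if_neg (Ne.symm hk), reduceCtorEq, if_false, if_true, ne_eq,
      not_false_eq_true, Pi.single_eq_of_ne] at h ⊢
    linear_combination h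
  · intro k hk
    refine ext_ev fun t v => ?_
    rw [ev_th2, fderiv_disp, fderiv_disp, fderiv_disp, fderiv_disp, fderiv_disp]
    have h := hbas v (Sum.inl k) (Sum.inr a)
    rw [om_bv_inl] at h
    have e3 : (bv (Sum.inr a) : V n) (Sum.inr k) = 0 := by
      rw [bv, Pi.single_eq_of_ne (by simpa using hk)]
    rw [e3] at h
    simp only [cN, Sum.elim_inl, Sum.elim_inr, if_neg hk] at h
    simp only [Sum.inr.injEq, Sum.inl.injEq, if_neg hk, if_neg (Ne.symm hk), reduceCtorEq,
      if_false, if_true]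
    linear_combination h
  · intro k l hk hl
    refine ext_ev fun t v => ?_
    rw [ev_sub, ev_add, ev_sub, ev_mul, ev_mul, ev_zero, fderiv_disp, fderiv_disp, fderiv_disp,
      fderiv_disp, fderiv_disp, fderiv_disp]
    have h := hbas v (Sum.inl k) (Sum.inl l)
    rw [om_bv_inl] at h
    simp only [cN, Sum.elim_inl, if_neg hk, if_neg hl] at h
    simp only [bv, Sum.inl.injEq, if_neg (Ne.symm hk), if_neg (Ne.symm hl), reduceCtorEq,
      if_false, ne_eq, not_false_eq_true, Pi.single_eq_of_ne] at h ⊢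
    linear_combination h

end disp

/-- A symplectomorphism which acts trivially on the lattice and preserves the coordinates `x_i`,
`i ≠ a`, is symplectically isotopic to the identity. -/
theorem isotopic_id {F : V n → V n} (hF : IsTorusSymp 1 F) {a : Fin n}
    (ha : ∀ i, i ≠ a → ∀ x, F x (Sum.inl i) = x (Sum.inl i)) : SymplecticallyIsotopic 1 id F := by
  have he : ∀ (x : V n) (k : Fin n ⊕ Fin n → ℤ), F (x + lat k) = F x + lat k := fun x k => by
    rw [hF.equivariant, Matrix.one_mulVec]
  obtain ⟨U', h1, h2, h3⟩ := (sd_disp hF.smooth he hF.symplectic hF.fderiv_bij ha).deform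
    (dd_zero_disp hF.smooth he)
  have h0 : fam U' 0 = id := by
    funext v α
    unfold fam
    have e : ev 0 (U' α) v = 0 := by
      rw [← ev_sl 0 0, h2 α]
      rfl
    rw [e]
    simp
  have hhalf : fam U' (1 / 2) = F := by
    funext v α
    unfold fam
    have e : ev (1 / 2) (U' α) v = F v α - v α := by
      rw [← ev_sl 0 (1 / 2), h3 α, ev_disp]
    rw [e]
    ring
  have hall := isTorusSymp_of_family (A := (1 : Matrix (Fin n ⊕ Fin n) (Fin n ⊕ Fin n) ℤ))
    (G := fam U') (fam_contDiff U') (fun t x k => by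
      rw [Matrix.one_mulVec]
      exact fam_lat U' t x k) (fam_symplectic h1) (t₀ := 0) (by
      rw [h0]
      exact Function.injective_id)
  refine ⟨fun t => fam U' (t / 2), ?_, by simp only; rw [zero_div, h0], hhalf, fun t _ => hall _⟩
  have : ContDiff ℝ ∞ fun p : ℝ × V n => ((p.1 / 2, p.2) : ℝ × V n) :=
    (contDiff_fst.div_const 2).prodMk contDiff_snd
  exact (fam_contDiff U').comp this

end Pool.Agent.Helper597_torsymp
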