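import Pool.Agent.Helper597_torsymp.Iso
import Pool.Agent.Helper597_torsymp.CDefs

/-!
# Interpolation of two symplectomorphisms by generating functions of varying type
-/

set_option autoImplicit false
set_option linter.unusedSectionVars false

open Set Filter Topology
open scoped ContDiff

noncomputable section

namespace Pool.Agent.Helper597_torsymp

variable {n : ℕ} {A : Matrix (Fin n ⊕ Fin n) (Fin n ⊕ Fin n) ℤ}

/-- the map `F₀ + Q (F₁ - F₀)` -/
def mixm (Q : V n →L[ℝ] V n) (F₀ F₁ : V n → V n) (x : V n) : V n := F₀ x + Q (F₁ x - F₀ x)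

theorem hasFDerivAt_mixm (Q : V n →L[ℝ] V n) {F₀ F₁ : V n → V n} (h₀ : Differentiable ℝ F₀)
    (h₁ : Differentiable ℝ F₁) (x : V n) :
    HasFDerivAt (mixm Q F₀ F₁) (fderiv ℝ F₀ x + Q.comp (fderiv ℝ F₁ x - fderiv ℝ F₀ x)) x := by
  have h1 : HasFDerivAt (fun x => F₁ x - F₀ x) (fderiv ℝ F₁ x - fderiv ℝ F₀ x) x :=
    (h₁ x).hasFDerivAt.sub (h₀ x).hasFDerivAt
  exact (h₀ x).hasFDerivAt.add (Q.hasFDerivAt.comp x h1)

theorem fderiv_mixm (Q : V n →L[ℝ] V n) {F₀ F₁ : V n → V n} (h₀ : Differentiable ℝ F₀)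
    (h₁ : Differentiable ℝ F₁) (x v : V n) :
    fderiv ℝ (mixm Q F₀ F₁) x v =
      fderiv ℝ F₀ x v + Q (fderiv ℝ F₁ x v - fderiv ℝ F₀ x v) := by
  rw [(hasFDerivAt_mixm Q h₀ h₁ x).fderiv]
  simp

theorem mixm_equi (Q : V n →L[ℝ] V n) {F₀ F₁ : V n → V n} (h₀ : IsTorusSymp A F₀)
    (h₁ : IsTorusSymp A F₁) (x : V n) (k : Fin n ⊕ Fin n → ℤ) :
    mixm Q F₀ F₁ (x + lat k) = mixm Q F₀ F₁ x + lat (A.mulVec k) := by
  simp only [mixm]
  rw [h₀.equivariant, h₁.equivariant]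
  rw [show F₁ x + lat (A.mulVec k) - (F₀ x + lat (A.mulVec k)) = F₁ x - F₀ x by abel]
  abel

/-- the algebraic identity behind the isotopy -/
theorem form_mix {F₀ F₁ : V n → V n} (h₀ : IsTorusSymp A F₀) (h₁ : IsTorusSymp A F₁)
    {Q : V n →L[ℝ] V n} {c : ℝ} (hQ : ∀ u v, om (Q u) v + om u (Q v) = c * om u v) (x a b : V n) :
    om (fderiv ℝ (mixm (Q + (1 - c) • ContinuousLinearMap.id ℝ _) F₀ F₁) x a)
      (fderiv ℝ (mixm (Q + (1 - c) • ContinuousLinearMap.id ℝ _) F₀ F₁) x b) =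
    om (fderiv ℝ (mixm Q F₀ F₁) x a) (fderiv ℝ (mixm Q F₀ F₁) x b) := by
  rw [fderiv_mixm _ h₀.diff h₁.diff, fderiv_mixm _ h₀.diff h₁.diff, fderiv_mixm _ h₀.diff h₁.diff,
    fderiv_mixm _ h₀.diff h₁.diff]
  have s0 := h₀.symplectic x a b
  have s1 := h₁.symplectic x a b
  set u := fderiv ℝ F₀ x a
  set w := fderiv ℝ F₀ x b
  set u' := fderiv ℝ F₁ x a - u with hu'
  set w' := fderiv ℝ F₁ x b - w with hw'
  have e1 : fderiv ℝ F₁ x a = u + u' := by rw [hu']; abel
  have e2 : fderiv ℝ F₁ x b = w + w' := by rw [hw']; abel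
  rw [e1, e2] at s1
  have hq := hQ u' w'
  simp only [_root_.add_apply, _root_.smul_apply,
    ContinuousLinearMap.id_apply, om_add_left, om_add_right, om_smul_left, om_smul_right] at s1 ⊢
  linear_combination (1 - c) * hq + (1 - c) * s1 - (1 - c) * s0

/-- **The path criterion.** Linked symplectomorphisms are symplectically isotopic. -/
theorem isotopic_of_linked {F₀ F₁ : V n → V n} (h₀ : IsTorusSymp A F₀) (h₁ : IsTorusSymp A F₁)
    (h : Linked F₀ F₁) : SymplecticallyIsotopic A F₁ F₀ := by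
  obtain ⟨Q, c, hQ, hc, hQ0, hc0, hc1, hs⟩ := h
  set θ := Real.smoothTransition with hθ
  have hθs : ContDiff ℝ ∞ θ := Real.smoothTransition.contDiff
  have hθm : ∀ t, θ t ∈ Icc (0 : ℝ) 1 := fun t =>
    ⟨Real.smoothTransition.nonneg t, Real.smoothTransition.le_one t⟩
  -- the first family
  have hsm : ∀ Q' : ℝ → V n →L[ℝ] V n, ContDiff ℝ ∞ Q' →
      ContDiff ℝ ∞ fun p : ℝ × V n => mixm (Q' p.1) F₀ F₁ p.2 := by
    intro Q' hQ'
    have h1 : ContDiff ℝ ∞ fun p : ℝ × V n => F₁ p.2 - F₀ p.2 :=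
      (h₁.smooth.comp contDiff_snd).sub (h₀.smooth.comp contDiff_snd)
    exact (h₀.smooth.comp contDiff_snd).add ((hQ'.comp contDiff_fst).clm_apply h1)
  set P : ℝ × V n → V n := fun p => mixm (Q (θ p.1)) F₀ F₁ p.2 with hP
  have hPs : ContDiff ℝ ∞ P := hsm (fun t => Q (θ t)) (hQ.comp hθs)
  have hPfam : IsFam P := by
    refine ⟨hPs, fun t x v hv => ?_⟩
    have h1 : fderiv ℝ (mixm (Q (θ t)) F₀ F₁) x v = 0 := hv
    rw [fderiv_mixm _ h₀.diff h₁.diff] at h1
    exact (hs (θ t) (hθm t)).2 x v h1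
  have hP0 : Function.Injective fun x => P (0, x) := by
    have : (fun x => P (0, x)) = F₀ := by
      funext x
      have h00 : θ 0 = 0 := Real.smoothTransition.zero_of_nonpos (le_refl _)
      show mixm (Q (θ 0)) F₀ F₁ x = F₀ x
      rw [h00, hQ0]
      simp [mixm]
    rw [this]
    exact h₀.injective
  obtain ⟨R, hR, hR1, hR2⟩ := hPfam.exists_inverse (A := A)
    (fun t x k => mixm_equi (Q (θ t)) h₀ h₁ x k) hP0
  set Q' : ℝ → V n →L[ℝ] V n := fun t => Q (θ t) + (1 - c (θ t)) • ContinuousLinearMap.id ℝ _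
    with hQ'
  have hQ's : ContDiff ℝ ∞ Q' := by
    refine (hQ.comp hθs).add ?_
    exact (contDiff_const.sub (hc.comp hθs)).smul contDiff_const
  set G : ℝ → V n → V n := fun t x => mixm (Q' t) F₀ F₁ (R (t, F₀ x)) with hG
  have hRs : ContDiff ℝ ∞ fun p : ℝ × V n => R (p.1, F₀ p.2) :=
    hR.comp (contDiff_fst.prodMk (h₀.smooth.comp contDiff_snd))
  have hGs : ContDiff ℝ ∞ fun p : ℝ × V n => G p.1 p.2 := by
    have h1 : ContDiff ℝ ∞ fun p : ℝ × V n => ((p.1, R (p.1, F₀ p.2)) : ℝ × V n) :=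
      contDiff_fst.prodMk hRs
    exact (hsm Q' hQ's).comp h1
  have hRe : ∀ t x k, R (t, F₀ (x + lat k)) = R (t, F₀ x) + lat k := by
    intro t x k
    have h1 : P (t, R (t, F₀ x) + lat k) = F₀ (x + lat k) := by
      have h2 : P (t, R (t, F₀ x) + lat k) = P (t, R (t, F₀ x)) + lat (A.mulVec k) :=
        mixm_equi (Q (θ t)) h₀ h₁ _ k
      rw [h2, hR2, h₀.equivariant]
    rw [← h1, hR1]
  have hGe : ∀ t x k, G t (x + lat k) = G t x + lat (A.mulVec k) := by
    intro t x k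
    simp only [hG]
    rw [hRe, mixm_equi (Q' t) h₀ h₁]
  have hGsym : ∀ t x u v, om (fderiv ℝ (G t) x u) (fderiv ℝ (G t) x v) = om u v := by
    intro t x u v
    -- the inner map
    have hr : Differentiable ℝ fun x : V n => R (t, F₀ x) := by
      have : ContDiff ℝ ∞ fun x : V n => R (t, F₀ x) :=
        hR.comp (contDiff_const.prodMk h₀.smooth)
      exact this.differentiable (by simp)
    have hd1 : ∀ w, fderiv ℝ (G t) x w =
        fderiv ℝ (mixm (Q' t) F₀ F₁) (R (t, F₀ x)) (fderiv ℝ (fun x => R (t, F₀ x)) x w) := by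
      intro w
      have h1 : HasFDerivAt (mixm (Q' t) F₀ F₁) (fderiv ℝ (mixm (Q' t) F₀ F₁) (R (t, F₀ x)))
          (R (t, F₀ x)) := by
        have := hasFDerivAt_mixm (Q' t) h₀.diff h₁.diff (R (t, F₀ x))
        rw [this.fderiv]
        exact this
      have h2 := h1.comp x (hr x).hasFDerivAt
      have h3 : fderiv ℝ (G t) x = _ := h2.fderiv
      rw [h3]
      rfl
    have hd2 : ∀ w, fderiv ℝ (mixm (Q (θ t)) F₀ F₁) (R (t, F₀ x))
        (fderiv ℝ (fun x => R (t, F₀ x)) x w) = fderiv ℝ F₀ x w := by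
      intro w
      have h1 : HasFDerivAt (mixm (Q (θ t)) F₀ F₁)
          (fderiv ℝ (mixm (Q (θ t)) F₀ F₁) (R (t, F₀ x))) (R (t, F₀ x)) := by
        have := hasFDerivAt_mixm (Q (θ t)) h₀.diff h₁.diff (R (t, F₀ x))
        rw [this.fderiv]
        exact this
      have h2 := h1.comp x (hr x).hasFDerivAt
      have h3 : (mixm (Q (θ t)) F₀ F₁ ∘ fun x => R (t, F₀ x)) = F₀ := by
        funext y
        exact hR2 t (F₀ y)
      rw [h3] at h2
      rw [h2.fderiv]
      rfl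
    rw [hd1, hd1]
    simp only [hQ']
    rw [form_mix h₀ h₁ (hs (θ t) (hθm t)).1, hd2, hd2]
    exact h₀.symplectic x u v
  have hG0 : G 0 = F₁ := by
    funext x
    have h00 : θ 0 = 0 := Real.smoothTransition.zero_of_nonpos (le_refl _)
    have h1 : R (0, F₀ x) = x := by
      have h2 : P (0, x) = F₀ x := by
        show mixm (Q (θ 0)) F₀ F₁ x = F₀ x
        rw [h00, hQ0]
        simp [mixm]
      rw [← h2, hR1]
    show mixm (Q' 0) F₀ F₁ (R (0, F₀ x)) = F₁ x
    rw [h1]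
    simp only [hQ', h00, hQ0, hc0, mixm]
    simp
  have hG1 : G 1 = F₀ := by
    funext x
    have h11 : θ 1 = 1 := Real.smoothTransition.one_of_one_le (le_refl _)
    show mixm (Q' 1) F₀ F₁ (R (1, F₀ x)) = F₀ x
    have h2 : Q' 1 = Q (θ 1) := by
      simp only [hQ', h11, hc1]
      simp
    rw [h2]
    exact hR2 1 (F₀ x)
  refine ⟨G, hGs, hG0, hG1, fun t _ => ?_⟩
  exact isTorusSymp_of_family hGs hGe hGsym (t₀ := 0) (by rw [hG0]; exact h₁.injective) t

/-- if no vector is mapped to opposite directions then the maps are linked, with `Q s = s / 2` -/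
theorem linked_of_unopposed {F₀ F₁ : V n → V n} (h₀ : IsTorusSymp A F₀)
    (h : ∀ x v, ∀ r : ℝ, 0 < r → fderiv ℝ F₁ x v = -r • fderiv ℝ F₀ x v → v = 0) :
    Linked F₀ F₁ := by
  refine ⟨fun s => (s / 2) • ContinuousLinearMap.id ℝ _, fun s => s, ?_, contDiff_id, by simp, rfl,
    rfl, fun s hs => ⟨fun u v => ?_, fun x v hv => ?_⟩⟩
  · exact (contDiff_id.div_const 2).smul contDiff_const
  · simp only [_root_.smul_apply, ContinuousLinearMap.id_apply, om_smul_left,
      om_smul_right]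
    ring
  · simp only [_root_.smul_apply, ContinuousLinearMap.id_apply] at hv
    rcases eq_or_lt_of_le hs.1 with h0 | h0
    · rw [← h0] at hv
      simp only [zero_div, zero_smul, add_zero] at hv
      exact h₀.fderiv_inj x v hv
    · refine h x v ((1 - s / 2) / (s / 2)) (div_pos (by linarith [hs.2]) (by linarith)) ?_
      have h1 : (s / 2) • fderiv ℝ F₁ x v = -(1 - s / 2) • fderiv ℝ F₀ x v := by
        rw [smul_sub] at hv
        have h2 : (s / 2) • fderiv ℝ F₁ x v =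
            (fderiv ℝ F₀ x v + ((s / 2) • fderiv ℝ F₁ x v - (s / 2) • fderiv ℝ F₀ x v)) -
            (fderiv ℝ F₀ x v - (s / 2) • fderiv ℝ F₀ x v) := by abel
        rw [h2, hv]
        rw [neg_smul, sub_smul, one_smul]
        abel
      have h3 : fderiv ℝ F₁ x v = (s / 2)⁻¹ • ((s / 2) • fderiv ℝ F₁ x v) := by
        rw [smul_smul, inv_mul_cancel₀ (by linarith), one_smul]
      rw [h3, h1, smul_smul]
      congr 1
      field_simp

/-- the derivatives in the space direction -/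
theorem fderiv_slice {G : ℝ → V n → V n} (hG : ContDiff ℝ ∞ fun p : ℝ × V n => G p.1 p.2)
    (t : ℝ) (x : V n) : fderiv ℝ (G t) x =
      (fderiv ℝ (fun p : ℝ × V n => G p.1 p.2) (t, x)).comp
        ((0 : V n →L[ℝ] ℝ).prod (ContinuousLinearMap.id ℝ _)) := by
  have h1 : HasFDerivAt (fun x : V n => ((t, x) : ℝ × V n))
      ((0 : V n →L[ℝ] ℝ).prod (ContinuousLinearMap.id ℝ _)) x :=
    (hasFDerivAt_const t x).prodMk (hasFDerivAt_id x)
  have h2 : HasFDerivAt (fun p : ℝ × V n => G p.1 p.2) (fderiv ℝ (fun p : ℝ × V n => G p.1 p.2)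
      (t, x)) (t, x) := (hG.differentiable (by simp) (t, x)).hasFDerivAt
  exact (h2.comp x h1).fderiv

theorem continuous_slice {G : ℝ → V n → V n} (hG : ContDiff ℝ ∞ fun p : ℝ × V n => G p.1 p.2) :
    Continuous fun p : ℝ × V n => fderiv ℝ (G p.1) p.2 := by
  have h1 : (fun p : ℝ × V n => fderiv ℝ (G p.1) p.2) = fun p : ℝ × V n =>
      (fderiv ℝ (fun p : ℝ × V n => G p.1 p.2) p).comp
        ((0 : V n →L[ℝ] ℝ).prod (ContinuousLinearMap.id ℝ _)) := by
    funext p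
    exact fderiv_slice hG p.1 p.2
  rw [h1]
  exact (hG.continuous_fderiv (by simp)).clm_comp continuous_const

theorem fderiv_periodic {F : V n → V n} (h : IsTorusSymp A F) (x : V n)
    (k : Fin n ⊕ Fin n → ℤ) : fderiv ℝ F (x + lat k) = fderiv ℝ F x := by
  have h1 : (fun y => F (y + lat k)) = fun y => F y + lat (A.mulVec k) := by
    funext y
    exact h.equivariant y k
  have h2 : fderiv ℝ (fun y => F (y + lat k)) x = fderiv ℝ F (x + lat k) :=
    fderiv_comp_add_right (lat k)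
  rw [← h2, h1, fderiv_add_const]

/-- nearby members of an isotopy are unopposed -/
theorem exists_delta {G : ℝ → V n → V n} (hG : ContDiff ℝ ∞ fun p : ℝ × V n => G p.1 p.2)
    (hs : ∀ t ∈ Icc (0 : ℝ) 1, IsTorusSymp A (G t)) :
    ∃ δ : ℝ, 0 < δ ∧ ∀ s ∈ Icc (0 : ℝ) 1, ∀ s' ∈ Icc (0 : ℝ) 1, |s - s'| < δ →
      Unopposed (G s) (G s') := by
  have hcont := continuous_slice hG
  set D : ℝ × V n → (V n →L[ℝ] V n) := fun p => fderiv ℝ (G p.1) p.2 with hD
  have hK : IsCompact (Icc (0 : ℝ) 1 ×ˢ Icc (0 : V n) 1) := isCompact_Icc.prod isCompact_Icc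
  obtain ⟨m, hm, hmb⟩ : ∃ m : ℝ, 0 < m ∧ ∀ p ∈ Icc (0 : ℝ) 1 ×ˢ Icc (0 : V n) 1, ∀ v : V n,
      m * ‖v‖ ≤ ‖D p v‖ := by
    rcases (Metric.sphere (0 : V n) 1).eq_empty_or_nonempty with he | hne
    · refine ⟨1, one_pos, fun p _ v => ?_⟩
      have hv : v = 0 := by
        by_contra hv
        have : ‖v‖⁻¹ • v ∈ Metric.sphere (0 : V n) 1 := by
          rw [mem_sphere_zero_iff_norm, norm_smul, norm_inv, norm_norm,
            inv_mul_cancel₀ (norm_ne_zero_iff.2 hv)]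
        rw [he] at this
        exact this
      rw [hv]
      simp
    · have hc : Continuous fun q : (ℝ × V n) × V n => ‖D q.1 q.2‖ :=
        ((hcont.comp continuous_fst).clm_apply continuous_snd).norm
      have hKS := hK.prod (isCompact_sphere (0 : V n) 1)
      have hKne : ((Icc (0 : ℝ) 1 ×ˢ Icc (0 : V n) 1) ×ˢ Metric.sphere (0 : V n) 1).Nonempty := by
        refine Set.Nonempty.prod ⟨(0, 0), ?_⟩ hne
        simp
      obtain ⟨q, hq, hqm⟩ := hKS.exists_isMinOn hKne hc.continuousOn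
      have hpos : 0 < ‖D q.1 q.2‖ := by
        rw [norm_pos_iff]
        intro h0
        have h1 := (hs q.1.1 hq.1.1).fderiv_inj q.1.2 q.2 h0
        have h2 : q.2 ∈ Metric.sphere (0 : V n) 1 := hq.2
        rw [h1] at h2
        simp at h2
      refine ⟨‖D q.1 q.2‖, hpos, fun p hp v => ?_⟩
      by_cases hv : v = 0
      · rw [hv]; simp
      · have hvn : 0 < ‖v‖ := norm_pos_iff.2 hv
        have h3 : ‖v‖⁻¹ • v ∈ Metric.sphere (0 : V n) 1 := by
          rw [mem_sphere_zero_iff_norm, norm_smul, norm_inv, norm_norm,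
            inv_mul_cancel₀ hvn.ne']
        have h4 : ‖D q.1 q.2‖ ≤ ‖D p (‖v‖⁻¹ • v)‖ := hqm (show (p, ‖v‖⁻¹ • v) ∈ _ from ⟨hp, h3⟩)
        rw [map_smul, norm_smul, norm_inv, norm_norm] at h4
        calc ‖D q.1 q.2‖ * ‖v‖ ≤ ‖v‖⁻¹ * ‖D p v‖ * ‖v‖ :=
              mul_le_mul_of_nonneg_right h4 hvn.le
          _ = ‖D p v‖ := by field_simp
  have huc := hK.uniformContinuousOn_of_continuous hcont.continuousOn
  rw [Metric.uniformContinuousOn_iff] at huc
  obtain ⟨δ, hδ, hδb⟩ := huc m hm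
  refine ⟨δ, hδ, fun s hs1 s' hs'1 hss x v r hr hv => ?_⟩
  obtain ⟨k, hk⟩ := exists_frac x
  have hp1 := fderiv_periodic (hs s hs1) x k
  have hp2 := fderiv_periodic (hs s' hs'1) x k
  rw [← hp1, ← hp2] at hv
  set y := x + lat k with hy
  have hyk : y ∈ Icc (0 : V n) 1 := hk
  have h1 : dist (D (s', y)) (D (s, y)) < m := by
    refine hδb (s', y) ⟨hs'1, hyk⟩ (s, y) ⟨hs1, hyk⟩ ?_
    rw [Prod.dist_eq]
    simp only [dist_self, Real.dist_eq]
    rw [max_eq_left (abs_nonneg _), abs_sub_comm]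
    exact hss
  have h2 := hmb (s, y) ⟨hs1, hyk⟩ v
  by_contra hv0
  have hvn : 0 < ‖v‖ := norm_pos_iff.2 hv0
  have h3 : ‖D (s', y) v - D (s, y) v‖ < m * ‖v‖ := by
    have h4 : ‖D (s', y) v - D (s, y) v‖ ≤ ‖D (s', y) - D (s, y)‖ * ‖v‖ :=
      (D (s', y) - D (s, y)).le_opNorm v
    rw [dist_eq_norm] at h1
    calc _ ≤ _ := h4
      _ < m * ‖v‖ := mul_lt_mul_of_pos_right h1 hvn
  have h5 : D (s', y) v - D (s, y) v = (-(1 + r)) • D (s, y) v := by
    have h6 : D (s', y) v = -r • D (s, y) v := hv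
    rw [h6, neg_add, add_smul, neg_smul, neg_smul, one_smul]
    abel
  rw [h5, norm_smul, Real.norm_eq_abs, abs_neg, abs_of_pos (by linarith)] at h3
  have h7 : 0 ≤ ‖D (s, y) v‖ := norm_nonneg _
  nlinarith

/-- **Chains.** -/
theorem chain_of_isotopic {F₀ F₁ : V n → V n} (h : SymplecticallyIsotopic A F₀ F₁) :
    Relation.ReflTransGen (fun φ ψ => IsTorusSymp A φ ∧ IsTorusSymp A ψ ∧ Unopposed φ ψ)
      F₀ F₁ := by
  obtain ⟨G, hG, h0, h1, hs⟩ := h
  obtain ⟨δ, hδ, hδb⟩ := exists_delta hG hs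
  obtain ⟨N, hN⟩ := exists_nat_gt (1 / δ)
  have hNpos : (0 : ℝ) < N := lt_trans (by positivity) hN
  have hmem : ∀ i : ℕ, i ≤ N → (i : ℝ) / N ∈ Icc (0 : ℝ) 1 := by
    intro i hi
    refine ⟨by positivity, ?_⟩
    rw [div_le_one hNpos]
    exact_mod_cast hi
  have hch : ∀ i : ℕ, i ≤ N →
      Relation.ReflTransGen (fun φ ψ => IsTorusSymp A φ ∧ IsTorusSymp A ψ ∧ Unopposed φ ψ)
        (G 0) (G ((i : ℝ) / N)) := by
    intro i
    induction i with
    | zero =>
      intro _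
      simp only [Nat.cast_zero, zero_div]
      exact Relation.ReflTransGen.refl
    | succ i ih =>
      intro hi
      refine (ih (by omega)).tail ⟨hs _ (hmem i (by omega)), hs _ (hmem (i + 1) hi),
        hδb _ (hmem i (by omega)) _ (hmem (i + 1) hi) ?_⟩
      have : (i : ℝ) / N - ((i + 1 : ℕ) : ℝ) / N = -(1 / N) := by
        push_cast
        field_simp
        ring
      rw [this, abs_neg, abs_of_pos (by positivity)]
      rw [div_lt_iff₀ hδ] at hN
      rw [div_lt_iff₀ hNpos]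
      linarith
  have := hch N le_rfl
  rw [div_self hNpos.ne', h0, h1] at this
  exact this

/-- **Characterisation of symplectic isotopy by chains.** -/
theorem isotopic_iff_chain {F₀ F₁ : V n → V n} (h₀ : IsTorusSymp A F₀) :
    SymplecticallyIsotopic A F₀ F₁ ↔
      Relation.ReflTransGen (fun φ ψ => IsTorusSymp A φ ∧ IsTorusSymp A ψ ∧ Linked φ ψ)
        F₀ F₁ := by
  constructor
  · intro h
    have hc := chain_of_isotopic h
    clear h
    induction hc with
    | refl => exact Relation.ReflTransGen.refl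
    | tail _ hl ih => exact ih.tail ⟨hl.1, hl.2.1, linked_of_unopposed hl.1 hl.2.2⟩
  · intro h
    induction h with
    | refl => exact SymplecticallyIsotopic.refl h₀
    | tail _ hl ih => exact ih.trans (isotopic_of_linked hl.1 hl.2.1 hl.2.2).symm

end Pool.Agent.Helper597_torsymp
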