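import Pool.Agent.Helper597_torsymp.Gen

/-!
# Calculus of vector valued periodic functions, and averages along a linear foliation
-/

set_option autoImplicit false
set_option linter.unusedSectionVars false

open Set Filter Topology MeasureTheory
open scoped ContDiff

noncomputable section

namespace Pool.Agent.Helper597_torsymp

open Pool.Agent.Helper597_fou Pool.Agent.Helper597_fou.PS

variable {n : ℕ}

/-! ### Directional derivatives -/

theorem dirs_add_left (v w : V n) (f : PS (n + n)) : dirs (v + w) f = dirs v f + dirs w f := by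
  unfold dirs
  rw [← Finset.sum_add_distrib]
  exact Finset.sum_congr rfl fun α _ => by rw [Pi.add_apply, add_smul]

theorem dirs_smul_left (c : ℝ) (v : V n) (f : PS (n + n)) : dirs (c • v) f = c • dirs v f := by
  unfold dirs
  rw [Finset.smul_sum]
  exact Finset.sum_congr rfl fun α _ => by rw [Pi.smul_apply, smul_eq_mul, mul_smul]

@[simp] theorem dirs_zero (w : V n) : dirs w (0 : PS (n + n)) = 0 := by
  unfold dirs
  simp

@[simp] theorem dirs_add (w : V n) (f g : PS (n + n)) : dirs w (f + g) = dirs w f + dirs w g := by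
  unfold dirs
  rw [← Finset.sum_add_distrib]
  exact Finset.sum_congr rfl fun α _ => by rw [dd_add, smul_add]

@[simp] theorem dirs_neg (w : V n) (f : PS (n + n)) : dirs w (-f) = -dirs w f := by
  have h := dirs_add w f (-f)
  rw [add_neg_cancel, dirs_zero] at h
  exact (neg_eq_of_add_eq_zero_right h.symm).symm

@[simp] theorem dirs_sub (w : V n) (f g : PS (n + n)) : dirs w (f - g) = dirs w f - dirs w g := by
  rw [sub_eq_add_neg, dirs_add, dirs_neg, ← sub_eq_add_neg]

@[simp] theorem dirs_smul (w : V n) (c : ℝ) (f : PS (n + n)) : dirs w (c • f) = c • dirs w f := by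
  unfold dirs
  rw [Finset.smul_sum]
  exact Finset.sum_congr rfl fun α _ => by rw [dd_smul, smul_comm]

theorem dirs_sum {ι : Type} (w : V n) (s : Finset ι) (f : ι → PS (n + n)) :
    dirs w (∑ i ∈ s, f i) = ∑ i ∈ s, dirs w (f i) := by
  classical
  induction s using Finset.induction_on with
  | empty => simp
  | insert a s ha ih => rw [Finset.sum_insert ha, Finset.sum_insert ha, dirs_add, ih]

theorem dirs_mul (w : V n) (f g : PS (n + n)) : dirs w (f * g) = f * dirs w g + dirs w f * g := by
  unfold dirs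
  rw [Finset.mul_sum, Finset.sum_mul, ← Finset.sum_add_distrib]
  refine Finset.sum_congr rfl fun α _ => ?_
  rw [dd_mul, smul_add, mul_smul_comm, smul_mul_assoc]

theorem dirs_comm (v w : V n) (f : PS (n + n)) : dirs v (dirs w f) = dirs w (dirs v f) := by
  refine ext_hat fun k => ?_
  rw [hat_dirs, hat_dirs, hat_dirs, hat_dirs]
  ring

@[simp] theorem dirs_cst (w : V n) (c : ℝ) : dirs w (cst c : PS (n + n)) = 0 := by
  unfold cst
  rw [dirs_smul]
  unfold dirs
  simp

theorem ev_dirs_eq (t : ℝ) (w : V n) (f : PS (n + n)) (x : V n) :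
    ev t (dirs w f) x = fderiv ℝ (ev t f) x w := by
  unfold dirs
  rw [ev_sum]
  conv_rhs => rw [vec_eq_sum w, map_sum]
  refine Finset.sum_congr rfl fun α _ => ?_
  rw [map_smul, fderiv_ev_bv]
  rfl

theorem ev_smul (t c : ℝ) (f : PS (n + n)) (x : V n) : ev t (c • f) x = c * ev t f x := rfl

theorem ev_neg (t : ℝ) (f : PS (n + n)) (x : V n) : ev t (-f) x = -ev t f x := rfl

/-! ### Vector valued functions -/

/-- vector valued periodic functions -/
abbrev PV (n : ℕ) : Type := Fin n ⊕ Fin n → PS (n + n)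

/-- the value -/
def vv (t : ℝ) (u : PV n) (x : V n) : V n := fun α => ev t (u α) x

/-- the directional derivative -/
def dV (w : V n) (u : PV n) : PV n := fun α => dirs w (u α)

/-- the constant function -/
def cV (w : V n) : PV n := fun α => cst (w α)

/-- the composition with a linear map -/
def mV (L : V n →L[ℝ] V n) (u : PV n) : PV n := fun α => ∑ β, (L (bv β) α) • u β

/-- the symplectic form -/
def oP (u v : PV n) : PS (n + n) :=
  ∑ i, (u (Sum.inl i) * v (Sum.inr i) - u (Sum.inr i) * v (Sum.inl i))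

theorem ext_vv {u v : PV n} (h : ∀ t x, vv t u x = vv t v x) : u = v :=
  funext fun α => ext_ev fun t x => congrFun (h t x) α

theorem vv_add (t : ℝ) (u v : PV n) (x : V n) : vv t (u + v) x = vv t u x + vv t v x := rfl
theorem vv_sub (t : ℝ) (u v : PV n) (x : V n) : vv t (u - v) x = vv t u x - vv t v x := rfl
theorem vv_zero (t : ℝ) (x : V n) : vv t (0 : PV n) x = 0 := rfl

theorem vv_cV (t : ℝ) (w x : V n) : vv t (cV w) x = w := funext fun _ => ev_cst _ _ _

theorem vv_mV (t : ℝ) (L : V n →L[ℝ] V n) (u : PV n) (x : V n) :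
    vv t (mV L u) x = L (vv t u x) := by
  funext α
  unfold vv mV
  rw [ev_sum]
  conv_rhs => rw [vec_eq_sum (fun α => ev t (u α) x), map_sum, Finset.sum_apply]
  refine Finset.sum_congr rfl fun β _ => ?_
  rw [map_smul, Pi.smul_apply, ev_smul, smul_eq_mul, mul_comm]

theorem dV_mV (w : V n) (L : V n →L[ℝ] V n) (u : PV n) : dV w (mV L u) = mV L (dV w u) := by
  funext α
  unfold dV mV
  rw [dirs_sum]
  exact Finset.sum_congr rfl fun β _ => dirs_smul _ _ _

theorem dV_add (w : V n) (u v : PV n) : dV w (u + v) = dV w u + dV w v :=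
  funext fun _ => dirs_add _ _ _

theorem dV_sub (w : V n) (u v : PV n) : dV w (u - v) = dV w u - dV w v :=
  funext fun _ => dirs_sub _ _ _

theorem dV_cV (w v : V n) : dV w (cV v) = 0 := funext fun _ => dirs_cst _ _

theorem dV_zero (w : V n) : dV w (0 : PV n) = 0 := funext fun _ => dirs_zero _

theorem dV_comm (v w : V n) (u : PV n) : dV v (dV w u) = dV w (dV v u) :=
  funext fun _ => dirs_comm _ _ _

theorem ev_oP (t : ℝ) (u v : PV n) (x : V n) : ev t (oP u v) x = om (vv t u x) (vv t v x) := by
  unfold oP om vv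
  rw [ev_sum]
  rfl

theorem oP_zero_right (u : PV n) : oP u 0 = 0 := ext_ev fun t x => by
  rw [ev_oP, vv_zero, ev_zero, om_swap, om_zero_left, neg_zero]

theorem oP_zero_left (u : PV n) : oP 0 u = 0 := ext_ev fun t x => by
  rw [ev_oP, vv_zero, ev_zero, om_zero_left]

theorem dirs_oP (w : V n) (u v : PV n) : dirs w (oP u v) = oP (dV w u) v + oP u (dV w v) := by
  unfold oP
  rw [dirs_sum, ← Finset.sum_add_distrib]
  refine Finset.sum_congr rfl fun i _ => ?_
  unfold dV
  rw [dirs_sub, dirs_mul, dirs_mul]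
  ring

theorem vv_dV_perp {H : V n → V n} (hH : IsTorusSymp 1 H) (t : ℝ) (w x : V n) :
    vv t (dV w (perp 1 H hH.smooth hH.equivariant)) x = fderiv ℝ H x w - w := by
  funext α
  unfold vv dV
  rw [ev_dirs, lin_one]
  rfl

theorem vv_perp {H : V n → V n} (hH : IsTorusSymp 1 H) (t : ℝ) (x : V n) :
    vv t (perp 1 H hH.smooth hH.equivariant) x = H x - x := by
  funext α
  unfold vv
  rw [ev_perp, lin_one]
  rfl

theorem fam_eq_vv (u : PV n) (t : ℝ) (x : V n) : fam u t x = x + vv t u x := rfl

theorem fderiv_fam (u : PV n) (t : ℝ) (x w : V n) :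
    fderiv ℝ (fam u t) x w = w + vv t (dV w u) x := by
  have h : HasFDerivAt (fam u t) (ContinuousLinearMap.pi fun α =>
      (ContinuousLinearMap.proj (R := ℝ) (φ := fun _ : Fin n ⊕ Fin n => ℝ) α) +
        fderiv ℝ (ev t (u α)) x) x := by
    rw [hasFDerivAt_pi]
    intro α
    exact ((ContinuousLinearMap.proj (R := ℝ) (φ := fun _ : Fin n ⊕ Fin n => ℝ)
      α).hasFDerivAt (x := x)).add (hasFDerivAt_ev t (u α) x).differentiableAt.hasFDerivAt
  rw [h.fderiv]
  funext α
  simp only [ContinuousLinearMap.coe_pi', _root_.add_apply, ContinuousLinearMap.proj_apply]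
  rw [← ev_dirs_eq]
  rfl

/-! ### Averages along a linear foliation -/

/-- the frequencies orthogonal to a subspace -/
def frq (Q : Submodule ℝ (V n)) (k : K (n + n)) : Prop :=
  ∀ q ∈ Q, ∑ β, (k (ix β) : ℝ) * q β = 0

open Classical in
/-- the multiplier of the average -/
def mC (Q : Submodule ℝ (V n)) (k : K (n + n)) : ℂ := if frq Q k then 1 else 0

theorem frq_neg (Q : Submodule ℝ (V n)) (k : K (n + n)) : frq Q (-k) ↔ frq Q k := by
  unfold frq
  refine forall_congr' fun q => forall_congr' fun _ => ?_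
  simp only [Pi.neg_apply, Int.cast_neg, neg_mul, Finset.sum_neg_distrib, neg_eq_zero]

theorem sym_mC (Q : Submodule ℝ (V n)) : Sym (mC Q) where
  tame := tame_of_bdd 1 fun k => by
    unfold mC
    split_ifs <;> simp
  symm := fun k => by
    unfold mC
    by_cases h : frq Q k
    · rw [if_pos h, if_pos ((frq_neg Q k).2 h)]
      simp
    · rw [if_neg h, if_neg fun h' => h ((frq_neg Q k).1 h')]
      simp

/-- the average along the translates of a subspace -/
def cut (Q : Submodule ℝ (V n)) (f : PS (n + n)) : PS (n + n) := mr (sym_mC Q) f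

theorem hat_cut (Q : Submodule ℝ (V n)) (f : PS (n + n)) (k : K (n + n)) :
    hat (cut Q f) k = mC Q k * hat f k := hat_mr _ _ _

theorem cut_add (Q : Submodule ℝ (V n)) (f g : PS (n + n)) : cut Q (f + g) = cut Q f + cut Q g :=
  ext_hat fun k => by rw [hat_cut, hat_add, hat_add, hat_cut, hat_cut]; ring

theorem cut_sub (Q : Submodule ℝ (V n)) (f g : PS (n + n)) : cut Q (f - g) = cut Q f - cut Q g :=
  ext_hat fun k => by rw [hat_cut, hat_sub, hat_sub, hat_cut, hat_cut]; ring

theorem cut_smul (Q : Submodule ℝ (V n)) (c : ℝ) (f : PS (n + n)) :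
    cut Q (c • f) = c • cut Q f :=
  ext_hat fun k => by rw [hat_cut, hat_smul, hat_smul, hat_cut]; ring

theorem cut_zero (Q : Submodule ℝ (V n)) : cut Q (0 : PS (n + n)) = 0 :=
  ext_hat fun k => by rw [hat_cut, hat_zero, mul_zero]

theorem dirs_cut (Q : Submodule ℝ (V n)) (w : V n) (f : PS (n + n)) :
    dirs w (cut Q f) = cut Q (dirs w f) :=
  ext_hat fun k => by rw [hat_dirs, hat_cut, hat_cut, hat_dirs]; ring

theorem dirs_cut_self (Q : Submodule ℝ (V n)) {q : V n} (hq : q ∈ Q) (f : PS (n + n)) :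
    dirs q (cut Q f) = 0 := by
  rw [dirs_eq_zero_iff]
  intro k hk
  rw [hat_cut] at hk
  unfold mC at hk
  by_cases h : frq Q k
  · exact h q hq
  · rw [if_neg h, zero_mul] at hk
    exact absurd rfl hk

theorem cut_of_inv (Q : Submodule ℝ (V n)) {f : PS (n + n)} (h : ∀ q ∈ Q, dirs q f = 0) :
    cut Q f = f := by
  refine ext_hat fun k => ?_
  rw [hat_cut]
  unfold mC
  by_cases hk : hat f k = 0
  · rw [hk, mul_zero]
  · have h1 : frq Q k := fun q hq => (dirs_eq_zero_iff q f).1 (h q hq) k hk
    rw [if_pos h1, one_mul]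

end Pool.Agent.Helper597_torsymp
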