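import Pool.Agent.Helper597_torsymp.Dec

/-!
# The decomposition theorem, and systems of linear foliations
-/

set_option autoImplicit false
set_option linter.unusedSectionVars false

open Set Filter Topology MeasureTheory
open scoped ContDiff

noncomputable section

namespace Pool.Agent.Helper597_torsymp

open Pool.Agent.Helper597_fou Pool.Agent.Helper597_fou.PS

variable {n : ℕ}

theorem map_eq_of_invariant {L : V n →L[ℝ] V n} (hinj : Function.Injective L)
    {P : Submodule ℝ (V n)} (h : ∀ p ∈ P, L p ∈ P) {p : V n} (hp : p ∈ P) : ∃ p' ∈ P, L p' = p := by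
  have hinj' : Function.Injective (L : V n →ₗ[ℝ] V n) := hinj
  have hmap : P.map (L : V n →ₗ[ℝ] V n) = P := by
    refine Submodule.eq_of_le_of_finrank_eq ?_ ?_
    · rintro _ ⟨q, hq, rfl⟩
      exact h q hq
    · exact (Submodule.equivMapOfInjective _ hinj' P).finrank_eq.symm
  rw [← hmap] at hp
  obtain ⟨p', hp', e⟩ := hp
  exact ⟨p', hp', e⟩

/-- **The decomposition theorem.** A symplectomorphism of the torus which acts trivially on the
lattice and preserves a linear foliation `P` is the composition of one which commutes with the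
translations in the directions orthogonal to `P` and of one which commutes with the translations
in the directions of `P`. -/
theorem exists_decomposition {H : V n → V n} (hH : IsTorusSymp 1 H) {P : Submodule ℝ (V n)}
    (hP : ∀ x, ∀ p ∈ P, fderiv ℝ H x p ∈ P) :
    ∃ G H' : V n → V n, IsTorusSymp 1 G ∧ IsTorusSymp 1 H' ∧ (∀ x, H' (G x) = H x) ∧
      orth P ≤ Fx G ∧ P ≤ Fx H' ∧
      ∀ x, ∀ u ∈ orth P, ∃ y, fderiv ℝ H' x u = fderiv ℝ H y u := by
  obtain ⟨g, g1, g2, g3, g4⟩ := exists_piece hH hP
  set G : V n → V n := fam g 0 with hGdef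
  have hslice : ContDiff ℝ ∞ fun x : V n => ((0, x) : ℝ × V n) := contDiff_const.prodMk contDiff_id
  have hGs : ContDiff ℝ ∞ G := (fam_contDiff g).comp hslice
  have hGd : Differentiable ℝ G := hGs.differentiable (by simp)
  obtain ⟨B₁, B, hB, hB1, hB2, hBH, hHB⟩ := hH.exists_symm
  have hHd := hH.diff
  -- displacement
  have f1 : ∀ x, G x - x - G 0 ∈ P := by
    intro x
    rw [← orth_orth P, mem_orth]
    intro q hq
    refine const_of_om hGd (fun y u => ?_) x
    exact (mem_orth_iff_left P q).1 hq _ (g2 y u)
  have f2 : ∀ x, ∀ p ∈ P, G (x + p) - H (x + p) = G x - H x := by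
    intro x p hp
    refine const_dir (f := fun y => G y - H y) (hGd.sub hHd) (fun y => ?_) x
    have h1 : HasFDerivAt (fun y => G y - H y) (fderiv ℝ G y - fderiv ℝ H y) y :=
      (hGd y).hasFDerivAt.sub (hHd y).hasFDerivAt
    rw [h1.fderiv, _root_.sub_apply, g4 y p hp, sub_self]
  have f3 : ∀ z, ∀ p ∈ P, B (z + p) - B z ∈ P := by
    intro z p hp
    rw [← orth_orth P, mem_orth]
    intro q hq
    have h1 : ∀ y : V n, HasFDerivAt (fun y => om q (B y))
        ((LinearMap.toContinuousLinearMap (omB q)).comp (fderiv ℝ B y)) y := fun y =>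
      (LinearMap.toContinuousLinearMap (omB q)).hasFDerivAt.comp y (hB.diff y).hasFDerivAt
    have h2 := const_dir (f := fun y => om q (B y)) (fun y => (h1 y).differentiableAt) (v := p)
      (fun y => by
        rw [(h1 y).fderiv]
        exact (mem_orth_iff_left P q).1 hq _ (by
          have h3 : Function.Injective (fderiv ℝ H (B y)) := (hH.fderiv_bij (B y)).1
          obtain ⟨p', hp', e⟩ := map_eq_of_invariant h3 (hP (B y)) hp
          have h4 : HasFDerivAt (fun x => B (H x)) ((fderiv ℝ B (H (B y))).comp
              (fderiv ℝ H (B y))) (B y) :=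
            (hB.diff (H (B y))).hasFDerivAt.comp (B y) (hHd (B y)).hasFDerivAt
          have h5 : (fun x => B (H x)) = id := funext hBH
          rw [h5] at h4
          have h6 := congrArg (fun L : V n →L[ℝ] V n => L p') (h4.unique (hasFDerivAt_id (B y)))
          simp only [ContinuousLinearMap.comp_apply, ContinuousLinearMap.id_apply] at h6
          rw [e, hHB] at h6
          have h7 : (fderiv ℝ B y) p ∈ P := by
            rw [h6]
            exact hp'
          exact h7)) z
    rw [om_sub_right, h2, sub_self]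
  -- `G` is a diffeomorphism
  set Gi : V n → V n := fun z => B (H (z - G 0) + z - G (z - G 0)) with hGi
  have hGis : ContDiff ℝ ∞ Gi := by
    have h1 : ContDiff ℝ ∞ fun z : V n => z - G 0 := contDiff_id.sub contDiff_const
    exact hB.smooth.comp (((hH.smooth.comp h1).add contDiff_id).sub (hGs.comp h1))
  have hl : ∀ x, Gi (G x) = x := by
    intro x
    have e1 : G x - G 0 = x + (G x - x - G 0) := by abel
    have e2 := f2 x _ (f1 x)
    rw [← e1] at e2
    have e3 : H (G x - G 0) + G x - G (G x - G 0) = H x := by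
      have : H (G x - G 0) + G x - G (G x - G 0) =
          G x - (G (G x - G 0) - H (G x - G 0)) := by abel
      rw [this, e2]
      abel
    rw [hGi]
    simp only
    rw [e3, hBH]
  have hr : ∀ z, G (Gi z) = z := by
    intro z
    set y := z - G 0 with hy
    have e0 : z - G y ∈ P := by
      have h1 := P.neg_mem (f1 y)
      have : -(G y - y - G 0) = z - G y := by
        rw [hy]
        abel
      rwa [this] at h1
    have e1 : Gi z = B (H y + (z - G y)) := by
      rw [hGi]
      simp only
      rw [← hy]
      congr 1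
      abel
    have e2 := f3 (H y) _ e0
    rw [hBH, ← e1] at e2
    have e3 := f2 y _ e2
    have e4 : y + (Gi z - y) = Gi z := by abel
    rw [e4] at e3
    have e5 : H (Gi z) = H y + (z - G y) := by rw [e1, hHB]
    rw [e5] at e3
    have : G (Gi z) = (G (Gi z) - (H y + (z - G y))) + (H y + (z - G y)) := by abel
    rw [this, e3]
    abel
  have hG : IsTorusSymp 1 G := ⟨hGs, ⟨Gi, hGis, hl, hr⟩, fun x k => by
    rw [Matrix.one_mulVec]
    exact fam_lat g 0 x k, g1⟩
  obtain ⟨B₂, K, hK, hK1, hK2, hKG, hGK⟩ := hG.exists_symm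
  rw [Matrix.one_mul] at hK1
  subst hK1
  have hH' := hH.comp hK
  rw [Matrix.one_mul] at hH'
  set H' : V n → V n := fun x => H (K x) with hH'def
  have hcomp : ∀ x u, fderiv ℝ H' (G x) (fderiv ℝ G x u) = fderiv ℝ H x u := by
    intro x u
    have h4 : HasFDerivAt (fun x => H' (G x)) ((fderiv ℝ H' (G x)).comp (fderiv ℝ G x)) x :=
      (hH'.diff (G x)).hasFDerivAt.comp x (hGd x).hasFDerivAt
    have h5 : (fun x => H' (G x)) = H := funext fun x => by
      rw [hH'def]
      simp only
      rw [hKG]
    rw [h5] at h4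
    rw [h4.fderiv]
    rfl
  refine ⟨G, H', hG, hH', fun x => ?_, fun q hq x => g3 x q hq, fun p hp z => ?_,
    fun z u hu => ⟨K z, ?_⟩⟩
  · rw [hH'def]
    simp only
    rw [hKG]
  · have hGP : ∀ p ∈ P, fderiv ℝ G (K z) p ∈ P := fun p hp => by
      rw [g4 (K z) p hp]
      exact hP (K z) p hp
    obtain ⟨p', hp', e⟩ := map_eq_of_invariant (hG.fderiv_bij (K z)).1 hGP hp
    have h1 := hcomp (K z) p'
    rw [hGK, e, ← g4 (K z) p' hp', e] at h1
    exact h1
  · have h1 := hcomp (K z) u
    rwa [g3 (K z) u hu, hGK] at h1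

/-- **Systems of linear foliations.** A symplectomorphism of `T^{2n}` which acts trivially on the
lattice and preserves pairwise orthogonal linear foliations `P i`, such that the symplectic
quotients of the `P i` and of the orthogonal complement of their sum have dimension at most two, is
symplectically isotopic to the identity. -/
theorem isotopic_of_system (hn : 0 < n) {ι : Type} [Fintype ι] {P : ι → Submodule ℝ (V n)}
    (hor : ∀ i j, i ≠ j → P i ≤ orth (P j))
    (hP2 : ∀ i, Module.finrank ℝ (P i) ≤ Module.finrank ℝ ↥(P i ⊓ orth (P i)) + 2)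
    (hS2 : Module.finrank ℝ (orth (⨆ i, P i)) ≤
      Module.finrank ℝ ↥((⨆ i, P i) ⊓ orth (⨆ i, P i)) + 2) :
    ∀ (s : Finset ι) {H : V n → V n}, IsTorusSymp 1 H →
      (∀ i ∈ s, ∀ x, ∀ p ∈ P i, fderiv ℝ H x p ∈ P i) → (∀ i, i ∉ s → P i ≤ Fx H) →
      SymplecticallyIsotopic 1 id H := by
  classical
  intro s
  induction s using Finset.induction_on with
  | empty =>
    intro H hH _ hfix
    obtain ⟨L, hL, hiso, hd⟩ := exists_isotropic (⨆ i, P i) hS2
    have hsup : (⨆ i, P i) ≤ Fx H := iSup_le fun i => hfix i (Finset.notMem_empty i)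
    exact isotopic_of_Fx hH hn (hL.trans hsup) hiso hd
  | insert i s hi ih =>
    intro H hH hinv hfix
    obtain ⟨G, H', hG, hH', hHG, h1, h2, h3⟩ :=
      exists_decomposition hH (hinv i (Finset.mem_insert_self i s))
    -- the first factor
    obtain ⟨L, hL, hiso, hd⟩ := exists_isotropic (orth (P i)) (by
      rw [orth_orth, inf_comm]
      exact hP2 i)
    have i1 := isotopic_of_Fx hG hn (hL.trans h1) hiso hd
    -- the second factor
    have i2 := ih hH' (fun j hj x p hp => by
      have hij : j ≠ i := fun h => hi (h ▸ hj)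
      obtain ⟨y, hy⟩ := h3 x p (hor j i hij hp)
      rw [hy]
      exact hinv j (Finset.mem_insert_of_mem hj) y p hp) (fun j hj => by
      by_cases hij : j = i
      · subst hij
        exact h2
      · intro p hp x
        obtain ⟨y, hy⟩ := h3 x p (hor j i hij hp)
        rw [hy]
        exact hfix j (fun h => (Finset.mem_insert.1 h).elim hij hj) hp y)
    have i3 := i1.comp_left hH'
    rw [Matrix.one_mul] at i3
    have e1 : (fun x => H' ((id : V n → V n) x)) = H' := rfl
    have e2 : (fun x => H' (G x)) = H := funext hHG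
    rw [e1, e2] at i3
    exact i2.trans i3

end Pool.Agent.Helper597_torsymp
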