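import Pool.Agent.Helper597_torsymp.Line2

/-!
# Symplectomorphisms of `T⁴` which preserve a linear foliation
-/

set_option autoImplicit false
set_option linter.unusedSectionVars false

open Set Filter Topology MeasureTheory
open scoped ContDiff

noncomputable section

namespace Pool.Agent.Helper597_torsymp

open Pool.Agent.Helper597_fou Pool.Agent.Helper597_fou.PS

variable {n : ℕ}

theorem isTorusSymp_id : IsTorusSymp (1 : Matrix (Fin n ⊕ Fin n) (Fin n ⊕ Fin n) ℤ)
    (id : V n → V n) := by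
  have h1 := isTorusSymp_translation (0 : V n)
  have h2 : (fun x : V n => x + 0) = id := funext fun x => add_zero x
  rwa [h2] at h1

theorem lin_one_eq_id : (fun x : V n => lin (1 : Matrix (Fin n ⊕ Fin n) (Fin n ⊕ Fin n) ℤ) x) =
    id := funext fun x => lin_one x

/-- the displacement is bounded -/
theorem IsTorusSymp.bounded {H : V n → V n} (hH : IsTorusSymp 1 H) :
    ∃ C : ℝ, ∀ x, ‖H x - x‖ ≤ C := by
  obtain ⟨C, hC⟩ := bdd_periodic (ι := Fin n ⊕ Fin n) (f := fun p : ℝ × V n => H p.2 - p.2)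
    ((hH.smooth.continuous.comp continuous_snd).sub continuous_snd) (fun t x k => by
      have := hH.equivariant x k
      rw [Matrix.one_mulVec] at this
      show H (x + ilat k) - (x + ilat k) = H x - x
      rw [← lat_eq_ilat, this]
      abel) 0 1
  exact ⟨C, fun x => hC 0 ⟨le_refl _, zero_le_one⟩ x⟩

theorem eq_zero_of_bounded {z : V n} {C : ℝ} (h : ∀ t : ℝ, ‖t • z‖ ≤ C) : z = 0 := by
  by_contra hz
  have hz' : 0 < ‖z‖ := norm_pos_iff.2 hz
  have h1 := h ((C + 1) / ‖z‖)
  rw [norm_smul, norm_div, norm_norm, div_mul_cancel₀ _ hz'.ne', Real.norm_eq_abs] at h1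
  have := le_abs_self (C + 1)
  linarith

/-- a function whose derivative in the direction `v` vanishes everywhere -/
theorem const_dir {F : Type} [NormedAddCommGroup F] [NormedSpace ℝ F] {f : V n → F}
    (hf : Differentiable ℝ f) {v : V n} (h : ∀ x, fderiv ℝ f x v = 0) (x : V n) :
    f (x + v) = f x := by
  have h1 : ∀ t : ℝ, HasDerivAt (fun t : ℝ => f (x + t • v)) 0 t := by
    intro t
    have h2 : HasDerivAt (fun t : ℝ => x + t • v) v t := by
      simpa using ((hasDerivAt_id t).smul_const v).const_add x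
    have h3 := (hf (x + t • v)).hasFDerivAt.comp_hasDerivAt t h2
    rw [h] at h3
    exact h3
  have h5 := is_const_of_deriv_eq_zero (fun t => (h1 t).differentiableAt)
    (fun t => (h1 t).deriv) 1 0
  simpa using h5

/-- a symplectomorphism which acts trivially on the lattice and preserves a linear isotropic
foliation commutes with the translations along it -/
theorem fix_of_isotropic {H : V n → V n} (hH : IsTorusSymp 1 H) {L : Submodule ℝ (V n)}
    (hL : ∀ x, ∀ k ∈ L, fderiv ℝ H x k ∈ L) (hiso : ∀ k ∈ L, ∀ k' ∈ L, om k k' = 0) (x v : V n)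
    (hv : v ∈ L) : fderiv ℝ H x v = v := by
  have hdiff := hH.diff
  -- the functions `ω(k, H)`
  have hg : ∀ (k : V n) (x u : V n), fderiv ℝ (fun y => om k (H y)) x u =
      om k (fderiv ℝ H x u) := by
    intro k x u
    have h1 : HasFDerivAt (fun y => om k (H y))
        ((LinearMap.toContinuousLinearMap (omB k)).comp (fderiv ℝ H x)) x :=
      (LinearMap.toContinuousLinearMap (omB k)).hasFDerivAt.comp x (hdiff x).hasFDerivAt
    rw [h1.fderiv]
    rfl
  have hgd : ∀ k : V n, Differentiable ℝ fun y => om k (H y) := fun k y =>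
    ((LinearMap.toContinuousLinearMap (omB k)).hasFDerivAt.comp y
      (hdiff y).hasFDerivAt).differentiableAt
  have hconst : ∀ k ∈ L, ∀ v ∈ L, ∀ x, om k (H (x + v)) = om k (H x) := by
    intro k hk v hv x
    exact const_dir (hgd k) (fun y => by rw [hg]; exact hiso k hk _ (hL y v hv)) x
  have hder : ∀ k ∈ L, ∀ v ∈ L, ∀ x u, om k (fderiv ℝ H (x + v) u) = om k (fderiv ℝ H x u) := by
    intro k hk v hv x u
    rw [← hg, ← hg]
    have h1 : (fun y => om k (H (y + v))) = fun y => om k (H y) :=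
      funext fun y => hconst k hk v hv y
    rw [← fderiv_comp_add_right (f := fun y => om k (H y)) v, h1]
  have hB : ∀ v ∈ L, ∀ w ∈ L, ∀ x, fderiv ℝ H (x + w) v = fderiv ℝ H x v := by
    intro v hv w hw x
    rw [← sub_eq_zero]
    refine om_nondeg _ fun z => ?_
    obtain ⟨u, hu⟩ := (hH.fderiv_bij (x + w)).2 z
    rw [← hu, om_sub_left, hH.symplectic, hder _ (hL x v hv) w hw, hH.symplectic]
    ring
  -- the curve `t ↦ H (x + t v)` is affine
  set z := fderiv ℝ H x v with hz
  have haff : ∀ t : ℝ, H (x + t • v) = H x + t • z := by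
    intro t
    have h1 : ∀ t : ℝ, HasDerivAt (fun t : ℝ => H (x + t • v) - t • z) 0 t := by
      intro t
      have h2 : HasDerivAt (fun t : ℝ => x + t • v) v t := by
        simpa using ((hasDerivAt_id t).smul_const v).const_add x
      have h3 := (hdiff (x + t • v)).hasFDerivAt.comp_hasDerivAt t h2
      rw [hB v hv (t • v) (L.smul_mem _ hv) x] at h3
      have h4 : HasDerivAt (fun t : ℝ => t • z) z t := by
        simpa using (hasDerivAt_id t).smul_const z
      have h5 := h3.sub h4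
      rw [← hz, sub_self] at h5
      exact h5
    have h5 := is_const_of_deriv_eq_zero (fun t => (h1 t).differentiableAt)
      (fun t => (h1 t).deriv) t 0
    simp only [zero_smul, add_zero, sub_zero] at h5
    rw [← h5]
    abel
  obtain ⟨C, hC⟩ := hH.bounded
  have h0 : z - v = 0 := by
    refine eq_zero_of_bounded (C := 2 * C) fun t => ?_
    have h1 := hC (x + t • v)
    have h2 := hC x
    rw [haff t] at h1
    have h3 : t • (z - v) = (H x + t • z - (x + t • v)) - (H x - x) := by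
      rw [smul_sub]
      abel
    rw [h3]
    refine (norm_sub_le _ _).trans ?_
    linarith
  exact sub_eq_zero.1 h0

/-! ### Splittings -/

/-- the part of a map in the image of a projection -/
def part (π : V n →L[ℝ] V n) (H : V n → V n) (x : V n) : V n := x + π (H x - x)

/-- projections along a splitting -/
theorem exists_proj {P Q : Submodule ℝ (V n)} (h : IsCompl P Q) :
    ∃ π : V n →L[ℝ] V n, (∀ v, π v ∈ P) ∧ (∀ v, v - π v ∈ Q) ∧ (∀ p ∈ P, π p = p) ∧
      ∀ q ∈ Q, π q = 0 := by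
  refine ⟨LinearMap.toContinuousLinearMap (P.subtype.comp (P.projectionOnto Q h)),
    fun v => ?_, fun v => ?_, fun p hp => ?_, fun q hq => ?_⟩
  · exact (P.projectionOnto Q h v).2
  · have h1 : P.projectionOnto Q h (v - (P.projectionOnto Q h v : V n)) = 0 := by
      rw [map_sub, Submodule.projectionOnto_apply_left, sub_self]
    exact (Submodule.projectionOnto_apply_eq_zero_iff h).1 h1
  · exact congrArg Subtype.val (Submodule.projectionOnto_apply_left h ⟨p, hp⟩)
  · exact congrArg Subtype.val ((Submodule.projectionOnto_apply_eq_zero_iff h).2 hq)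

section split

variable {P Q : Submodule ℝ (V n)} {π : V n →L[ℝ] V n}
  (h1 : ∀ v, π v ∈ P) (h2 : ∀ v, v - π v ∈ Q) (h3 : ∀ p ∈ P, π p = p) (h4 : ∀ q ∈ Q, π q = 0)
  (hPQ : ∀ p ∈ P, ∀ q ∈ Q, om p q = 0)

include h1 h2 h3 h4 hPQ

theorem hasFDerivAt_part {H : V n → V n} (hH : Differentiable ℝ H) (x : V n) :
    HasFDerivAt (part π H) (ContinuousLinearMap.id ℝ _ +
      π.comp (fderiv ℝ H x - ContinuousLinearMap.id ℝ _)) x :=
  (hasFDerivAt_id x).add (π.hasFDerivAt.comp x ((hH x).hasFDerivAt.sub (hasFDerivAt_id x)))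

theorem fderiv_part {H : V n → V n} (hH : Differentiable ℝ H)
    (hP : ∀ x, ∀ p ∈ P, fderiv ℝ H x p ∈ P) (hQ : ∀ x, ∀ q ∈ Q, fderiv ℝ H x q ∈ Q) (x u : V n) :
    fderiv ℝ (part π H) x u = (u - π u) + fderiv ℝ H x (π u) := by
  rw [(hasFDerivAt_part h1 h2 h3 h4 hPQ hH x).fderiv]
  simp only [_root_.add_apply, ContinuousLinearMap.comp_apply, _root_.sub_apply,
    ContinuousLinearMap.id_apply, map_sub]
  have e : π (fderiv ℝ H x u) = fderiv ℝ H x (π u) := by
    have e1 : fderiv ℝ H x u = fderiv ℝ H x (π u) + fderiv ℝ H x (u - π u) := by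
      rw [← map_add]
      congr 1
      abel
    rw [e1, map_add, h3 _ (hP x _ (h1 u)), h4 _ (hQ x _ (h2 u)), add_zero]
  rw [e]
  abel

/-- `π ∘ H` does not depend on the component in `Q` -/
theorem pi_invariant {H : V n → V n} (hH : Differentiable ℝ H)
    (hQ : ∀ x, ∀ q ∈ Q, fderiv ℝ H x q ∈ Q) (x q : V n) (hq : π q = 0) :
    π (H (x + q)) = π (H x) := by
  have hqQ : q ∈ Q := by
    have := h2 q
    rwa [hq, sub_zero] at this
  refine const_dir (f := fun y => π (H y)) (π.differentiable.comp hH) (fun y => ?_) x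
  have h : HasFDerivAt (fun y => π (H y)) (π.comp (fderiv ℝ H y)) y :=
    π.hasFDerivAt.comp y (hH y).hasFDerivAt
  rw [h.fderiv]
  exact h4 _ (hQ y q hqQ)

/-- the inverse of a part -/
theorem part_part {H G : V n → V n} (hG : Differentiable ℝ G)
    (hQ : ∀ x, ∀ q ∈ Q, fderiv ℝ G x q ∈ Q) (hGH : ∀ x, G (H x) = x) (x : V n) :
    part π G (part π H x) = x := by
  set y := part π H x with hy
  have hππ : ∀ v, π (π v) = π v := fun v => h3 _ (h1 v)
  have e1 : π y = π (H x) := by
    rw [hy]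
    unfold part
    rw [map_add, hππ, map_sub]
    abel
  have e2 : π (G y) = π x := by
    have e3 : π (y - H x) = 0 := by rw [map_sub, e1, sub_self]
    have e4 := pi_invariant h1 h2 h3 h4 hPQ hG hQ (H x) (y - H x) e3
    rw [hGH] at e4
    rw [← e4]
    congr 2
    abel
  unfold part
  rw [map_sub, e2, e1, hy]
  unfold part
  rw [map_sub]
  abel

theorem fderiv_symm_mem {H G : V n → V n} (hH : IsTorusSymp 1 H) (hG : Differentiable ℝ G)
    (hGH : ∀ x, G (H x) = x) (hHG : ∀ x, H (G x) = x) {L : Submodule ℝ (V n)}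
    (hL : ∀ x, ∀ p ∈ L, fderiv ℝ H x p ∈ L) (x p : V n) (hp : p ∈ L) : fderiv ℝ G x p ∈ L := by
  -- `DH` maps `L` onto `L`
  have hinj : Function.Injective (fderiv ℝ H (G x)) := (hH.fderiv_bij (G x)).1
  have hmap : L.map (fderiv ℝ H (G x) : V n →ₗ[ℝ] V n) = L := by
    refine Submodule.eq_of_le_of_finrank_eq ?_ ?_
    · rintro _ ⟨q, hq, rfl⟩
      exact hL _ q hq
    · exact (Submodule.equivMapOfInjective _ hinj L).finrank_eq.symm
  have hp' : p ∈ L.map (fderiv ℝ H (G x) : V n →ₗ[ℝ] V n) := by rw [hmap]; exact hp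
  obtain ⟨p', hp', e⟩ := hp'
  have hcomp : fderiv ℝ G (H (G x)) (fderiv ℝ H (G x) p') = p' := by
    have h : HasFDerivAt (fun y => G (H y)) ((fderiv ℝ G (H (G x))).comp (fderiv ℝ H (G x)))
        (G x) := (hG (H (G x))).hasFDerivAt.comp (G x) (hH.diff (G x)).hasFDerivAt
    have h4 : (fun x => G (H x)) = id := funext hGH
    rw [h4] at h
    have h5 := h.unique (hasFDerivAt_id (G x))
    have h6 := congrArg (fun L : V n →L[ℝ] V n => L p') h5
    simpa using h6
  have e' : fderiv ℝ H (G x) p' = p := e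
  rw [e', hHG] at hcomp
  rw [hcomp]
  exact hp'

/-- the parts of a symplectomorphism which preserves a symplectic splitting -/
theorem isTorusSymp_part {H : V n → V n} (hH : IsTorusSymp 1 H)
    (hP : ∀ x, ∀ p ∈ P, fderiv ℝ H x p ∈ P) (hQ : ∀ x, ∀ q ∈ Q, fderiv ℝ H x q ∈ Q) :
    IsTorusSymp 1 (part π H) := by
  obtain ⟨B, G, hG, hAB, hBA, hGH, hHG⟩ := hH.exists_symm
  have hGQ : ∀ x, ∀ q ∈ Q, fderiv ℝ G x q ∈ Q := fun x q hq =>
    fderiv_symm_mem h1 h2 h3 h4 hPQ hH hG.diff hGH hHG hQ x q hq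
  have hHd := hH.diff
  have hsm : ∀ {K : V n → V n}, ContDiff ℝ ∞ K → ContDiff ℝ ∞ (part π K) := fun hK =>
    contDiff_id.add (π.contDiff.comp (hK.sub contDiff_id))
  refine ⟨hsm hH.smooth, ⟨part π G, hsm hG.smooth, fun x => ?_, fun x => ?_⟩, fun x k => ?_,
    fun x u v => ?_⟩
  · exact part_part h1 h2 h3 h4 hPQ hG.diff hGQ hGH x
  · exact part_part h1 h2 h3 h4 hPQ hHd hQ hHG x
  · have := hH.equivariant x k
    rw [Matrix.one_mulVec] at this ⊢
    unfold part
    rw [this]
    have e : H x + lat k - (x + lat k) = H x - x := by abel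
    rw [e]
    abel
  · rw [fderiv_part h1 h2 h3 h4 hPQ hHd hP hQ, fderiv_part h1 h2 h3 h4 hPQ hHd hP hQ]
    have c1 : om (u - π u) (fderiv ℝ H x (π v)) = 0 := by
      rw [om_swap, hPQ _ (hP x _ (h1 v)) _ (h2 u), neg_zero]
    have c2 : om (fderiv ℝ H x (π u)) (v - π v) = 0 := hPQ _ (hP x _ (h1 u)) _ (h2 v)
    have c3 : om (u - π u) (π v) = 0 := by
      rw [om_swap, hPQ _ (h1 v) _ (h2 u), neg_zero]
    have c4 : om (π u) (v - π v) = 0 := hPQ _ (h1 u) _ (h2 v)
    have e1 : om u v = om (u - π u) (v - π v) + om (π u) (π v) := by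
      have : om u v = om ((u - π u) + π u) ((v - π v) + π v) := by
        congr 1 <;> abel
      rw [this, om_add_left, om_add_right, om_add_right, c3, c4]
      ring
    rw [om_add_left, om_add_right, om_add_right, c1, c2, hH.symplectic, e1]
    ring

theorem fderiv_part_fix {H : V n → V n} (hH : IsTorusSymp 1 H)
    (hP : ∀ x, ∀ p ∈ P, fderiv ℝ H x p ∈ P) (hQ : ∀ x, ∀ q ∈ Q, fderiv ℝ H x q ∈ Q) (x q : V n)
    (hq : q ∈ Q) : fderiv ℝ (part π H) x q = q := by
  rw [fderiv_part h1 h2 h3 h4 hPQ hH.diff hP hQ, h4 q hq]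
  simp

end split

/-! ### The foliation theorem -/

/-- the symplectic orthogonal complement -/
def orth (P : Submodule ℝ (V n)) : Submodule ℝ (V n) :=
  LinearMap.BilinForm.orthogonal (omB : LinearMap.BilinForm ℝ (V n)) P

theorem omB_isRefl : (omB : LinearMap.BilinForm ℝ (V n)).IsRefl := by
  intro v w h
  rw [omB_apply] at h ⊢
  rw [om_swap, h, neg_zero]

theorem mem_orth (P : Submodule ℝ (V n)) (v : V n) :
    v ∈ orth P ↔ ∀ p ∈ P, om p v = 0 := by
  unfold orth
  rw [LinearMap.BilinForm.mem_orthogonal_iff]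
  rfl

/-- the distribution orthogonal to an invariant distribution is invariant -/
theorem orth_invariant {H : V n → V n} (hH : IsTorusSymp 1 H) {P : Submodule ℝ (V n)}
    (hP : ∀ x, ∀ p ∈ P, fderiv ℝ H x p ∈ P) (x v : V n)
    (hv : v ∈ orth P) :
    fderiv ℝ H x v ∈ orth P := by
  rw [mem_orth] at hv ⊢
  intro p hp
  have hinj : Function.Injective (fderiv ℝ H x) := (hH.fderiv_bij x).1
  have hmap : P.map (fderiv ℝ H x : V n →ₗ[ℝ] V n) = P := by
    refine Submodule.eq_of_le_of_finrank_eq ?_ ?_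
    · rintro _ ⟨q, hq, rfl⟩
      exact hP _ q hq
    · exact (Submodule.equivMapOfInjective _ hinj P).finrank_eq.symm
  have hp' : p ∈ P.map (fderiv ℝ H x : V n →ₗ[ℝ] V n) := by rw [hmap]; exact hp
  obtain ⟨p', hp', rfl⟩ := hp'
  show om (fderiv ℝ H x p') (fderiv ℝ H x v) = 0
  rw [hH.symplectic]
  exact hv p' hp'

/-- a symplectomorphism of `T⁴` which acts trivially on the lattice and preserves a linear
foliation is symplectically isotopic to the identity -/
theorem isotopic_of_invariant {H : V 2 → V 2} (hH : IsTorusSymp 1 H) {P : Submodule ℝ (V 2)}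
    (hbot : P ≠ ⊥) (htop : P ≠ ⊤) (hP : ∀ x, ∀ p ∈ P, fderiv ℝ H x p ∈ P) :
    SymplecticallyIsotopic 1 id H := by
  set Q : Submodule ℝ (V 2) := orth P with hQdef
  have hQ : ∀ x, ∀ q ∈ Q, fderiv ℝ H x q ∈ Q := fun x q hq => orth_invariant hH hP x q hq
  by_cases hK : P ⊓ Q = ⊥
  · -- the symplectic case
    have hcompl : IsCompl P Q :=
      (LinearMap.BilinForm.isCompl_orthogonal_iff_disjoint omB_isRefl).2 (disjoint_iff.2 hK)
    obtain ⟨π, h1, h2, h3, h4⟩ := exists_proj hcompl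
    have hPQ : ∀ p ∈ P, ∀ q ∈ Q, om p q = 0 := fun p hp q hq => (mem_orth P q).1 hq p hp
    have hQP : ∀ q ∈ Q, ∀ p ∈ P, om q p = 0 := fun q hq p hp => by
      rw [om_swap, hPQ p hp q hq, neg_zero]
    set π' : V 2 →L[ℝ] V 2 := ContinuousLinearMap.id ℝ _ - π with hπ'
    have hπ'a : ∀ v, π' v = v - π v := fun v => rfl
    have g1 : ∀ v, π' v ∈ Q := h2
    have g2 : ∀ v, v - π' v ∈ P := fun v => by
      rw [hπ'a, sub_sub_cancel]
      exact h1 v
    have g3 : ∀ q ∈ Q, π' q = q := fun q hq => by rw [hπ'a, h4 q hq, sub_zero]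
    have g4 : ∀ p ∈ P, π' p = 0 := fun p hp => by rw [hπ'a, h3 p hp, sub_self]
    have hHP := isTorusSymp_part h1 h2 h3 h4 hPQ hH hP hQ
    have hHQ := isTorusSymp_part g1 g2 g3 g4 hQP hH hQ hP
    -- `Q` is not zero
    have hQbot : Q ≠ ⊥ := by
      intro h
      apply htop
      have := hcompl.sup_eq_top
      rwa [h, sup_bot_eq] at this
    obtain ⟨q, hq, hq0⟩ := Submodule.exists_mem_ne_zero_of_ne_bot hQbot
    obtain ⟨p, hp, hp0⟩ := Submodule.exists_mem_ne_zero_of_ne_bot hbot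
    have i1 := isotopic_of_line hHP hq0 (fun x => by
      rw [fderiv_part_fix h1 h2 h3 h4 hPQ hH hP hQ x q hq, lin_one])
    have i2 := isotopic_of_line hHQ hp0 (fun x => by
      rw [fderiv_part_fix g1 g2 g3 g4 hQP hH hQ hP x p hp, lin_one])
    rw [lin_one_eq_id] at i1 i2
    have i3 := i2.comp_left hHP
    rw [Matrix.one_mul] at i3
    have e1 : (fun x => part π H ((id : V 2 → V 2) x)) = part π H := rfl
    have e2 : (fun x => part π H (part π' H x)) = H := by
      funext x
      set y := part π' H x with hy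
      have hy' : y = x + π' (H x - x) := rfl
      have f1 : π y = π x := by
        have f2 : π (π' (H x - x)) = 0 := h4 _ (g1 _)
        rw [hy', map_add, f2, add_zero]
      have f3 : π (H y) = π (H x) := by
        have f4 : π (π' (H x - x)) = 0 := h4 _ (g1 _)
        rw [hy']
        exact pi_invariant h1 h2 h3 h4 hPQ hH.diff hQ x _ f4
      show y + π (H y - y) = H x
      rw [map_sub, f3, f1, hy', hπ'a, map_sub]
      abel
    rw [e2] at i3
    exact i1.trans i3
  · -- the case of an isotropic subspace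
    obtain ⟨v, hv, hv0⟩ := Submodule.exists_mem_ne_zero_of_ne_bot hK
    have hfix : ∀ x, fderiv ℝ H x v = v := fun x =>
      fix_of_isotropic hH (L := P ⊓ Q) (fun y k hk => ⟨hP y k hk.1, hQ y k hk.2⟩)
        (fun k hk k' hk' => (mem_orth P k').1 hk'.2 k hk.1) x v hv
    have i1 := isotopic_of_line hH hv0 (fun x => by rw [hfix, lin_one])
    rwa [lin_one_eq_id] at i1

variable {A : Matrix (Fin n ⊕ Fin n) (Fin n ⊕ Fin n) ℤ}

/-- two symplectomorphisms which map a linear foliation to the same foliation differ by one which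
preserves the linear foliation -/
theorem exists_of_relative {F₀ F₁ : V n → V n} (h₀ : IsTorusSymp A F₀)
    (h₁ : IsTorusSymp A F₁) {P : Submodule ℝ (V n)}
    (h : ∀ x y, F₀ x = F₁ y → P.map (fderiv ℝ F₀ x : V n →ₗ[ℝ] V n) =
      P.map (fderiv ℝ F₁ y : V n →ₗ[ℝ] V n)) :
    ∃ H : V n → V n, IsTorusSymp 1 H ∧ (∀ x, ∀ p ∈ P, fderiv ℝ H x p ∈ P) ∧
      ∀ x, F₀ (H x) = F₁ x := by
  obtain ⟨B, K, hK, hAB, hBA, hl, hr⟩ := h₀.exists_symm
  have hH := hK.comp h₁
  rw [hBA] at hH
  have hH' : IsTorusSymp 1 fun x => K (F₁ x) := hH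
  refine ⟨fun x => K (F₁ x), hH', fun x p hp => ?_, fun x => hr (F₁ x)⟩
  have e1 := h (K (F₁ x)) x (hr (F₁ x))
  have hp' : fderiv ℝ F₁ x p ∈ P.map (fderiv ℝ F₀ (K (F₁ x)) : V n →ₗ[ℝ] V n) := by
    rw [e1]
    exact ⟨p, hp, rfl⟩
  obtain ⟨p', hp', e2⟩ := hp'
  have e2' : fderiv ℝ F₀ (K (F₁ x)) p' = fderiv ℝ F₁ x p := e2
  have hd : HasFDerivAt (fun x => F₀ (K (F₁ x)))
      ((fderiv ℝ F₀ (K (F₁ x))).comp (fderiv ℝ (fun x => K (F₁ x)) x)) x :=
    (h₀.diff (K (F₁ x))).hasFDerivAt.comp x (hH'.diff x).hasFDerivAt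
  have e3 : (fun x => F₀ (K (F₁ x))) = F₁ := funext fun x => hr (F₁ x)
  rw [e3] at hd
  have e4 : fderiv ℝ F₀ (K (F₁ x)) (fderiv ℝ (fun x => K (F₁ x)) x p) = fderiv ℝ F₁ x p := by
    rw [hd.fderiv]
    rfl
  have e5 : fderiv ℝ (fun x => K (F₁ x)) x p = p' :=
    (h₀.fderiv_bij (K (F₁ x))).1 (by rw [e4, e2'])
  rw [e5]
  exact hp'

/-- a symplectomorphism which maps a linear foliation to a linear foliation differs from its
linear part by one which preserves the linear foliation -/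
theorem exists_of_linear {F : V n → V n} (hF : IsTorusSymp A F) {P : Submodule ℝ (V n)}
    (h : ∀ x y, P.map (fderiv ℝ F x : V n →ₗ[ℝ] V n) = P.map (fderiv ℝ F y : V n →ₗ[ℝ] V n)) :
    ∃ H : V n → V n, IsTorusSymp 1 H ∧ (∀ x, ∀ p ∈ P, fderiv ℝ H x p ∈ P) ∧
      ∀ x, lin A (H x) = F x := by
  obtain ⟨B, hAB, hBA⟩ := exists_inv_matrix hF.mem
  have hBm := mem_of_mul_eq_one hF.mem hAB
  have hH := (isTorusSymp_lin hBm).comp hF
  rw [hBA] at hH
  set H : V n → V n := fun x => lin B (F x) with hHdef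
  have hDH : ∀ x, fderiv ℝ H x = (lin B).comp (fderiv ℝ F x) := fun x =>
    ((lin B).hasFDerivAt.comp x (hF.diff x).hasFDerivAt).fderiv
  -- the image of `P`
  set P' : Submodule ℝ (V n) := P.map (fderiv ℝ H 0 : V n →ₗ[ℝ] V n) with hP'
  have hmem : ∀ x, ∀ p ∈ P, fderiv ℝ H x p ∈ P' := by
    intro x p hp
    have e1 : fderiv ℝ F x p ∈ P.map (fderiv ℝ F 0 : V n →ₗ[ℝ] V n) := by
      rw [← h x 0]
      exact ⟨p, hp, rfl⟩
    obtain ⟨p', hp', e2⟩ := e1
    have e2' : fderiv ℝ F 0 p' = fderiv ℝ F x p := e2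
    refine ⟨p', hp', ?_⟩
    show fderiv ℝ H 0 p' = fderiv ℝ H x p
    rw [hDH, hDH, ContinuousLinearMap.comp_apply, ContinuousLinearMap.comp_apply, e2']
  obtain ⟨C, hC⟩ := hH.bounded
  have hle : P ≤ P' := by
    intro p hp
    by_contra hcon
    obtain ⟨ℓ, hℓ1, hℓ2⟩ := Submodule.exists_dual_map_eq_bot_of_notMem hcon inferInstance
    have hℓ0 : ∀ v ∈ P', ℓ v = 0 := fun v hv => by
      have : ℓ v ∈ P'.map ℓ := ⟨v, hv, rfl⟩
      rw [hℓ2] at this
      exact (Submodule.mem_bot ℝ).1 this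
    set L : V n →L[ℝ] ℝ := LinearMap.toContinuousLinearMap ℓ with hL
    have hconst : ∀ t : ℝ, ℓ (H (t • p)) = ℓ (H 0) := by
      intro t
      have h1 : ∀ t : ℝ, HasDerivAt (fun t : ℝ => L (H (t • p))) 0 t := by
        intro t
        have h2 : HasDerivAt (fun t : ℝ => t • p) p t := by
          simpa using (hasDerivAt_id t).smul_const p
        have h3 := (L.hasFDerivAt.comp (t • p)
          (hH.diff (t • p)).hasFDerivAt).comp_hasDerivAt t h2
        have h4 : L (fderiv ℝ H (t • p) p) = 0 := hℓ0 _ (hmem _ p hp)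
        simp only [ContinuousLinearMap.comp_apply] at h3
        rw [h4] at h3
        exact h3
      have h5 := is_const_of_deriv_eq_zero (fun t => (h1 t).differentiableAt)
        (fun t => (h1 t).deriv) t 0
      simp only [zero_smul] at h5
      exact h5
    have hbd : ∀ t : ℝ, |t * ℓ p| ≤ 2 * (‖L‖ * C) := by
      intro t
      have e1 : t * ℓ p = L (H 0 - 0) - L (H (t • p) - t • p) := by
        rw [map_sub, map_sub, map_zero, map_smul]
        have e2 : L (H (t • p)) = L (H 0) := hconst t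
        rw [e2]
        simp only [smul_eq_mul, sub_zero]
        have e3 : L p = ℓ p := rfl
        rw [e3]
        ring
      have h1 := hC 0
      have h2 := hC (t • p)
      have b1 := L.le_opNorm (H 0 - 0)
      have b2 := L.le_opNorm (H (t • p) - t • p)
      have hn := norm_nonneg L
      rw [e1, ← Real.norm_eq_abs]
      refine (norm_sub_le _ _).trans ?_
      have b3 := mul_le_mul_of_nonneg_left h1 hn
      have b4 := mul_le_mul_of_nonneg_left h2 hn
      linarith
    have hp0 : 0 < |ℓ p| := abs_pos.2 hℓ1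
    have h1 := hbd ((2 * (‖L‖ * C) + 1) / |ℓ p|)
    rw [abs_mul, abs_div, abs_abs, div_mul_cancel₀ _ hp0.ne'] at h1
    have := le_abs_self (2 * (‖L‖ * C) + 1)
    linarith
  have hinj : Function.Injective (fderiv ℝ H 0) := (hH.fderiv_bij 0).1
  have heq : P = P' := Submodule.eq_of_le_of_finrank_eq hle
    (Submodule.equivMapOfInjective _ hinj P).finrank_eq
  refine ⟨H, hH, fun x p hp => ?_, fun x => ?_⟩
  · rw [heq]
    exact hmem x p hp
  · rw [hHdef]
    simp only
    rw [lin_lin, hAB, lin_one]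

theorem isotopic_of_exists {F₀ F₁ H : V n → V n} (h₀ : IsTorusSymp A F₀)
    (hi : SymplecticallyIsotopic 1 id H) (h : ∀ x, F₀ (H x) = F₁ x) :
    SymplecticallyIsotopic A F₀ F₁ := by
  have h1 := hi.comp_left h₀
  rw [Matrix.mul_one] at h1
  have e1 : (fun x => F₀ ((id : V n → V n) x)) = F₀ := rfl
  have e2 : (fun x => F₀ (H x)) = F₁ := funext h
  rwa [e1, e2] at h1

end Pool.Agent.Helper597_torsymp
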