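import Pool.Agent.Helper597_torsymp.Red

/-!
# Symplectomorphisms of `T^{2n}` which preserve a linear isotropic foliation of dimension `n - 1`
-/

set_option autoImplicit false
set_option linter.unusedSectionVars false

open Set Filter Topology MeasureTheory
open scoped ContDiff

noncomputable section

namespace Pool.Agent.Helper597_torsymp

open Pool.Agent.Helper597_fou Pool.Agent.Helper597_fou.PS

variable {n : ℕ}

/-- the directions fixed by all derivatives of `H` -/
def Fx (H : V n → V n) : Submodule ℝ (V n) where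
  carrier := {w | ∀ x, fderiv ℝ H x w = w}
  add_mem' := fun {a b} ha hb x => by rw [map_add, ha x, hb x]
  zero_mem' := fun x => map_zero _
  smul_mem' := fun c a ha x => by rw [map_smul, ha x]

theorem mem_Fx {H : V n → V n} {w : V n} : w ∈ Fx H ↔ ∀ x, fderiv ℝ H x w = w := Iff.rfl

/-- rationality of the space of fixed directions -/
theorem exists_int_Fx {H : V n → V n} (hH : IsTorusSymp 1 H) {w : V n} (hw : w ≠ 0)
    (hwF : w ∈ Fx H) : ∃ w' : Fin n ⊕ Fin n → ℤ, w' ≠ 0 ∧
      (∀ k : Fin n ⊕ Fin n → ℤ, ∑ β, (k β : ℝ) * w β = 0 → ∑ β, k β * w' β = 0) ∧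
      lat w' ∈ Fx H := by
  set Λ : AddSubgroup (Fin n ⊕ Fin n → ℤ) :=
    { carrier := {k | ∑ β, (k β : ℝ) * w β = 0}
      add_mem' := fun {a b} ha hb => by
        simp only [Set.mem_ofPred_eq, Pi.add_apply] at ha hb ⊢
        push_cast
        simp only [add_mul, Finset.sum_add_distrib, ha, hb, add_zero]
      zero_mem' := by simp
      neg_mem' := fun {a} ha => by
        simp only [Set.mem_ofPred_eq, Pi.neg_apply] at ha ⊢
        push_cast
        simp only [neg_mul, Finset.sum_neg_distrib, ha, neg_zero] } with hΛ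
  rcases subgroup_dichotomy Λ with ⟨w', hw', h1⟩ | ⟨N, hN, h2⟩
  · refine ⟨w', hw', fun k hk => h1 k hk, ?_⟩
    have h3 := (line_iff hH w).1 (fun x => by rw [lin_one]; exact hwF x)
    have h4 := (line_iff hH (lat w')).2 (fun α k hk => by
      have h5 := h1 _ (h3 α k hk)
      unfold lat
      exact_mod_cast h5)
    intro x
    have h5 := h4 x
    rwa [lin_one] at h5
  · exfalso
    apply hw
    funext β
    have h3 : ∑ γ, (((N • (Pi.single β 1 : Fin n ⊕ Fin n → ℤ)) γ : ℤ) : ℝ) * w γ = 0 :=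
      h2 (Pi.single β 1)
    rw [Finset.sum_eq_single β] at h3
    · simp only [Pi.smul_apply, Pi.single_eq_same, smul_eq_mul, mul_one] at h3
      exact (mul_eq_zero.1 h3).resolve_left (by exact_mod_cast hN)
    · intro γ _ hγ
      simp [hγ]
    · intro h'; exact absurd (Finset.mem_univ β) h'

/-- conjugation -/
def cj (M M' : Matrix (Fin n ⊕ Fin n) (Fin n ⊕ Fin n) ℤ) (H : V n → V n) (x : V n) : V n :=
  lin M (H (lin M' x))

theorem isTorusSymp_cj {M M' : Matrix (Fin n ⊕ Fin n) (Fin n ⊕ Fin n) ℤ} {H : V n → V n}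
    (hH : IsTorusSymp 1 H) (hM : M ∈ Matrix.symplecticGroup (Fin n) ℤ) (h1 : M * M' = 1) :
    IsTorusSymp 1 (cj M M' H) := by
  have hM' := mem_of_mul_eq_one hM h1
  have h := (isTorusSymp_lin hM).comp (hH.comp (isTorusSymp_lin hM'))
  rw [Matrix.one_mul, h1] at h
  exact h

theorem fderiv_cj {M M' : Matrix (Fin n ⊕ Fin n) (Fin n ⊕ Fin n) ℤ} {H : V n → V n}
    (hH : IsTorusSymp 1 H) (x u : V n) :
    fderiv ℝ (cj M M' H) x u = lin M (fderiv ℝ H (lin M' x) (lin M' u)) := by
  have h1 : HasFDerivAt (cj M M' H) ((lin M).comp ((fderiv ℝ H (lin M' x)).comp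
      (lin M'))) x :=
    (lin M).hasFDerivAt.comp x ((hH.diff (lin M' x)).hasFDerivAt.comp x (lin M').hasFDerivAt)
  rw [h1.fderiv]
  rfl

theorem mem_Fx_cj {M M' : Matrix (Fin n ⊕ Fin n) (Fin n ⊕ Fin n) ℤ} {H : V n → V n}
    (hH : IsTorusSymp 1 H) (h1 : M' * M = 1) {u : V n} (hu : u ∈ Fx H) :
    lin M u ∈ Fx (cj M M' H) := by
  intro x
  rw [fderiv_cj hH, lin_lin, h1, lin_one, hu]

theorem cj_cj (M M' N N' : Matrix (Fin n ⊕ Fin n) (Fin n ⊕ Fin n) ℤ) (H : V n → V n) :
    cj N N' (cj M M' H) = cj (N * M) (M' * N') H := by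
  funext x
  unfold cj
  rw [lin_lin, lin_lin]

theorem cj_one (H : V n → V n) : cj 1 1 H = H := by
  funext x
  unfold cj
  rw [lin_one, lin_one]

theorem finrank_hyperplane (L : Submodule ℝ (V n)) (φ : V n →ₗ[ℝ] ℝ) :
    Module.finrank ℝ L ≤ Module.finrank ℝ ↥(L ⊓ LinearMap.ker φ) + 1 := by
  have h1 := Submodule.finrank_sup_add_finrank_inf_eq L (LinearMap.ker φ)
  have h2 := LinearMap.finrank_range_add_finrank_ker φ
  have h3 : Module.finrank ℝ (LinearMap.range φ) ≤ 1 := by
    have := Submodule.finrank_le (LinearMap.range φ)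
    rwa [Module.finrank_self] at this
  have h4 : Module.finrank ℝ ↥(L ⊔ LinearMap.ker φ) ≤ Module.finrank ℝ (V n) :=
    Submodule.finrank_le _
  omega

/-- **Normal form.** -/
theorem exists_normal {H : V n → V n} (hH : IsTorusSymp 1 H) {L : Submodule ℝ (V n)}
    (hL : L ≤ Fx H) (hiso : ∀ u ∈ L, ∀ v ∈ L, om u v = 0) {d : ℕ} (hd : d ≤ Module.finrank ℝ L)
    (m : ℕ) (hm : m ≤ d) :
    ∃ M M' : Matrix (Fin n ⊕ Fin n) (Fin n ⊕ Fin n) ℤ, M ∈ Matrix.symplecticGroup (Fin n) ℤ ∧
      M * M' = 1 ∧ M' * M = 1 ∧ ∃ J : Finset (Fin n), J.card = m ∧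
      ∃ L' : Submodule ℝ (V n), L' ≤ Fx (cj M M' H) ∧ (∀ u ∈ L', ∀ v ∈ L', om u v = 0) ∧
        d ≤ Module.finrank ℝ L' ∧ ∀ i ∈ J, bv (Sum.inr i) ∈ L' := by
  induction m with
  | zero =>
    exact ⟨1, 1, Submonoid.one_mem _, by simp, by simp, ∅, rfl, L, by rwa [cj_one], hiso, hd,
      fun i hi => absurd hi (Finset.notMem_empty i)⟩
  | succ m ih =>
    obtain ⟨M, M', hM, hMM', hM'M, J, hJ, L', hL', hiso', hd', hbJ⟩ := ih (by omega)
    set H₁ := cj M M' H with hH₁
    have hH₁s : IsTorusSymp 1 H₁ := isTorusSymp_cj hH hM hMM'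
    -- a vector of `L'` without components in the directions of `J`
    obtain ⟨w, hwL, hw0, hwJ⟩ : ∃ w ∈ L', w ≠ 0 ∧ ∀ i ∈ J, w (Sum.inr i) = 0 := by
      set ρ : L' →ₗ[ℝ] (J → ℝ) := LinearMap.pi fun i =>
        (LinearMap.proj (Sum.inr (i : Fin n)) : V n →ₗ[ℝ] ℝ).comp L'.subtype with hρ
      have hlt : Module.finrank ℝ (J → ℝ) < Module.finrank ℝ L' := by
        rw [Module.finrank_fintype_fun_eq_card, Fintype.card_coe, hJ]
        omega
      have hker := LinearMap.ker_ne_bot_of_finrank_lt (f := ρ) hlt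
      obtain ⟨⟨w, hw⟩, hwk, hw0⟩ := Submodule.exists_mem_ne_zero_of_ne_bot hker
      refine ⟨w, hw, fun h => hw0 (Subtype.ext h), fun i hi => ?_⟩
      have h1 := congrFun (LinearMap.mem_ker.1 hwk) ⟨i, hi⟩
      exact h1
    have hwJ' : ∀ i ∈ J, w (Sum.inl i) = 0 := by
      intro i hi
      have h1 := hiso' _ (hbJ i hi) w hwL
      rw [om_bv_inr] at h1
      linarith
    obtain ⟨w', hw', hk, hw'F⟩ := exists_int_Fx hH₁s hw0 (hL' hwL)
    have hw'J : ∀ i ∈ J, w' (Sum.inl i) = 0 ∧ w' (Sum.inr i) = 0 := by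
      have key : ∀ β, w β = 0 → w' β = 0 := by
        intro β hβ
        have h1 := hk (Pi.single β 1) (by
          rw [Finset.sum_eq_single β]
          · rw [hβ, mul_zero]
          · intro γ _ hγ
            simp [hγ]
          · intro h'; exact absurd (Finset.mem_univ β) h')
        rw [Finset.sum_eq_single β] at h1
        · simpa using h1
        · intro γ _ hγ
          simp [hγ]
        · intro h'; exact absurd (Finset.mem_univ β) h'
      exact fun i hi => ⟨key _ (hwJ' i hi), key _ (hwJ i hi)⟩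
    obtain ⟨N, hN, hNJ, j, hj, γ, hγ, hNw⟩ := exists_sp J hw' hw'J
    obtain ⟨N', hNN', hN'N⟩ := exists_inv_matrix hN
    have hγr : (γ : ℝ) ≠ 0 := by exact_mod_cast hγ
    have hlat : ∀ i, (lat (Pi.single (Sum.inr i) 1 : Fin n ⊕ Fin n → ℤ) : V n) =
        bv (Sum.inr i) := by
      intro i
      funext α
      simp only [lat, bv, Pi.single_apply]
      split_ifs <;> simp
    have hNbv : ∀ i ∈ J, lin N (bv (Sum.inr i)) = bv (Sum.inr i) := by
      intro i hi
      rw [← hlat, lin_lat, hNJ i hi]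
    have hNlat : lin N (lat w') = (γ : ℝ) • bv (Sum.inr j) := by
      rw [lin_lat, hNw, ← hlat]
      funext α
      simp only [lat, Pi.smul_apply, smul_eq_mul]
      push_cast
      rfl
    have hmat1 : N * M * (M' * N') = 1 := by
      rw [Matrix.mul_assoc, ← Matrix.mul_assoc M, hMM', Matrix.one_mul, hNN']
    have hmat2 : M' * N' * (N * M) = 1 := by
      rw [Matrix.mul_assoc, ← Matrix.mul_assoc N', hN'N, Matrix.one_mul, hM'M]
    set H₂ := cj N N' H₁ with hH₂
    have hH₂e : cj (N * M) (M' * N') H = H₂ := (cj_cj M M' N N' H).symm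
    -- the vector `e_{y_j}` is fixed
    have hej : bv (Sum.inr j) ∈ Fx H₂ := by
      have h1 : lin N (lat w') ∈ Fx H₂ := mem_Fx_cj hH₁s hN'N hw'F
      rw [hNlat] at h1
      have h2 := (Fx H₂).smul_mem ((γ : ℝ)⁻¹) h1
      rwa [smul_smul, inv_mul_cancel₀ hγr, one_smul] at h2
    set L₁ : Submodule ℝ (V n) := L'.map (lin N : V n →ₗ[ℝ] V n) with hL₁
    have hL₁F : L₁ ≤ Fx H₂ := by
      rintro _ ⟨u, hu, rfl⟩
      exact mem_Fx_cj hH₁s hN'N (hL' hu)
    have hL₁iso : ∀ u ∈ L₁, ∀ v ∈ L₁, om u v = 0 := by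
      rintro _ ⟨u, hu, rfl⟩ _ ⟨v, hv, rfl⟩
      exact (om_lin_of_mem hN u v).trans (hiso' u hu v hv)
    have hNinj : Function.Injective (lin N : V n →ₗ[ℝ] V n) := by
      intro u v huv
      have h1 : lin N u = lin N v := huv
      have h2 := congrArg (lin N') h1
      rwa [lin_lin, lin_lin, hN'N, lin_one, lin_one] at h2
    have hL₁d : d ≤ Module.finrank ℝ L₁ := by
      rw [hL₁, ← (Submodule.equivMapOfInjective _ hNinj L').finrank_eq]
      exact hd'
    have hL₁J : ∀ i ∈ J, bv (Sum.inr i) ∈ L₁ := fun i hi => ⟨_, hbJ i hi, hNbv i hi⟩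
    set φ : V n →ₗ[ℝ] ℝ := omB (bv (Sum.inr j)) with hφ
    set S : Submodule ℝ (V n) := L₁ ⊓ LinearMap.ker φ with hS
    set E : Submodule ℝ (V n) := Submodule.span ℝ {bv (Sum.inr j)} with hE
    have hmemS : ∀ u, u ∈ S ↔ u ∈ L₁ ∧ om (bv (Sum.inr j)) u = 0 := fun u => by
      rw [hS, Submodule.mem_inf, LinearMap.mem_ker]
      rfl
    refine ⟨N * M, M' * N', Submonoid.mul_mem _ hN hM, hmat1, hmat2, insert j J,
      by rw [Finset.card_insert_of_notMem hj, hJ], S ⊔ E, ?_, ?_, ?_, ?_⟩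
    · rw [hH₂e]
      refine sup_le (fun u hu => hL₁F ((hmemS u).1 hu).1) ?_
      rw [hE, Submodule.span_le]
      rintro _ rfl
      exact hej
    · intro u hu v hv
      obtain ⟨u1, hu1, u2, hu2, rfl⟩ := Submodule.mem_sup.1 hu
      obtain ⟨v1, hv1, v2, hv2, rfl⟩ := Submodule.mem_sup.1 hv
      obtain ⟨c, rfl⟩ := Submodule.mem_span_singleton.1 hu2
      obtain ⟨c', rfl⟩ := Submodule.mem_span_singleton.1 hv2
      obtain ⟨a1, a2⟩ := (hmemS u1).1 hu1
      obtain ⟨b1, b2⟩ := (hmemS v1).1 hv1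
      have a3 : om u1 (bv (Sum.inr j)) = 0 := by rw [om_swap, a2, neg_zero]
      rw [om_add_left, om_add_right, om_add_right, om_smul_left, om_smul_left, om_smul_right,
        om_smul_right, hL₁iso u1 a1 v1 b1, b2, a3, om_self]
      ring
    · by_cases hjL : bv (Sum.inr j) ∈ L₁
      · have hSL : L₁ ≤ S := fun u hu => (hmemS u).2 ⟨hu, hL₁iso _ hjL u hu⟩
        exact hL₁d.trans (Submodule.finrank_mono (hSL.trans le_sup_left))
      · have h1 := Submodule.finrank_sup_add_finrank_inf_eq S E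
        have h2 : S ⊓ E = ⊥ := by
          rw [eq_bot_iff]
          intro u hu
          obtain ⟨h3, h4⟩ := Submodule.mem_inf.1 hu
          obtain ⟨c, rfl⟩ := Submodule.mem_span_singleton.1 h4
          by_cases hc : c = 0
          · rw [hc, zero_smul]
            exact Submodule.zero_mem _
          · exfalso
            apply hjL
            have h5 := L₁.smul_mem c⁻¹ ((hmemS _).1 h3).1
            rwa [smul_smul, inv_mul_cancel₀ hc, one_smul] at h5
        have hbv0 : (bv (Sum.inr j) : V n) ≠ 0 := by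
          intro h
          have := congrFun h (Sum.inr j)
          simp [bv] at this
        have h3 : Module.finrank ℝ E = 1 := finrank_span_singleton hbv0
        rw [h2, finrank_bot, h3, add_zero] at h1
        have h4 := finrank_hyperplane L₁ φ
        rw [← hS] at h4
        omega
    · intro i hi
      rw [Finset.mem_insert] at hi
      rcases hi with rfl | hi
      · exact Submodule.mem_sup_right (Submodule.mem_span_singleton_self _)
      · refine Submodule.mem_sup_left ((hmemS _).2 ⟨hL₁J i hi, ?_⟩)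
        rw [om_bv_inr]
        simp [bv]

/-- A symplectomorphism of `T^{2n}` which acts trivially on the lattice and whose derivatives fix
the vectors of an isotropic subspace of dimension `n - 1` is symplectically isotopic to the
identity. -/
theorem isotopic_of_Fx {H : V n → V n} (hH : IsTorusSymp 1 H) (hn : 0 < n)
    {L : Submodule ℝ (V n)} (hL : L ≤ Fx H) (hiso : ∀ u ∈ L, ∀ v ∈ L, om u v = 0)
    (hd : n - 1 ≤ Module.finrank ℝ L) : SymplecticallyIsotopic 1 id H := by
  obtain ⟨M, M', hM, hMM', hM'M, J, hJ, L', hL', -, -, hbJ⟩ :=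
    exists_normal hH hL hiso hd (n - 1) le_rfl
  have hH' := isTorusSymp_cj hH hM hMM'
  set H' := cj M M' H with hH'def
  -- the remaining index
  obtain ⟨a, ha⟩ : ∃ a, ∀ i, i ≠ a → i ∈ J := by
    have h1 : Jᶜ.card = 1 := by
      rw [Finset.card_compl, hJ, Fintype.card_fin]
      omega
    obtain ⟨a, ha⟩ := Finset.card_eq_one.1 h1
    refine ⟨a, fun i hi => ?_⟩
    by_contra h
    have : i ∈ Jᶜ := Finset.mem_compl.2 h
    rw [ha, Finset.mem_singleton] at this
    exact hi this
  have hfix : ∀ i, i ≠ a → ∀ x, fderiv ℝ H' x (bv (Sum.inr i)) = bv (Sum.inr i) :=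
    fun i hi => hL' (hbJ i (ha i hi))
  have hx1 : ∀ i, i ≠ a → ∀ x u, fderiv ℝ H' x u (Sum.inl i) = u (Sum.inl i) := by
    intro i hi x u
    have h1 := om_bv_inr i (fderiv ℝ H' x u)
    have h2 := om_bv_inr i u
    have h3 := hH'.symplectic x (bv (Sum.inr i)) u
    rw [hfix i hi] at h3
    linarith
  have hconst : ∀ i, i ≠ a → ∀ x, H' x (Sum.inl i) - x (Sum.inl i) =
      H' 0 (Sum.inl i) - (0 : V n) (Sum.inl i) := by
    intro i hi x
    have hd : ∀ y : V n, HasFDerivAt (fun y => H' y (Sum.inl i) - y (Sum.inl i))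
        (0 : V n →L[ℝ] ℝ) y := by
      intro y
      have h1 : HasFDerivAt (fun y => H' y (Sum.inl i) - y (Sum.inl i))
          ((ContinuousLinearMap.proj (R := ℝ) (φ := fun _ : Fin n ⊕ Fin n => ℝ) (Sum.inl i)).comp
            (fderiv ℝ H' y) - ContinuousLinearMap.proj (R := ℝ) (φ := fun _ : Fin n ⊕ Fin n => ℝ)
              (Sum.inl i)) y :=
        ((ContinuousLinearMap.proj (R := ℝ) (φ := fun _ : Fin n ⊕ Fin n => ℝ)
          (Sum.inl i)).hasFDerivAt.comp y (hH'.diff y).hasFDerivAt).sub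
          (ContinuousLinearMap.proj (R := ℝ) (φ := fun _ : Fin n ⊕ Fin n => ℝ)
            (Sum.inl i)).hasFDerivAt
      refine h1.congr_fderiv ?_
      refine ContinuousLinearMap.ext fun u => ?_
      show fderiv ℝ H' y u (Sum.inl i) - u (Sum.inl i) = 0
      rw [hx1 i hi, sub_self]
    exact is_const_of_fderiv_eq_zero (𝕜 := ℝ) (fun y => (hd y).differentiableAt)
      (fun y => (hd y).fderiv) x 0
  have hiso := isotopic_of_coordinates isTorusSymp_id hH' (a := a)
    (fun α => H' 0 α - (0 : V n) α) (fun i hi x => by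
      have := hconst i hi x
      simp only [id]
      linarith)
  have hM' := mem_of_mul_eq_one hM hMM'
  have h5 := (hiso.comp_right (isTorusSymp_lin hM)).comp_left (isTorusSymp_lin hM')
  have hmat : M' * (1 * M) = 1 := by rw [Matrix.one_mul, hM'M]
  rw [hmat] at h5
  have e1 : (fun x => lin M' ((id : V n → V n) (lin M x))) = id := by
    funext x
    simp only [id]
    rw [lin_lin, hM'M, lin_one]
  have e2 : (fun x => lin M' (H' (lin M x))) = H := by
    funext x
    rw [hH'def]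
    unfold cj
    rw [lin_lin M', hM'M, lin_one, lin_lin M', hM'M, lin_one]
  simp only [e1, e2] at h5
  exact h5

/-- the subspaces whose isotropic part has dimension at least `n - 1` -/
theorem isotopic_of_invariant_gen {H : V n → V n} (hH : IsTorusSymp 1 H) (hn : 0 < n)
    {P : Submodule ℝ (V n)} (hP : ∀ x, ∀ p ∈ P, fderiv ℝ H x p ∈ P)
    (hd : n - 1 ≤ Module.finrank ℝ ↥(P ⊓ orth P)) : SymplecticallyIsotopic 1 id H := by
  refine isotopic_of_Fx hH hn (L := P ⊓ orth P) (fun v hv => ?_) ?_ hd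
  · exact fun x => fix_of_isotropic hH (L := P ⊓ orth P)
      (fun y k hk => ⟨hP y k hk.1, orth_invariant hH hP y k hk.2⟩)
      (fun k hk k' hk' => (mem_orth P k').1 hk'.2 k hk.1) x v hv
  · exact fun k hk k' hk' => (mem_orth P k').1 hk'.2 k hk.1

end Pool.Agent.Helper597_torsymp
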