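import Pool.Agent.Helper597_torsymp.Coord2

/-!
# Linear parts, compositions and inverses
-/

set_option autoImplicit false
set_option linter.unusedSectionVars false

open Set Filter Topology MeasureTheory
open scoped ContDiff

noncomputable section

namespace Pool.Agent.Helper597_torsymp

open Pool.Agent.Helper597_fou Pool.Agent.Helper597_fou.PS

variable {n : ℕ} {A B : Matrix (Fin n ⊕ Fin n) (Fin n ⊕ Fin n) ℤ}

/-- the linear map of `ℝ^{2n}` with integer matrix `A` -/
def lin (A : Matrix (Fin n ⊕ Fin n) (Fin n ⊕ Fin n) ℤ) : V n →L[ℝ] V n :=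
  LinearMap.toContinuousLinearMap (Matrix.mulVecLin (A.map (Int.cast : ℤ → ℝ)))

theorem lin_apply (v : V n) : lin A v = (A.map (Int.cast : ℤ → ℝ)).mulVec v := rfl

theorem lin_lat (k : Fin n ⊕ Fin n → ℤ) : lin A (lat k) = lat (A.mulVec k) := by
  rw [lin_apply, lat_eq_ilat, lat_eq_ilat, ilat_mulVec]

theorem lin_bv (α β : Fin n ⊕ Fin n) : lin A (bv β) α = (A α β : ℝ) := by
  rw [lin_apply, bv, Matrix.mulVec_single_one]
  rfl

theorem lin_mul (v : V n) : lin (A * B) v = lin A (lin B v) := by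
  rw [lin_apply, lin_apply, lin_apply, Matrix.mulVec_mulVec]
  congr 1
  exact Matrix.map_mul (f := Int.castRingHom ℝ)

theorem lin_one (v : V n) : lin (1 : Matrix (Fin n ⊕ Fin n) (Fin n ⊕ Fin n) ℤ) v = v := by
  rw [lin_apply]
  have : (1 : Matrix (Fin n ⊕ Fin n) (Fin n ⊕ Fin n) ℤ).map (Int.cast : ℤ → ℝ) = 1 :=
    Matrix.map_one (f := (Int.cast : ℤ → ℝ)) Int.cast_zero Int.cast_one
  rw [this, Matrix.one_mulVec]

/-! ### The linear part is symplectic -/

/-- the constant function -/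
def cst (c : ℝ) : PS (n + n) := c • (1 : PS (n + n))

theorem ev_cst (c t : ℝ) (v : V n) : ev t (cst c) v = c := by
  change c * 1 = c
  ring

theorem hat_dd_zero (i : Fin (n + n + 1)) (f : PS (n + n)) : hat (dd i f) 0 = 0 := by
  rw [hat_dd]
  simp

theorem hat_cst (c : ℝ) : hat (cst (n := n) c) 0 = c := by
  unfold cst
  rw [hat_smul]
  unfold hat
  rw [cc_one, fc_const, if_pos rfl, mul_one]

theorem hat_sum {ι : Type} (s : Finset ι) (f : ι → PS (n + n)) (k : K (n + n)) :
    hat (∑ i ∈ s, f i) k = ∑ i ∈ s, hat (f i) k := by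
  classical
  induction s using Finset.induction_on with
  | empty => simp
  | insert a s ha ih => rw [Finset.sum_insert ha, Finset.sum_insert ha, hat_add, ih]

theorem ev_sum {ι : Type} (s : Finset ι) (f : ι → PS (n + n)) (t : ℝ) (v : V n) :
    ev t (∑ i ∈ s, f i) v = ∑ i ∈ s, ev t (f i) v := by
  classical
  induction s using Finset.induction_on with
  | empty => simp [ev_zero]
  | insert a s ha ih => rw [Finset.sum_insert ha, Finset.sum_insert ha, ev_add, ih]

/-- the periodic part of an equivariant map -/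
def perp (A : Matrix (Fin n ⊕ Fin n) (Fin n ⊕ Fin n) ℤ) (F : V n → V n) (hs : ContDiff ℝ ∞ F)
    (he : ∀ (x : V n) (k : Fin n ⊕ Fin n → ℤ), F (x + lat k) = F x + lat (A.mulVec k))
    (α : Fin n ⊕ Fin n) : PS (n + n) :=
  ⟨fun x => F (pr x) α - lin A (pr x) α,
    ((contDiff_apply ℝ ℝ α).comp (hs.comp pr_contDiff)).sub
      ((contDiff_apply ℝ ℝ α).comp ((lin A).contDiff.comp pr_contDiff)), fun x k => by
      simp only
      rw [pr_il, he, map_add, lin_lat]
      simp only [Pi.add_apply]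
      ring⟩

section perp

variable {F : V n → V n} (hs : ContDiff ℝ ∞ F)
  (he : ∀ (x : V n) (k : Fin n ⊕ Fin n → ℤ), F (x + lat k) = F x + lat (A.mulVec k))

theorem ev_perp (t : ℝ) (α : Fin n ⊕ Fin n) (v : V n) :
    ev t (perp A F hs he α) v = F v α - lin A v α := by
  change F (pr (jn t v)) α - lin A (pr (jn t v)) α = _
  rw [pr_jn]

theorem dd_zero_perp (α : Fin n ⊕ Fin n) : dd 0 (perp A F hs he α) = 0 := by
  have h : sl 0 0 (perp A F hs he α) = perp A F hs he α := ext_ev fun t v => by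
    rw [ev_sl, ev_perp, ev_perp]
  rw [← h, dd_sl_self]

theorem fderiv_comp (hF : Differentiable ℝ F) (v w : V n) (α : Fin n ⊕ Fin n) :
    fderiv ℝ (fun y => F y α) v w = fderiv ℝ F v w α := by
  have h2 : HasFDerivAt (fun y => F y α)
      ((ContinuousLinearMap.proj (R := ℝ) (φ := fun _ : Fin n ⊕ Fin n => ℝ) α).comp
        (fderiv ℝ F v)) v :=
    (ContinuousLinearMap.proj (R := ℝ) (φ := fun _ : Fin n ⊕ Fin n => ℝ) α).hasFDerivAt.comp v
      (hF v).hasFDerivAt
  rw [h2.fderiv]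
  rfl

theorem fderiv_perp (t : ℝ) (v : V n) (α β : Fin n ⊕ Fin n) :
    ev t (dd (ix β) (perp A F hs he α)) v = fderiv ℝ F v (bv β) α - (A α β : ℝ) := by
  have hF := hs.differentiable (by simp)
  rw [← fderiv_ev_bv]
  have h1 : ev t (perp A F hs he α) = fun v => F v α - lin A v α :=
    funext fun v => ev_perp hs he t α v
  have h2 : HasFDerivAt (fun v => F v α - lin A v α)
      ((ContinuousLinearMap.proj (R := ℝ) (φ := fun _ : Fin n ⊕ Fin n => ℝ) α).comp
        (fderiv ℝ F v) - (ContinuousLinearMap.proj (R := ℝ) (φ := fun _ : Fin n ⊕ Fin n => ℝ)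
          α).comp (lin A)) v :=
    ((ContinuousLinearMap.proj (R := ℝ) (φ := fun _ : Fin n ⊕ Fin n => ℝ) α).hasFDerivAt.comp v
      (hF v).hasFDerivAt).sub
      ((ContinuousLinearMap.proj (R := ℝ) (φ := fun _ : Fin n ⊕ Fin n => ℝ) α).hasFDerivAt.comp v
      (lin A).hasFDerivAt)
  rw [h1, h2.fderiv, ← lin_bv]
  rfl

end perp

theorem IsTorusSymp.om_lin_bv {F : V n → V n} (h : IsTorusSymp A F) (β γ : Fin n ⊕ Fin n) :
    om (lin A (bv β)) (lin A (bv γ)) = om (bv β) (bv γ) := by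
  set U := perp A F h.smooth h.equivariant with hU
  have key : (∑ i : Fin n, ((cst (A (Sum.inl i) β : ℝ) + dd (ix β) (U (Sum.inl i))) *
      (cst (A (Sum.inr i) γ : ℝ) + dd (ix γ) (U (Sum.inr i))) -
      (cst (A (Sum.inr i) β : ℝ) + dd (ix β) (U (Sum.inr i))) *
      (cst (A (Sum.inl i) γ : ℝ) + dd (ix γ) (U (Sum.inl i)))) : PS (n + n)) =
      cst (om (bv β) (bv γ)) := by
    refine ext_ev fun t v => ?_
    rw [ev_cst, ev_sum, ← h.symplectic v]
    unfold om
    refine Finset.sum_congr rfl fun i _ => ?_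
    rw [ev_sub, ev_mul, ev_mul, ev_add, ev_add, ev_add, ev_add, ev_cst, ev_cst, ev_cst, ev_cst,
      fderiv_perp, fderiv_perp, fderiv_perp, fderiv_perp]
    ring
  have h2 := congrArg (fun f => hat f 0) key
  rw [hat_cst, hat_sum] at h2
  have h3 : ∀ i : Fin n, hat ((cst (A (Sum.inl i) β : ℝ) + dd (ix β) (U (Sum.inl i))) *
      (cst (A (Sum.inr i) γ : ℝ) + dd (ix γ) (U (Sum.inr i))) -
      (cst (A (Sum.inr i) β : ℝ) + dd (ix β) (U (Sum.inr i))) *
      (cst (A (Sum.inl i) γ : ℝ) + dd (ix γ) (U (Sum.inl i))) : PS (n + n)) 0 =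
      ((lin A (bv β) (Sum.inl i) * lin A (bv γ) (Sum.inr i) -
        lin A (bv β) (Sum.inr i) * lin A (bv γ) (Sum.inl i) : ℝ) : ℂ) := by
    intro i
    set f := U (Sum.inl i)
    set g := U (Sum.inr i)
    have e : (cst (A (Sum.inl i) β : ℝ) + dd (ix β) f) *
      (cst (A (Sum.inr i) γ : ℝ) + dd (ix γ) g) -
      (cst (A (Sum.inr i) β : ℝ) + dd (ix β) g) *
      (cst (A (Sum.inl i) γ : ℝ) + dd (ix γ) f) =
      cst ((A (Sum.inl i) β : ℝ) * (A (Sum.inr i) γ : ℝ) -
        (A (Sum.inr i) β : ℝ) * (A (Sum.inl i) γ : ℝ)) +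
      (dd (ix β) ((A (Sum.inr i) γ : ℝ) • f - (A (Sum.inl i) γ : ℝ) • g + f * dd (ix γ) g) +
        dd (ix γ) ((A (Sum.inl i) β : ℝ) • g - (A (Sum.inr i) β : ℝ) • f -
          f * dd (ix β) g)) := by
      refine ext_ev fun t v => ?_
      simp only [dd_add, dd_sub, dd_smul, dd_mul, dd_comm (ix β) (ix γ)]
      have hsm : ∀ (c : ℝ) (w : PS (n + n)), ev t (c • w) v = c * ev t w v := fun _ _ => rfl
      simp only [ev_sub, ev_mul, ev_add, ev_cst, hsm]
      ring
    rw [e, hat_add, hat_add, hat_dd_zero, hat_dd_zero, hat_cst, lin_bv, lin_bv, lin_bv, lin_bv]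
    simp
  rw [Finset.sum_congr rfl fun i _ => h3 i, ← Complex.ofReal_sum] at h2
  exact Complex.ofReal_injective h2

theorem om_lin_of_bv (h : ∀ β γ : Fin n ⊕ Fin n,
    om (lin A (bv β)) (lin A (bv γ)) = om (bv β) (bv γ)) (u v : V n) :
    om (lin A u) (lin A v) = om u v := symplectic_of_basis (lin A) h u v

theorem IsTorusSymp.om_lin {F : V n → V n} (h : IsTorusSymp A F) (u v : V n) :
    om (lin A u) (lin A v) = om u v := om_lin_of_bv h.om_lin_bv u v

/-- the matrix of the form -/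
theorem om_eq_J (u v : V n) : om u v = -(u ⬝ᵥ (Matrix.J (Fin n) ℝ).mulVec v) := by
  unfold om Matrix.J
  rw [Matrix.fromBlocks_mulVec]
  simp only [dotProduct, Fintype.sum_sum_type, Sum.elim_inl, Sum.elim_inr]
  simp only [Matrix.zero_mulVec, Matrix.neg_mulVec, Matrix.one_mulVec, Pi.add_apply,
    Pi.neg_apply, Pi.zero_apply, zero_add, add_zero, Function.comp_apply]
  rw [← Finset.sum_add_distrib, ← Finset.sum_neg_distrib]
  exact Finset.sum_congr rfl fun i _ => by ring

/-- the linear part of a symplectomorphism is a symplectic matrix -/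
theorem mem_of_om_lin (h : ∀ u v : V n, om (lin A u) (lin A v) = om u v) :
    A ∈ Matrix.symplecticGroup (Fin n) ℤ := by
  rw [SymplecticGroup.mem_iff']
  have h1 : ((A.map (Int.cast : ℤ → ℝ)).transpose * Matrix.J (Fin n) ℝ *
      A.map (Int.cast : ℤ → ℝ)) = Matrix.J (Fin n) ℝ := by
    ext α β
    have h2 := h (bv α) (bv β)
    rw [om_eq_J, om_eq_J, neg_inj] at h2
    rw [lin_apply, lin_apply, bv, bv, Matrix.mulVec_mulVec, Matrix.dotProduct_mulVec,
      Matrix.vecMul_mulVec] at h2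
    rw [← Matrix.dotProduct_mulVec, Matrix.mulVec_single_one, Matrix.mulVec_single_one,
      single_one_dotProduct, single_one_dotProduct] at h2
    rw [Matrix.mul_assoc]
    simpa using h2
  have hinj : Function.Injective fun M : Matrix (Fin n ⊕ Fin n) (Fin n ⊕ Fin n) ℤ =>
      M.map (Int.cast : ℤ → ℝ) := fun M N hMN => by
    ext i j
    have := congrFun (congrFun hMN i) j
    simpa using this
  apply hinj
  simp only
  have hJ : (Matrix.J (Fin n) ℤ).map (Int.cast : ℤ → ℝ) = Matrix.J (Fin n) ℝ :=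
    Matrix.map_J (Fin n) (Int.castRingHom ℝ)
  have hmul : ∀ M N : Matrix (Fin n ⊕ Fin n) (Fin n ⊕ Fin n) ℤ,
      (M * N).map (Int.cast : ℤ → ℝ) = M.map Int.cast * N.map Int.cast := fun M N =>
    Matrix.map_mul (f := Int.castRingHom ℝ)
  rw [hmul, hmul, hJ]
  exact h1

theorem IsTorusSymp.mem {F : V n → V n} (h : IsTorusSymp A F) :
    A ∈ Matrix.symplecticGroup (Fin n) ℤ := mem_of_om_lin h.om_lin

/-! ### The inverse matrix -/

/-- the inverse of a symplectic matrix -/
theorem exists_inv_matrix (hA : A ∈ Matrix.symplecticGroup (Fin n) ℤ) :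
    ∃ B : Matrix (Fin n ⊕ Fin n) (Fin n ⊕ Fin n) ℤ, A * B = 1 ∧ B * A = 1 := by
  have h := SymplecticGroup.symplectic_det hA
  exact ⟨A⁻¹, Matrix.mul_nonsing_inv _ h, Matrix.nonsing_inv_mul _ h⟩

theorem om_lin_of_mem (hA : A ∈ Matrix.symplecticGroup (Fin n) ℤ) (u v : V n) :
    om (lin A u) (lin A v) = om u v := by
  rw [SymplecticGroup.mem_iff'] at hA
  have hJ : (Matrix.J (Fin n) ℤ).map (Int.cast : ℤ → ℝ) = Matrix.J (Fin n) ℝ :=
    Matrix.map_J (Fin n) (Int.castRingHom ℝ)
  have hmul : ∀ M N : Matrix (Fin n ⊕ Fin n) (Fin n ⊕ Fin n) ℤ,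
      (M * N).map (Int.cast : ℤ → ℝ) = M.map Int.cast * N.map Int.cast := fun M N =>
    Matrix.map_mul (f := Int.castRingHom ℝ)
  have h1 : ((A.map (Int.cast : ℤ → ℝ)).transpose * Matrix.J (Fin n) ℝ *
      A.map (Int.cast : ℤ → ℝ)) = Matrix.J (Fin n) ℝ := by
    have h2 := congrArg (fun M : Matrix (Fin n ⊕ Fin n) (Fin n ⊕ Fin n) ℤ =>
      M.map (Int.cast : ℤ → ℝ)) hA
    simp only [hmul, hJ] at h2
    exact h2
  rw [om_eq_J, om_eq_J, lin_apply, lin_apply, Matrix.mulVec_mulVec, Matrix.dotProduct_mulVec,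
    Matrix.vecMul_mulVec, ← Matrix.dotProduct_mulVec, ← Matrix.mul_assoc, h1]

/-- linear symplectomorphisms -/
theorem isTorusSymp_lin (hA : A ∈ Matrix.symplecticGroup (Fin n) ℤ) :
    IsTorusSymp A (fun x => lin A x) := by
  obtain ⟨B, h1, h2⟩ := exists_inv_matrix hA
  refine ⟨(lin A).contDiff, ⟨fun x => lin B x, (lin B).contDiff, fun x => ?_, fun x => ?_⟩,
    fun x k => ?_, fun x u v => ?_⟩
  · simp only
    rw [← lin_mul, h2, lin_one]
  · simp only
    rw [← lin_mul, h1, lin_one]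
  · rw [map_add, lin_lat]
  · have : fderiv ℝ (fun x => lin A x) x = lin A := (lin A).fderiv
    rw [this]
    exact om_lin_of_mem hA u v

/-- composition -/
theorem IsTorusSymp.comp {F G : V n → V n} (hF : IsTorusSymp A F) (hG : IsTorusSymp B G) :
    IsTorusSymp (A * B) (fun x => F (G x)) := by
  obtain ⟨F', hF', hF1, hF2⟩ := hF.inverse
  obtain ⟨G', hG', hG1, hG2⟩ := hG.inverse
  refine ⟨hF.smooth.comp hG.smooth, ⟨fun x => G' (F' x), hG'.comp hF', fun x => ?_, fun x => ?_⟩,
    fun x k => ?_, fun x u v => ?_⟩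
  · simp only
    rw [hF1, hG1]
  · simp only
    rw [hG2, hF2]
  · rw [hG.equivariant, hF.equivariant, Matrix.mulVec_mulVec]
  · have h : HasFDerivAt (fun x => F (G x)) ((fderiv ℝ F (G x)).comp (fderiv ℝ G x)) x :=
      (hF.diff (G x)).hasFDerivAt.comp x (hG.diff x).hasFDerivAt
    rw [h.fderiv, ContinuousLinearMap.comp_apply, ContinuousLinearMap.comp_apply, hF.symplectic,
      hG.symplectic]

/-- inverses -/
theorem IsTorusSymp.exists_symm {F : V n → V n} (hF : IsTorusSymp A F) :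
    ∃ (B : Matrix (Fin n ⊕ Fin n) (Fin n ⊕ Fin n) ℤ) (H : V n → V n), IsTorusSymp B H ∧
      A * B = 1 ∧ B * A = 1 ∧ (∀ x, H (F x) = x) ∧ ∀ x, F (H x) = x := by
  obtain ⟨B, h1, h2⟩ := exists_inv_matrix hF.mem
  obtain ⟨H, hH, hl, hr⟩ := hF.inverse
  refine ⟨B, H, ⟨hH, ⟨F, hF.smooth, hr, hl⟩, fun x k => ?_, fun x u v => ?_⟩, h1, h2, hl, hr⟩
  · have h3 : x + lat k = F (H x + lat (B.mulVec k)) := by
      rw [hF.equivariant, hr, Matrix.mulVec_mulVec, h1, Matrix.one_mulVec]
    rw [h3, hl]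
  · have hd : ∀ w, fderiv ℝ F (H x) (fderiv ℝ H x w) = w := by
      intro w
      have h : HasFDerivAt (fun x => F (H x)) ((fderiv ℝ F (H x)).comp (fderiv ℝ H x)) x :=
        (hF.diff (H x)).hasFDerivAt.comp x ((hH.differentiable (by simp)) x).hasFDerivAt
      have h4 : (fun x => F (H x)) = id := funext hr
      rw [h4] at h
      have h5 := h.unique (hasFDerivAt_id x)
      have h6 := congrArg (fun L : V n →L[ℝ] V n => L w) h5
      simpa using h6
    rw [← hF.symplectic (H x), hd, hd]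

/-! ### Isotopies and compositions -/

theorem SymplecticallyIsotopic.comp_right {F₀ F₁ K : V n → V n}
    (h : SymplecticallyIsotopic A F₀ F₁) (hK : IsTorusSymp B K) :
    SymplecticallyIsotopic (A * B) (fun x => F₀ (K x)) (fun x => F₁ (K x)) := by
  obtain ⟨G, hG, h0, h1, hs⟩ := h
  refine ⟨fun t x => G t (K x), ?_, by simp only [h0], by simp only [h1],
    fun t ht => (hs t ht).comp hK⟩
  have : ContDiff ℝ ∞ fun p : ℝ × V n => ((p.1, K p.2) : ℝ × V n) :=
    contDiff_fst.prodMk (hK.smooth.comp contDiff_snd)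
  exact hG.comp this

theorem SymplecticallyIsotopic.comp_left {F₀ F₁ K : V n → V n}
    (h : SymplecticallyIsotopic A F₀ F₁) (hK : IsTorusSymp B K) :
    SymplecticallyIsotopic (B * A) (fun x => K (F₀ x)) (fun x => K (F₁ x)) := by
  obtain ⟨G, hG, h0, h1, hs⟩ := h
  exact ⟨fun t x => K (G t x), hK.smooth.comp hG, by simp only [h0], by simp only [h1],
    fun t ht => hK.comp (hs t ht)⟩

/-- translations -/
theorem isTorusSymp_translation (c : V n) : IsTorusSymp 1 (fun x => x + c) := by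
  refine ⟨contDiff_id.add contDiff_const, ⟨fun x => x - c, contDiff_id.sub contDiff_const,
    fun x => by simp, fun x => by simp⟩, fun x k => ?_, fun x u v => ?_⟩
  · rw [Matrix.one_mulVec]
    abel
  · have h : HasFDerivAt (fun x : V n => x + c) (ContinuousLinearMap.id ℝ _) x :=
      (hasFDerivAt_id x).add_const c
    rw [h.fderiv]
    rfl

theorem isotopic_translation (c : V n) : SymplecticallyIsotopic 1 id (fun x => x + c) := by
  refine ⟨fun t x => x + t • c, ?_, ?_, ?_, fun t _ => isTorusSymp_translation (t • c)⟩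
  · exact contDiff_snd.add (contDiff_fst.smul contDiff_const)
  · funext x
    simp
  · funext x
    simp

/-- the isotopy class of `F₁` relative to `F₀` is that of `F₁ ∘ F₀⁻¹` -/
theorem isotopic_of_quotient {F₀ F₁ H : V n → V n} (h₀ : IsTorusSymp A F₀)
    (hH : SymplecticallyIsotopic 1 id H) (h : ∀ x, H (F₀ x) = F₁ x) :
    SymplecticallyIsotopic A F₀ F₁ := by
  have h1 := hH.comp_right h₀
  rw [Matrix.one_mul] at h1
  have e1 : (fun x => (id : V n → V n) (F₀ x)) = F₀ := rfl
  have e2 : (fun x => H (F₀ x)) = F₁ := funext h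
  rwa [e1, e2] at h1

/-- the quotient of two symplectomorphisms with the same action on the lattice -/
theorem exists_quotient {F₀ F₁ : V n → V n} (h₀ : IsTorusSymp A F₀) (h₁ : IsTorusSymp A F₁) :
    ∃ H : V n → V n, IsTorusSymp 1 H ∧ ∀ x, H (F₀ x) = F₁ x := by
  obtain ⟨B, K, hK, hAB, hBA, hl, hr⟩ := h₀.exists_symm
  have h := h₁.comp hK
  rw [hAB] at h
  exact ⟨_, h, fun x => by simp only [hl]⟩

/-- **The coordinates theorem.** Two symplectomorphisms with the same action on the lattice, which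
agree in the coordinates `x_i`, `i ≠ a`, up to constants, are symplectically isotopic. -/
theorem isotopic_of_coordinates {F₀ F₁ : V n → V n} (h₀ : IsTorusSymp A F₀)
    (h₁ : IsTorusSymp A F₁) {a : Fin n} (c : V n)
    (h : ∀ i, i ≠ a → ∀ x, F₁ x (Sum.inl i) = F₀ x (Sum.inl i) + c (Sum.inl i)) :
    SymplecticallyIsotopic A F₀ F₁ := by
  obtain ⟨H, hH, hHF⟩ := exists_quotient h₀ h₁
  obtain ⟨B, K, hK, hAB, hBA, hl, hr⟩ := h₀.exists_symm
  refine isotopic_of_quotient h₀ ?_ hHF
  have hT := (isTorusSymp_translation (-c)).comp hH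
  rw [Matrix.one_mul] at hT
  have h2 : SymplecticallyIsotopic 1 id (fun x => H x + -c) := by
    refine isotopic_id hT (a := a) fun i hi x => ?_
    have e := h i hi (K x)
    rw [← hHF, hr] at e
    simp only [Pi.add_apply, Pi.neg_apply]
    rw [e]
    ring
  have h3 := h2.comp_left (isTorusSymp_translation c)
  rw [Matrix.one_mul] at h3
  have e2 : (fun x => H x + -c + c) = H := funext fun x => by simp
  have e1 : (fun x => (id : V n → V n) x + c) = fun x => x + c := rfl
  simp only [e2, e1] at h3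
  exact (isotopic_translation c).trans h3

end Pool.Agent.Helper597_torsymp
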