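import Pool.Agent.Helper597_torsymp.Arith
import Pool.Agent.Helper597_torsymp.Lin

/-!
# Symplectomorphisms of `T⁴` which commute with a line of translations
-/

set_option autoImplicit false
set_option linter.unusedSectionVars false

open Set Filter Topology MeasureTheory
open scoped ContDiff

noncomputable section

namespace Pool.Agent.Helper597_torsymp

open Pool.Agent.Helper597_fou Pool.Agent.Helper597_fou.PS

/-- block matrices -/
theorem mem_m1 (s t u v : Fin 2 → ℤ) (h : ∀ i, s i * v i - t i * u i = 1) :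
    Matrix.fromBlocks (Matrix.diagonal s) (Matrix.diagonal t) (Matrix.diagonal u)
      (Matrix.diagonal v) ∈ Matrix.symplecticGroup (Fin 2) ℤ := by
  rw [SymplecticGroup.fromBlocks_mem_iff]
  simp only [Matrix.diagonal_transpose, Matrix.diagonal_mul_diagonal]
  refine ⟨by congr 1; funext i; ring, by congr 1; funext i; ring, ?_⟩
  rw [Matrix.diagonal_sub, ← Matrix.diagonal_one]
  congr 1
  funext i
  have := h i
  linear_combination this

theorem mem_m2 (s t u v : ℤ) (h : s * v - t * u = 1) :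
    Matrix.fromBlocks !![v, -u; -t, s] 0 0 !![s, t; u, v] ∈
      Matrix.symplecticGroup (Fin 2) ℤ := by
  rw [SymplecticGroup.fromBlocks_mem_iff]
  refine ⟨by simp, by simp, ?_⟩
  ext i j
  fin_cases i <;> fin_cases j <;> simp [Matrix.mul_apply, Fin.sum_univ_two] <;>
    first | linear_combination h | ring

/-- the symplectic group of `ℤ⁴` moves every nonzero vector to a multiple of `e_{y_2}` -/
theorem exists_sp4 {w : Fin 2 ⊕ Fin 2 → ℤ} (hw : w ≠ 0) :
    ∃ M ∈ Matrix.symplecticGroup (Fin 2) ℤ, ∃ g : ℤ, g ≠ 0 ∧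
      M.mulVec w = g • (Pi.single (Sum.inr 1) 1 : Fin 2 ⊕ Fin 2 → ℤ) := by
  choose s t u v h1 h2 h3 using fun i : Fin 2 => exists_sl2 (w (Sum.inl i)) (w (Sum.inr i))
  set y : Fin 2 → ℤ := fun i => u i * w (Sum.inl i) + v i * w (Sum.inr i) with hy
  obtain ⟨s', t', u', v', k1, k2, k3⟩ := exists_sl2 (y 0) (y 1)
  have e1 : (Matrix.fromBlocks (Matrix.diagonal s) (Matrix.diagonal t) (Matrix.diagonal u)
      (Matrix.diagonal v)).mulVec w = Sum.elim (0 : Fin 2 → ℤ) y := by
    rw [Matrix.fromBlocks_mulVec]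
    congr 1
    · funext i
      simp only [Pi.add_apply, Matrix.mulVec_diagonal, Function.comp_apply]
      exact h2 i
    · funext i
      simp only [Pi.add_apply, Matrix.mulVec_diagonal, Function.comp_apply, hy]
  have hy0 : y 0 ≠ 0 ∨ y 1 ≠ 0 := by
    by_contra hcon
    push Not at hcon
    apply hw
    have hwi : ∀ i, w (Sum.inl i) = 0 ∧ w (Sum.inr i) = 0 := by
      intro i
      by_contra hi
      have hi' : w (Sum.inl i) ≠ 0 ∨ w (Sum.inr i) ≠ 0 := by
        by_contra h'
        push Not at h'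
        exact hi h'
      have := h3 i hi'
      fin_cases i
      · exact this hcon.1
      · exact this hcon.2
    funext α
    rcases α with i | i
    · exact (hwi i).1
    · exact (hwi i).2
  refine ⟨_, Submonoid.mul_mem _ (mem_m2 s' t' u' v' k1) (mem_m1 s t u v h1),
    u' * y 0 + v' * y 1, k3 hy0, ?_⟩
  rw [← Matrix.mulVec_mulVec, e1, Matrix.fromBlocks_mulVec]
  funext α
  rcases α with i | i
  · have e2 : (Sum.elim (0 : Fin 2 → ℤ) y) ∘ Sum.inl = 0 := rfl
    have e3 : (Sum.elim (0 : Fin 2 → ℤ) y) ∘ Sum.inr = y := rfl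
    rw [e2, e3]
    simp
  · have e2 : (Sum.elim (0 : Fin 2 → ℤ) y) ∘ Sum.inl = 0 := rfl
    have e3 : (Sum.elim (0 : Fin 2 → ℤ) y) ∘ Sum.inr = y := rfl
    rw [e2, e3]
    fin_cases i
    · simp [Matrix.mulVec, dotProduct, Fin.sum_univ_two]
      linear_combination k2
    · simp [Matrix.mulVec, dotProduct, Fin.sum_univ_two]

variable {A : Matrix (Fin 2 ⊕ Fin 2) (Fin 2 ⊕ Fin 2) ℤ}

theorem lin_lin {n : ℕ} (A B : Matrix (Fin n ⊕ Fin n) (Fin n ⊕ Fin n) ℤ) (v : V n) :
    lin A (lin B v) = lin (A * B) v := (lin_mul v).symm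

theorem mem_of_mul_eq_one {n : ℕ} {M N : Matrix (Fin n ⊕ Fin n) (Fin n ⊕ Fin n) ℤ}
    (hM : M ∈ Matrix.symplecticGroup (Fin n) ℤ) (h : M * N = 1) :
    N ∈ Matrix.symplecticGroup (Fin n) ℤ := by
  refine mem_of_om_lin fun u v => ?_
  rw [← om_lin_of_mem hM, ← lin_mul, ← lin_mul, h, lin_one, lin_one]

/-- a symplectomorphism of `T⁴` which commutes with the translations in the direction of an integer
vector, up to its linear part, is symplectically isotopic to its linear part -/
theorem isotopic_of_line_int {F : V 2 → V 2} (hF : IsTorusSymp A F) {w : Fin 2 ⊕ Fin 2 → ℤ}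
    (hw : w ≠ 0) (h : ∀ x, fderiv ℝ F x (lat w) = lin A (lat w)) :
    SymplecticallyIsotopic A (fun x => lin A x) F := by
  obtain ⟨M, hM, g, hg, hMw⟩ := exists_sp4 hw
  obtain ⟨M', hMM', hM'M⟩ := exists_inv_matrix hM
  obtain ⟨B, hAB, hBA⟩ := exists_inv_matrix hF.mem
  have hM'm := mem_of_mul_eq_one hM hMM'
  have hBm := mem_of_mul_eq_one hF.mem hAB
  have hgr : (g : ℝ) ≠ 0 := by exact_mod_cast hg
  have hlat : (lat (g • (Pi.single (Sum.inr 1) 1 : Fin 2 ⊕ Fin 2 → ℤ)) : V 2) =
      (g : ℝ) • bv (Sum.inr 1) := by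
    funext α
    simp only [lat, bv, Pi.smul_apply, smul_eq_mul, Pi.single_apply]
    push_cast
    split_ifs <;> simp
  have hMlat : lin M (lat w) = (g : ℝ) • bv (Sum.inr 1) := by rw [lin_lat, hMw, hlat]
  have hM'bv : lin M' ((g : ℝ) • bv (Sum.inr 1)) = lat w := by
    rw [← hMlat, ← lin_mul, hM'M, lin_one]
  -- the conjugated map
  have hH := (isTorusSymp_lin hM).comp ((isTorusSymp_lin hBm).comp
    (hF.comp (isTorusSymp_lin hM'm)))
  have hmat : M * (B * (A * M')) = 1 := by
    rw [← Matrix.mul_assoc B, hBA, Matrix.one_mul, hMM']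
  rw [hmat] at hH
  set H : V 2 → V 2 := fun x => lin M (lin B (F (lin M' x))) with hHdef
  have hDH : ∀ x u, fderiv ℝ H x u = lin M (lin B (fderiv ℝ F (lin M' x) (lin M' u))) := by
    intro x u
    have h1 : HasFDerivAt H ((lin M).comp ((lin B).comp ((fderiv ℝ F (lin M' x)).comp
        (lin M')))) x :=
      (lin M).hasFDerivAt.comp x ((lin B).hasFDerivAt.comp x
        ((hF.diff (lin M' x)).hasFDerivAt.comp x (lin M').hasFDerivAt))
    rw [h1.fderiv]
    rfl
  have hfix : ∀ x, fderiv ℝ H x (bv (Sum.inr 1)) = bv (Sum.inr 1) := by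
    intro x
    have h1 : fderiv ℝ H x ((g : ℝ) • bv (Sum.inr 1)) = (g : ℝ) • bv (Sum.inr 1) := by
      rw [hDH, hM'bv, h, lin_lin B, hBA, lin_one, hMlat]
    rw [map_smul] at h1
    exact smul_right_injective _ hgr h1
  have hx1 : ∀ x u, fderiv ℝ H x u (Sum.inl 1) = u (Sum.inl 1) := by
    intro x u
    have h1 := om_bv_inr (1 : Fin 2) (fderiv ℝ H x u)
    have h2 := om_bv_inr (1 : Fin 2) u
    have h3 := hH.symplectic x (bv (Sum.inr 1)) u
    rw [hfix] at h3
    linarith
  have hconst : ∀ x, H x (Sum.inl 1) - x (Sum.inl 1) = H 0 (Sum.inl 1) - (0 : V 2) (Sum.inl 1) := by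
    intro x
    have hd : ∀ y : V 2, HasFDerivAt (fun y => H y (Sum.inl 1) - y (Sum.inl 1)) (0 : V 2 →L[ℝ] ℝ)
        y := by
      intro y
      have h1 : HasFDerivAt (fun y => H y (Sum.inl 1) - y (Sum.inl 1))
          ((ContinuousLinearMap.proj (R := ℝ) (φ := fun _ : Fin 2 ⊕ Fin 2 => ℝ) (Sum.inl 1)).comp
            (fderiv ℝ H y) - ContinuousLinearMap.proj (R := ℝ) (φ := fun _ : Fin 2 ⊕ Fin 2 => ℝ)
              (Sum.inl 1)) y :=
        ((ContinuousLinearMap.proj (R := ℝ) (φ := fun _ : Fin 2 ⊕ Fin 2 => ℝ)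
          (Sum.inl 1)).hasFDerivAt.comp y (hH.diff y).hasFDerivAt).sub
          (ContinuousLinearMap.proj (R := ℝ) (φ := fun _ : Fin 2 ⊕ Fin 2 => ℝ)
            (Sum.inl 1)).hasFDerivAt
      refine h1.congr_fderiv ?_
      refine ContinuousLinearMap.ext fun u => ?_
      show fderiv ℝ H y u (Sum.inl 1) - u (Sum.inl 1) = 0
      rw [hx1, sub_self]
    exact is_const_of_fderiv_eq_zero (𝕜 := ℝ) (fun y => (hd y).differentiableAt)
      (fun y => (hd y).fderiv) x 0
  have hidS : IsTorusSymp (1 : Matrix (Fin 2 ⊕ Fin 2) (Fin 2 ⊕ Fin 2) ℤ) (id : V 2 → V 2) := by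
    have h1 := isTorusSymp_translation (0 : V 2)
    have h2 : (fun x : V 2 => x + 0) = id := funext fun x => add_zero x
    rwa [h2] at h1
  have hiso := isotopic_of_coordinates hidS hH (a := 0)
    (fun _ => H 0 (Sum.inl 1) - (0 : V 2) (Sum.inl 1)) (fun i hi x => by
      have hi1 : i = 1 := by
        fin_cases i
        · exact absurd rfl hi
        · rfl
      subst hi1
      have := hconst x
      simp only [id]
      linarith)
  have hK := isTorusSymp_lin (Submonoid.mul_mem _ hF.mem hM'm)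
  have h5 := (hiso.comp_right (isTorusSymp_lin hM)).comp_left hK
  have hmat2 : A * M' * (1 * M) = A := by
    rw [Matrix.one_mul, Matrix.mul_assoc, hM'M, Matrix.mul_one]
  rw [hmat2] at h5
  have e1 : (fun x => lin (A * M') ((id : V 2 → V 2) (lin M x))) = fun x => lin A x := by
    funext x
    simp only [id]
    rw [← lin_mul, Matrix.mul_assoc, hM'M, Matrix.mul_one]
  have e2 : (fun x => lin (A * M') (H (lin M x))) = F := by
    funext x
    simp only [hHdef]
    rw [lin_lin M', hM'M, lin_one, lin_lin M, lin_lin, Matrix.mul_assoc, ← Matrix.mul_assoc M',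
      hM'M, Matrix.one_mul, hAB, lin_one]
  simp only [e1, e2] at h5
  exact h5

end Pool.Agent.Helper597_torsymp
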