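import Pool.Agent.Helper597_torsymp.Line

/-!
# The support of the displacement
-/

set_option autoImplicit false
set_option linter.unusedSectionVars false

open Set Filter Topology MeasureTheory
open scoped ContDiff

noncomputable section

namespace Pool.Agent.Helper597_torsymp

open Pool.Agent.Helper597_fou Pool.Agent.Helper597_fou.PS

variable {n : ℕ} {A : Matrix (Fin n ⊕ Fin n) (Fin n ⊕ Fin n) ℤ}

/-- the derivative in the direction `w` -/
def dirs (w : V n) (f : PS (n + n)) : PS (n + n) := ∑ α, w α • dd (ix α) f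

theorem hat_dirs (w : V n) (f : PS (n + n)) (k : K (n + n)) :
    hat (dirs w f) k = 2 * Real.pi * Complex.I * ((∑ α, (k (ix α) : ℝ) * w α : ℝ) : ℂ) *
      hat f k := by
  unfold dirs
  rw [hat_sum]
  have : ∀ α, hat (w α • dd (ix α) f) k = (w α : ℂ) * (2 * Real.pi * Complex.I *
      (k (ix α) : ℂ) * hat f k) := fun α => by rw [hat_smul, hat_dd]
  rw [Finset.sum_congr rfl fun α _ => this α]
  push_cast
  rw [Finset.mul_sum, Finset.sum_mul]
  exact Finset.sum_congr rfl fun α _ => by ring

theorem dirs_eq_zero_iff (w : V n) (f : PS (n + n)) : dirs w f = 0 ↔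
    ∀ k, hat f k ≠ 0 → ∑ α, (k (ix α) : ℝ) * w α = 0 := by
  constructor
  · intro h k hk
    have h1 := hat_dirs w f k
    rw [h, hat_zero] at h1
    have h2 := (mul_eq_zero.1 h1.symm).resolve_right hk
    have h3 := (mul_eq_zero.1 h2).resolve_left Complex.two_pi_I_ne_zero
    exact_mod_cast h3
  · intro h
    refine ext_hat fun k => ?_
    rw [hat_dirs, hat_zero]
    by_cases hk : hat f k = 0
    · rw [hk, mul_zero]
    · rw [h k hk]
      simp

theorem vec_eq_sum (w : V n) : w = ∑ α, w α • bv α := by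
  funext β
  simp [bv, Finset.sum_apply, Pi.single_apply]

theorem ev_dirs {F : V n → V n} (hs : ContDiff ℝ ∞ F)
    (he : ∀ (x : V n) (k : Fin n ⊕ Fin n → ℤ), F (x + lat k) = F x + lat (A.mulVec k))
    (t : ℝ) (v w : V n) (α : Fin n ⊕ Fin n) :
    ev t (dirs w (perp A F hs he α)) v = fderiv ℝ F v w α - lin A w α := by
  unfold dirs
  rw [ev_sum]
  have h1 : ∀ β, ev t (w β • dd (ix β) (perp A F hs he α)) v =
      w β * (fderiv ℝ F v (bv β) α - (A α β : ℝ)) := fun β => by
    rw [← fderiv_perp hs he t v]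
    rfl
  rw [Finset.sum_congr rfl fun β _ => h1 β]
  conv_rhs => rw [vec_eq_sum w]
  rw [map_sum, map_sum, Finset.sum_apply, Finset.sum_apply, ← Finset.sum_sub_distrib]
  refine Finset.sum_congr rfl fun β _ => ?_
  rw [map_smul, map_smul, Pi.smul_apply, Pi.smul_apply, lin_bv]
  simp only [smul_eq_mul]
  ring

/-- the directions of invariance are the directions orthogonal to the support -/
theorem line_iff {F : V n → V n} (hF : IsTorusSymp A F) (w : V n) :
    (∀ x, fderiv ℝ F x w = lin A w) ↔ ∀ α k, hat (perp A F hF.smooth hF.equivariant α) k ≠ 0 →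
      ∑ β, (k (ix β) : ℝ) * w β = 0 := by
  have h0 : (∀ x, fderiv ℝ F x w = lin A w) ↔
      ∀ α, dirs w (perp A F hF.smooth hF.equivariant α) = 0 := by
    constructor
    · intro h α
      refine ext_ev fun t v => ?_
      rw [ev_dirs, h, sub_self]
      rfl
    · intro h x
      funext α
      have h1 := ev_dirs hF.smooth hF.equivariant 0 x w α
      rw [h α, ev_zero] at h1
      linarith
  rw [h0]
  exact forall_congr' fun α => dirs_eq_zero_iff w _

/-- if the support is contained in a subgroup then it is orthogonal to an integer vector, or the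
subgroup has finite index -/
theorem support_dichotomy {F : V n → V n} (hF : IsTorusSymp A F)
    (Λ : AddSubgroup (Fin n ⊕ Fin n → ℤ))
    (h : ∀ α k, hat (perp A F hF.smooth hF.equivariant α) k ≠ 0 → (fun β => k (ix β)) ∈ Λ) :
    (∃ w : Fin n ⊕ Fin n → ℤ, w ≠ 0 ∧ ∀ x, fderiv ℝ F x (lat w) = lin A (lat w)) ∨
      ∃ N : ℤ, N ≠ 0 ∧ ∀ k : Fin n ⊕ Fin n → ℤ, N • k ∈ Λ := by
  rcases subgroup_dichotomy Λ with ⟨w, hw, hΛ⟩ | h2
  · left
    refine ⟨w, hw, (line_iff hF (lat w)).2 fun α k hk => ?_⟩
    have h1 := hΛ _ (h α k hk)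
    unfold lat
    exact_mod_cast h1
  · right
    exact h2

/-- invariance in a real direction implies invariance in a rational direction -/
theorem exists_int_line {F : V n → V n} (hF : IsTorusSymp A F) {w : V n} (hw : w ≠ 0)
    (h : ∀ x, fderiv ℝ F x w = lin A w) :
    ∃ w' : Fin n ⊕ Fin n → ℤ, w' ≠ 0 ∧ ∀ x, fderiv ℝ F x (lat w') = lin A (lat w') := by
  set Λ : AddSubgroup (Fin n ⊕ Fin n → ℤ) :=
    { carrier := {k | ∑ β, (k β : ℝ) * w β = 0}
      add_mem' := fun {a b} ha hb => by
        simp only [mem_setOf_eq, Pi.add_apply] at ha hb ⊢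
        push_cast
        simp only [add_mul, Finset.sum_add_distrib, ha, hb, add_zero]
      zero_mem' := by simp
      neg_mem' := fun {a} ha => by
        simp only [mem_setOf_eq, Pi.neg_apply] at ha ⊢
        push_cast
        simp only [neg_mul, Finset.sum_neg_distrib, ha, neg_zero] } with hΛ
  rcases support_dichotomy hF Λ ((line_iff hF w).1 h) with h1 | ⟨N, hN, h2⟩
  · exact h1
  · exfalso
    apply hw
    funext β
    have h3 : ∑ γ, (((N • (Pi.single β 1 : Fin n ⊕ Fin n → ℤ)) γ : ℤ) : ℝ) * w γ = 0 :=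
      h2 (Pi.single β 1)
    rw [Finset.sum_eq_single β] at h3
    · simp only [Pi.smul_apply, Pi.single_eq_same, smul_eq_mul, mul_one] at h3
      exact (mul_eq_zero.1 h3).resolve_left (by exact_mod_cast hN)
    · intro γ _ hγ
      simp [hγ]
    · intro h'; exact absurd (Finset.mem_univ β) h'

/-- **The line theorem**: a symplectomorphism `F` of `T⁴` with linear part `A` such that
`DF(x) w = A w` for all `x`, where `w` is a nonzero real vector, is symplectically isotopic to its
linear part. -/
theorem isotopic_of_line {A : Matrix (Fin 2 ⊕ Fin 2) (Fin 2 ⊕ Fin 2) ℤ} {F : V 2 → V 2}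
    (hF : IsTorusSymp A F) {w : V 2} (hw : w ≠ 0) (h : ∀ x, fderiv ℝ F x w = lin A w) :
    SymplecticallyIsotopic A (fun x => lin A x) F := by
  obtain ⟨w', hw', h'⟩ := exists_int_line hF hw h
  exact isotopic_of_line_int hF hw' h'

end Pool.Agent.Helper597_torsymp
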