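import Pool.Agent.Helper597_torsymp.Cut

/-!
# Linear algebra of orthogonal complements
-/

set_option autoImplicit false
set_option linter.unusedSectionVars false

open Set Filter Topology MeasureTheory
open scoped ContDiff

noncomputable section

namespace Pool.Agent.Helper597_torsymp

open Pool.Agent.Helper597_fou Pool.Agent.Helper597_fou.PS

variable {n : ℕ}

theorem omB_nondegenerate : (omB : LinearMap.BilinForm ℝ (V n)).Nondegenerate := by
  refine ⟨fun v h => om_nondeg v h, fun v h => om_nondeg v fun w => ?_⟩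
  have := h w
  rw [omB_apply] at this
  rw [om_swap, this, neg_zero]

theorem orth_orth (P : Submodule ℝ (V n)) : orth (orth P) = P :=
  LinearMap.BilinForm.orthogonal_orthogonal omB_nondegenerate omB_isRefl P

theorem finrank_V : Module.finrank ℝ (V n) = 2 * n := by
  rw [Module.finrank_fintype_fun_eq_card, Fintype.card_sum, Fintype.card_fin]
  ring

theorem finrank_add_orth (P : Submodule ℝ (V n)) :
    Module.finrank ℝ P + Module.finrank ℝ (orth P) = 2 * n := by
  have h1 : Module.finrank ℝ (orth P) = Module.finrank ℝ (V n) - Module.finrank ℝ P :=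
    LinearMap.BilinForm.finrank_orthogonal omB_nondegenerate P
  have h2 := Submodule.finrank_le P
  rw [finrank_V] at h1 h2
  omega

theorem mem_orth_iff_left (P : Submodule ℝ (V n)) (v : V n) :
    v ∈ orth P ↔ ∀ p ∈ P, om v p = 0 := by
  rw [mem_orth]
  refine forall_congr' fun p => forall_congr' fun _ => ?_
  rw [om_swap, neg_eq_zero]

theorem orth_sup (P Q : Submodule ℝ (V n)) : orth (P ⊔ Q) = orth P ⊓ orth Q := by
  ext v
  rw [Submodule.mem_inf, mem_orth, mem_orth, mem_orth]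
  constructor
  · intro h
    exact ⟨fun p hp => h p (Submodule.mem_sup_left hp), fun q hq => h q (Submodule.mem_sup_right hq)⟩
  · rintro ⟨h1, h2⟩ x hx
    obtain ⟨p, hp, q, hq, rfl⟩ := Submodule.mem_sup.1 hx
    rw [om_add_left, h1 p hp, h2 q hq, add_zero]

theorem orth_anti {P Q : Submodule ℝ (V n)} (h : P ≤ Q) : orth Q ≤ orth P := by
  intro v hv
  rw [mem_orth] at hv ⊢
  exact fun p hp => hv p (h hp)

theorem orth_rad (P : Submodule ℝ (V n)) : orth (P ⊓ orth P) = P ⊔ orth P := by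
  have h := orth_sup P (orth P)
  rw [orth_orth, inf_comm] at h
  rw [← h, orth_orth]

/-- a linear map with values in `P` which is the identity modulo `orth P` on `P ⊔ orth P` -/
theorem exists_a (P : Submodule ℝ (V n)) : ∃ a : V n →L[ℝ] V n, (∀ v, a v ∈ P) ∧
    (∀ q ∈ orth P, a q = 0) ∧ ∀ z ∈ P ⊔ orth P, z - a z ∈ orth P := by
  set Q := orth P with hQ
  -- a complement of `P ⊓ Q` in `P`
  obtain ⟨C, hC⟩ := Submodule.exists_isCompl (P ⊓ Q)
  set P' : Submodule ℝ (V n) := P ⊓ C with hP'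
  have hPsup : P = (P ⊓ Q) ⊔ P' := by
    apply le_antisymm
    · intro p hp
      have h1 : p ∈ (P ⊓ Q) ⊔ C := by rw [hC.sup_eq_top]; exact Submodule.mem_top
      obtain ⟨k, hk, c, hc, rfl⟩ := Submodule.mem_sup.1 h1
      refine Submodule.add_mem_sup hk ⟨?_, hc⟩
      have := P.sub_mem hp hk.1
      rwa [add_sub_cancel_left] at this
    · exact sup_le inf_le_left inf_le_left
  have hdisj : P' ⊓ Q = ⊥ := by
    rw [eq_bot_iff]
    intro v hv
    obtain ⟨⟨hvP, hvC⟩, hvQ⟩ := hv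
    have h1 : v ∈ (P ⊓ Q) ⊓ C := ⟨⟨hvP, hvQ⟩, hvC⟩
    rwa [hC.inf_eq_bot] at h1
  -- a complement of `P' ⊔ Q`
  obtain ⟨D, hD⟩ := Submodule.exists_isCompl (P' ⊔ Q)
  have hcompl : IsCompl P' (Q ⊔ D) := by
    refine IsCompl.of_eq ?_ ?_
    · rw [eq_bot_iff]
      intro v hv
      obtain ⟨hv1, hv2⟩ := hv
      obtain ⟨q, hq, d, hd, rfl⟩ := Submodule.mem_sup.1 hv2
      have h1 : d ∈ (P' ⊔ Q) ⊓ D := by
        refine ⟨?_, hd⟩
        have h2 := (P' ⊔ Q).sub_mem (Submodule.mem_sup_left hv1) (Submodule.mem_sup_right hq)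
        rwa [add_sub_cancel_left] at h2
      rw [hD.inf_eq_bot, Submodule.mem_bot] at h1
      rw [h1, add_zero] at hv1 ⊢
      have h2 : q ∈ P' ⊓ Q := ⟨hv1, hq⟩
      rwa [hdisj] at h2
    · rw [← sup_assoc, hD.sup_eq_top]
  obtain ⟨π, h1, h2, h3, h4⟩ := exists_proj hcompl
  refine ⟨π, fun v => (h1 v).1, fun q hq => h4 q (Submodule.mem_sup_left hq), fun z hz => ?_⟩
  obtain ⟨p, hp, q, hq, rfl⟩ := Submodule.mem_sup.1 hz
  rw [hPsup] at hp
  obtain ⟨k, hk, p', hp', rfl⟩ := Submodule.mem_sup.1 hp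
  rw [map_add, map_add, h4 q (Submodule.mem_sup_left hq), h4 k (Submodule.mem_sup_left hk.2),
    h3 p' hp', zero_add, add_zero]
  have : k + p' + q - p' = k + q := by abel
  rw [this]
  exact Q.add_mem hk.2 hq

/-- isotropic subspaces of large dimension -/
theorem exists_isotropic (R : Submodule ℝ (V n))
    (hR : Module.finrank ℝ (orth R) ≤ Module.finrank ℝ ↥(R ⊓ orth R) + 2) :
    ∃ L ≤ R, (∀ u ∈ L, ∀ v ∈ L, om u v = 0) ∧ n - 1 ≤ Module.finrank ℝ L := by
  -- an isotropic subspace of maximal dimension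
  have hbdd : ∃ N, ∀ L : Submodule ℝ (V n), (L ≤ R ∧ ∀ u ∈ L, ∀ v ∈ L, om u v = 0) →
      Module.finrank ℝ L ≤ N := ⟨Module.finrank ℝ (V n), fun L _ => Submodule.finrank_le L⟩
  obtain ⟨L, ⟨hLR, hiso⟩, hmax⟩ : ∃ L : Submodule ℝ (V n),
      (L ≤ R ∧ ∀ u ∈ L, ∀ v ∈ L, om u v = 0) ∧ ∀ L' : Submodule ℝ (V n),
        (L' ≤ R ∧ ∀ u ∈ L', ∀ v ∈ L', om u v = 0) → Module.finrank ℝ L' ≤ Module.finrank ℝ L := by
    classical
    obtain ⟨N, hN⟩ := hbdd
    set S : Set ℕ := {d | ∃ L : Submodule ℝ (V n), (L ≤ R ∧ ∀ u ∈ L, ∀ v ∈ L, om u v = 0) ∧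
      Module.finrank ℝ L = d} with hS
    have hne : S.Nonempty := ⟨0, ⊥, ⟨bot_le, fun u hu v _ => by
      rw [(Submodule.mem_bot ℝ).1 hu, om_zero_left]⟩, finrank_bot _ _⟩
    have hbd : BddAbove S := ⟨N, by
      rintro d ⟨L, hL, rfl⟩
      exact hN L hL⟩
    obtain ⟨L, hL, hd⟩ := Nat.sSup_mem hne hbd
    refine ⟨L, hL, fun L' hL' => ?_⟩
    rw [hd]
    exact le_csSup hbd ⟨L', hL', rfl⟩
  refine ⟨L, hLR, hiso, ?_⟩
  -- `R ⊓ orth L = L`
  have hsub : R ⊓ orth L ≤ L := by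
    intro v hv
    by_contra hvL
    set L' : Submodule ℝ (V n) := L ⊔ Submodule.span ℝ {v} with hL'
    have hvo := (mem_orth L v).1 hv.2
    have h1 : L' ≤ R := sup_le hLR (by
      rw [Submodule.span_le]
      rintro _ rfl
      exact hv.1)
    have h2 : ∀ u ∈ L', ∀ w ∈ L', om u w = 0 := by
      intro u hu w hw
      obtain ⟨u1, hu1, u2, hu2, rfl⟩ := Submodule.mem_sup.1 hu
      obtain ⟨w1, hw1, w2, hw2, rfl⟩ := Submodule.mem_sup.1 hw
      obtain ⟨c, rfl⟩ := Submodule.mem_span_singleton.1 hu2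
      obtain ⟨c', rfl⟩ := Submodule.mem_span_singleton.1 hw2
      have a1 : om v w1 = 0 := by rw [om_swap, hvo w1 hw1, neg_zero]
      rw [om_add_left, om_add_right, om_add_right, om_smul_left, om_smul_left, om_smul_right,
        om_smul_right, hiso u1 hu1 w1 hw1, hvo u1 hu1, a1, om_self]
      ring
    have h3 := hmax L' ⟨h1, h2⟩
    have h4 : L < L' := by
      refine lt_of_le_of_ne le_sup_left fun h => hvL ?_
      rw [h]
      exact Submodule.mem_sup_right (Submodule.mem_span_singleton_self v)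
    have h5 := Submodule.finrank_lt_finrank_of_lt h4
    omega
  have e1 : R ⊓ orth L = orth (orth R ⊔ L) := by rw [orth_sup, orth_orth]
  have f1 := finrank_add_orth (orth R ⊔ L)
  rw [← e1] at f1
  have f2 := Submodule.finrank_sup_add_finrank_inf_eq (orth R) L
  have f3 : Module.finrank ℝ ↥(R ⊓ orth R) ≤ Module.finrank ℝ ↥(orth R ⊓ L) := by
    refine Submodule.finrank_mono fun v hv => ⟨hv.2, ?_⟩
    exact hsub ⟨hv.1, orth_anti hLR hv.2⟩
  have f4 : Module.finrank ℝ ↥(R ⊓ orth L) ≤ Module.finrank ℝ L := Submodule.finrank_mono hsub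
  omega

end Pool.Agent.Helper597_torsymp
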