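import Pool.Agent.Helper597_torsymp.Fol

/-!
# Reduction of isotropic invariance spaces to normal form by integral symplectic matrices
-/

set_option autoImplicit false
set_option linter.unusedSectionVars false

open Set Filter Topology MeasureTheory
open scoped ContDiff

noncomputable section

namespace Pool.Agent.Helper597_torsymp

open Pool.Agent.Helper597_fou Pool.Agent.Helper597_fou.PS

variable {n : ℕ}

/-! ### Integer matrices -/

/-- an invertible integer matrix moves a vector to a multiple of a basis vector, and fixes the basis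
vectors in a set on which the vector vanishes -/
theorem exists_gl (J : Finset (Fin n)) (s : ℕ) : ∀ g : Fin n → ℤ, (∑ i, (g i).natAbs) ≤ s →
    g ≠ 0 → (∀ i ∈ J, g i = 0) →
    ∃ P P' : Matrix (Fin n) (Fin n) ℤ, P * P' = 1 ∧ P' * P = 1 ∧
      (∀ i ∈ J, P.mulVec (Pi.single i 1) = Pi.single i 1) ∧
      ∃ j, j ∉ J ∧ ∃ γ : ℤ, γ ≠ 0 ∧ P.mulVec g = γ • (Pi.single j 1 : Fin n → ℤ) := by
  induction s with
  | zero =>
    intro g hg hg0
    exfalso
    apply hg0
    funext i
    have h1 : ∑ i, (g i).natAbs = 0 := Nat.le_zero.1 hg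
    have h2 := (Finset.sum_eq_zero_iff.1 h1) i (Finset.mem_univ i)
    exact Int.natAbs_eq_zero.1 h2
  | succ s ih =>
    intro g hg hg0 hJ
    by_cases hone : ∃ i j, i ≠ j ∧ g i ≠ 0 ∧ g j ≠ 0
    · -- two nonzero entries
      have hwlog : ∃ i j, i ≠ j ∧ g i ≠ 0 ∧ g j ≠ 0 ∧ (g j).natAbs ≤ (g i).natAbs := by
        obtain ⟨i, j, hij, hi, hj⟩ := hone
        rcases le_total (g j).natAbs (g i).natAbs with h | h
        · exact ⟨i, j, hij, hi, hj, h⟩
        · exact ⟨j, i, hij.symm, hj, hi, h⟩
      obtain ⟨i, j, hij, hi, hj, hle⟩ := hwlog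
      obtain ⟨c, hc⟩ : ∃ c : ℤ, (g i + c * g j).natAbs < (g i).natAbs := by
        rcases lt_or_gt_of_ne hi with h1 | h1
        · rcases lt_or_gt_of_ne hj with h2 | h2
          · exact ⟨-1, by omega⟩
          · exact ⟨1, by omega⟩
        · rcases lt_or_gt_of_ne hj with h2 | h2
          · exact ⟨1, by omega⟩
          · exact ⟨-1, by omega⟩
      have hTg : ∀ (h : Fin n → ℤ) (c : ℤ), (Matrix.transvection i j c).mulVec h =
          Function.update h i (h i + c * h j) := by
        intro h c
        funext l
        unfold Matrix.transvection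
        rw [Matrix.add_mulVec, Matrix.one_mulVec, Pi.add_apply]
        by_cases hl : l = i
        · subst hl
          simp [Matrix.single_mulVec]
        · simp [Matrix.single_mulVec, hl]
      set g' : Fin n → ℤ := Function.update g i (g i + c * g j) with hg'
      have hsum : (∑ l, (g' l).natAbs) ≤ s := by
        have e1 : ∑ l, (g' l).natAbs < ∑ l, (g l).natAbs := by
          refine Finset.sum_lt_sum (fun l _ => ?_) ⟨i, Finset.mem_univ i, ?_⟩
          · by_cases hl : l = i
            · subst hl
              rw [hg', Function.update_self]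
              exact hc.le
            · rw [hg', Function.update_of_ne hl]
          · rw [hg', Function.update_self]
            exact hc
        omega
      have hg'0 : g' ≠ 0 := by
        intro h
        have := congrFun h j
        rw [hg', Function.update_of_ne hij.symm] at this
        exact hj this
      have hJi : i ∉ J := fun h => hi (hJ i h)
      have hJj : j ∉ J := fun h => hj (hJ j h)
      have hg'J : ∀ l ∈ J, g' l = 0 := by
        intro l hl
        have : l ≠ i := fun h => hJi (h ▸ hl)
        rw [hg', Function.update_of_ne this]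
        exact hJ l hl
      obtain ⟨P, P', h1, h2, h3, k, hk, γ, hγ, h4⟩ := ih g' hsum hg'0 hg'J
      have ht1 : Matrix.transvection i j c * Matrix.transvection i j (-c) = 1 := by
        rw [Matrix.transvection_mul_transvection_same _ _ hij, add_neg_cancel,
          Matrix.transvection_zero]
      have ht2 : Matrix.transvection i j (-c) * Matrix.transvection i j c = 1 := by
        rw [Matrix.transvection_mul_transvection_same _ _ hij, neg_add_cancel,
          Matrix.transvection_zero]
      refine ⟨P * Matrix.transvection i j c, Matrix.transvection i j (-c) * P', ?_, ?_, ?_, k, hk, γ,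
        hγ, ?_⟩
      · rw [Matrix.mul_assoc, ← Matrix.mul_assoc (Matrix.transvection i j c), ht1, Matrix.one_mul, h1]
      · rw [Matrix.mul_assoc, ← Matrix.mul_assoc P', h2, Matrix.one_mul, ht2]
      · intro l hl
        rw [← Matrix.mulVec_mulVec, hTg]
        have hli : l ≠ i := fun h => hJi (h ▸ hl)
        have hlj : l ≠ j := fun h => hJj (h ▸ hl)
        have : Function.update (Pi.single l 1 : Fin n → ℤ) i
            ((Pi.single l 1 : Fin n → ℤ) i + c * (Pi.single l 1 : Fin n → ℤ) j) =
            Pi.single l 1 := by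
          rw [Pi.single_eq_of_ne hli.symm, Pi.single_eq_of_ne hlj.symm, mul_zero, add_zero]
          conv_rhs => rw [← Function.update_eq_self i (Pi.single l 1 : Fin n → ℤ)]
          rw [Pi.single_eq_of_ne hli.symm]
        rw [this]
        exact h3 l hl
      · rw [← Matrix.mulVec_mulVec, hTg, ← hg', h4]
    · -- one nonzero entry
      push Not at hone
      have hex : ∃ j, g j ≠ 0 := by
        by_contra hcon
        push Not at hcon
        exact hg0 (funext hcon)
      obtain ⟨j, hj⟩ := hex
      refine ⟨1, 1, by simp, by simp, fun i _ => by rw [Matrix.one_mulVec], j,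
        fun h => hj (hJ j h), g j, hj, ?_⟩
      rw [Matrix.one_mulVec]
      funext l
      by_cases hl : l = j
      · subst hl; simp
      · have : g l = 0 := by
          by_contra h
          exact hj (hone l j hl h)
        simp [hl, this]

theorem mem_block {P P' : Matrix (Fin n) (Fin n) ℤ} (h : P' * P = 1) :
    Matrix.fromBlocks P'.transpose 0 0 P ∈ Matrix.symplecticGroup (Fin n) ℤ := by
  rw [SymplecticGroup.fromBlocks_mem_iff]
  refine ⟨by simp, by simp, ?_⟩
  simp [h]

theorem mem_diag (s t u v : Fin n → ℤ) (h : ∀ i, s i * v i - t i * u i = 1) :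
    Matrix.fromBlocks (Matrix.diagonal s) (Matrix.diagonal t) (Matrix.diagonal u)
      (Matrix.diagonal v) ∈ Matrix.symplecticGroup (Fin n) ℤ := by
  rw [SymplecticGroup.fromBlocks_mem_iff]
  simp only [Matrix.diagonal_transpose, Matrix.diagonal_mul_diagonal]
  refine ⟨by congr 1; funext i; ring, by congr 1; funext i; ring, ?_⟩
  rw [Matrix.diagonal_sub, ← Matrix.diagonal_one]
  congr 1
  funext i
  have := h i
  linear_combination this

/-- an integral symplectic matrix moves a vector to a multiple of some `e_{y_j}`, and fixes the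
`e_{y_i}` for `i` in a set outside of the support -/
theorem exists_sp (J : Finset (Fin n)) {w : Fin n ⊕ Fin n → ℤ} (hw : w ≠ 0)
    (hJ : ∀ i ∈ J, w (Sum.inl i) = 0 ∧ w (Sum.inr i) = 0) :
    ∃ N ∈ Matrix.symplecticGroup (Fin n) ℤ,
      (∀ i ∈ J, N.mulVec (Pi.single (Sum.inr i) 1) = Pi.single (Sum.inr i) 1) ∧
      ∃ j, j ∉ J ∧ ∃ γ : ℤ, γ ≠ 0 ∧
        N.mulVec w = γ • (Pi.single (Sum.inr j) 1 : Fin n ⊕ Fin n → ℤ) := by
  have hch : ∀ i : Fin n, ∃ s t u v : ℤ, s * v - t * u = 1 ∧
      s * w (Sum.inl i) + t * w (Sum.inr i) = 0 ∧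
      (w (Sum.inl i) ≠ 0 ∨ w (Sum.inr i) ≠ 0 → u * w (Sum.inl i) + v * w (Sum.inr i) ≠ 0) ∧
      (i ∈ J → t = 0 ∧ v = 1) := by
    intro i
    by_cases hi : i ∈ J
    · refine ⟨1, 0, 0, 1, by ring, by rw [(hJ i hi).1]; ring, ?_, fun _ => ⟨rfl, rfl⟩⟩
      intro h
      rcases h with h | h
      · exact absurd (hJ i hi).1 h
      · exact absurd (hJ i hi).2 h
    · obtain ⟨s, t, u, v, h1, h2, h3⟩ := exists_sl2 (w (Sum.inl i)) (w (Sum.inr i))
      exact ⟨s, t, u, v, h1, h2, h3, fun h => absurd h hi⟩
  choose s t u v h1 h2 h3 h4 using hch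
  set y : Fin n → ℤ := fun i => u i * w (Sum.inl i) + v i * w (Sum.inr i) with hy
  have e1 : (Matrix.fromBlocks (Matrix.diagonal s) (Matrix.diagonal t) (Matrix.diagonal u)
      (Matrix.diagonal v)).mulVec w = Sum.elim (0 : Fin n → ℤ) y := by
    rw [Matrix.fromBlocks_mulVec]
    congr 1
    · funext i
      simp only [Pi.add_apply, Matrix.mulVec_diagonal, Function.comp_apply]
      exact h2 i
    · funext i
      simp only [Pi.add_apply, Matrix.mulVec_diagonal, Function.comp_apply, hy]
  have hy0 : y ≠ 0 := by
    intro hcon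
    apply hw
    have hwi : ∀ i, w (Sum.inl i) = 0 ∧ w (Sum.inr i) = 0 := by
      intro i
      by_contra hi
      have hi' : w (Sum.inl i) ≠ 0 ∨ w (Sum.inr i) ≠ 0 := by
        by_contra h'
        push Not at h'
        exact hi h'
      exact h3 i hi' (congrFun hcon i)
    funext α
    rcases α with i | i
    · exact (hwi i).1
    · exact (hwi i).2
  have hyJ : ∀ i ∈ J, y i = 0 := fun i hi => by
    rw [hy]
    simp only
    rw [(hJ i hi).1, (hJ i hi).2]
    ring
  obtain ⟨P, P', hP1, hP2, hP3, j, hj, γ, hγ, hP4⟩ := exists_gl J _ y le_rfl hy0 hyJ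
  refine ⟨_, Submonoid.mul_mem _ (mem_block hP2) (mem_diag s t u v h1), ?_, j, hj, γ, hγ, ?_⟩
  · intro i hi
    have e2 : (Matrix.fromBlocks (Matrix.diagonal s) (Matrix.diagonal t) (Matrix.diagonal u)
        (Matrix.diagonal v)).mulVec (Pi.single (Sum.inr i) 1) =
        Sum.elim (0 : Fin n → ℤ) (Pi.single i 1) := by
      rw [Matrix.fromBlocks_mulVec]
      obtain ⟨ht, hv⟩ := h4 i hi
      congr 1
      · funext l
        simp only [Pi.add_apply, Matrix.mulVec_diagonal, Function.comp_apply, Pi.zero_apply]
        by_cases hl : l = i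
        · subst hl; simp [ht]
        · simp [hl]
      · funext l
        simp only [Pi.add_apply, Matrix.mulVec_diagonal, Function.comp_apply]
        by_cases hl : l = i
        · subst hl; simp [hv]
        · simp [hl]
    rw [← Matrix.mulVec_mulVec, e2, Matrix.fromBlocks_mulVec]
    have e3 : (Sum.elim (0 : Fin n → ℤ) (Pi.single i 1)) ∘ Sum.inl = 0 := rfl
    have e4 : (Sum.elim (0 : Fin n → ℤ) (Pi.single i 1)) ∘ Sum.inr = Pi.single i 1 := rfl
    rw [e3, e4, hP3 i hi]
    funext α
    rcases α with l | l
    · simp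
    · by_cases hl : l = i
      · subst hl; simp
      · simp [hl]
  · rw [← Matrix.mulVec_mulVec, e1, Matrix.fromBlocks_mulVec]
    have e3 : (Sum.elim (0 : Fin n → ℤ) y) ∘ Sum.inl = 0 := rfl
    have e4 : (Sum.elim (0 : Fin n → ℤ) y) ∘ Sum.inr = y := rfl
    rw [e3, e4, hP4]
    funext α
    rcases α with l | l
    · simp
    · by_cases hl : l = j
      · subst hl; simp
      · simp [hl]

end Pool.Agent.Helper597_torsymp
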