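import Pool.Agent.Helper597_torsymp.Dec2

/-!
# Systems of linear foliations: the relative version
-/

set_option autoImplicit false
set_option linter.unusedSectionVars false

open Set Filter Topology MeasureTheory
open scoped ContDiff

noncomputable section

namespace Pool.Agent.Helper597_torsymp

open Pool.Agent.Helper597_fou Pool.Agent.Helper597_fou.PS

variable {n : ℕ} {A : Matrix (Fin n ⊕ Fin n) (Fin n ⊕ Fin n) ℤ}

/-- two symplectomorphisms which map linear foliations to the same foliations differ by one which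
preserves the linear foliations -/
theorem exists_of_relative_system {F₀ F₁ : V n → V n} (h₀ : IsTorusSymp A F₀)
    (h₁ : IsTorusSymp A F₁) {ι : Type} {P : ι → Submodule ℝ (V n)}
    (h : ∀ i x y, F₀ x = F₁ y → (P i).map (fderiv ℝ F₀ x : V n →ₗ[ℝ] V n) =
      (P i).map (fderiv ℝ F₁ y : V n →ₗ[ℝ] V n)) :
    ∃ H : V n → V n, IsTorusSymp 1 H ∧ (∀ i x, ∀ p ∈ P i, fderiv ℝ H x p ∈ P i) ∧
      ∀ x, F₀ (H x) = F₁ x := by
  obtain ⟨H, hH, -, hF⟩ := exists_of_relative h₀ h₁ (P := ⊥) (fun x y _ => by simp)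
  refine ⟨H, hH, fun i => ?_, hF⟩
  obtain ⟨H', hH', hP, hF'⟩ := exists_of_relative h₀ h₁ (h i)
  have e : H' = H := funext fun x => h₀.injective (by rw [hF, hF'])
  rw [← e]
  exact hP

/-- **The theorem on systems of linear foliations.** -/
theorem isotopic_of_relative_system {F₀ F₁ : V n → V n} (h₀ : IsTorusSymp A F₀)
    (h₁ : IsTorusSymp A F₁) {ι : Type} [Fintype ι] {P : ι → Submodule ℝ (V n)}
    (hor : ∀ i j, i ≠ j → P i ≤ orth (P j))
    (hP2 : ∀ i, Module.finrank ℝ (P i) ≤ Module.finrank ℝ ↥(P i ⊓ orth (P i)) + 2)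
    (hS2 : Module.finrank ℝ (orth (⨆ i, P i)) ≤
      Module.finrank ℝ ↥((⨆ i, P i) ⊓ orth (⨆ i, P i)) + 2)
    (h : ∀ i x y, F₀ x = F₁ y → (P i).map (fderiv ℝ F₀ x : V n →ₗ[ℝ] V n) =
      (P i).map (fderiv ℝ F₁ y : V n →ₗ[ℝ] V n)) :
    SymplecticallyIsotopic A F₀ F₁ := by
  rcases Nat.eq_zero_or_pos n with rfl | hn
  · have : F₀ = F₁ := funext fun x => funext fun α => by
      rcases α with i | i <;> exact i.elim0
    rw [this]
    exact SymplecticallyIsotopic.refl h₁
  · obtain ⟨H, hH, hP, hF⟩ := exists_of_relative_system h₀ h₁ h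
    refine isotopic_of_exists h₀ ?_ hF
    exact isotopic_of_system hn hor hP2 hS2 Finset.univ hH (fun i _ => hP i)
      (fun i hi => absurd (Finset.mem_univ i) hi)

end Pool.Agent.Helper597_torsymp
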